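import Mathlib
import Pool.Agent.Helper186.Forms

/-! Diffeomorphisms which are `C¹` close to the identity near a point. -/

open scoped Topology ContDiff Manifold
open Set Metric Bundle Filter Pool.Agent.Helper186

noncomputable section

namespace Pool.Agent.J4H20.HT

set_option linter.unusedSectionVars false

variable {E : Type*} [NormedAddCommGroup E] [NormedSpace ℝ E]
  {M : Type*} [TopologicalSpace M] [ChartedSpace E M] [IsManifold 𝓘(ℝ, E) ∞ M]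

/-- the tangent vector with coordinates `z` in the chart at `x` -/
def jj (x : M) (z : E × E) : TangentBundle 𝓘(ℝ, E) M :=
  tangentMap 𝓘(ℝ, E) 𝓘(ℝ, E) (extChartAt 𝓘(ℝ, E) x).symm (⟨z.1, z.2⟩ : TangentBundle 𝓘(ℝ, E) E)

/-- the vector coordinates of a tangent vector in the chart at `x` -/
def cc (x : M) (q : TangentBundle 𝓘(ℝ, E) M) : E :=
  (tangentMap 𝓘(ℝ, E) 𝓘(ℝ, E) (extChartAt 𝓘(ℝ, E) x) q).2

lemma continuousAt_jj (x : M) {z : E × E} (hz : z.1 ∈ (extChartAt 𝓘(ℝ, E) x).target) :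
    ContinuousAt (jj x) z := by
  have h1 : ContMDiffAt 𝓘(ℝ, E).tangent 𝓘(ℝ, E).tangent ∞
      (tangentMap 𝓘(ℝ, E) 𝓘(ℝ, E) (extChartAt 𝓘(ℝ, E) x).symm)
      (⟨z.1, z.2⟩ : TangentBundle 𝓘(ℝ, E) E) :=
    contMDiffAt_tangentMap (isOpen_extChartAt_target x) (contMDiffOn_extChartAt_symm x) hz
  have h2 : Continuous (fun z : E × E => (⟨z.1, z.2⟩ : TangentBundle 𝓘(ℝ, E) E)) :=
    (tangentBundleModelSpaceHomeomorph 𝓘(ℝ, E)).symm.continuous
  exact ContinuousAt.comp (f := fun z : E × E => (⟨z.1, z.2⟩ : TangentBundle 𝓘(ℝ, E) E))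
    h1.continuousAt h2.continuousAt

lemma continuousAt_cc (x : M) {q : TangentBundle 𝓘(ℝ, E) M}
    (hq : q.1 ∈ (extChartAt 𝓘(ℝ, E) x).source) : ContinuousAt (cc x) q := by
  have h1 : ContMDiffAt 𝓘(ℝ, E).tangent 𝓘(ℝ, E).tangent ∞
      (tangentMap 𝓘(ℝ, E) 𝓘(ℝ, E) (extChartAt 𝓘(ℝ, E) x)) q :=
    contMDiffAt_tangentMap (isOpen_extChartAt_source x)
      (by rw [extChartAt_source]; exact contMDiffOn_extChartAt) hq
  have h2 : Continuous (fun q : TangentBundle 𝓘(ℝ, E) E => (q.2 : E)) :=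
    (tangentBundleModelSpaceHomeomorph 𝓘(ℝ, E)).continuous.snd
  exact ContinuousAt.comp (g := fun q : TangentBundle 𝓘(ℝ, E) E => (q.2 : E))
    h2.continuousAt h1.continuousAt

/-- `h` preserves the chart domain near `x` and is `C¹` close to the identity there -/
def Small (E : Type*) [NormedAddCommGroup E] [NormedSpace ℝ E] {M : Type*} [TopologicalSpace M]
    [ChartedSpace E M] (x : M) (ρ ε : ℝ) (h : M → M) : Prop :=
  ∀ y ∈ closedBall (extChartAt 𝓘(ℝ, E) x x) ρ,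
    h ((extChartAt 𝓘(ℝ, E) x).symm y) ∈ (extChartAt 𝓘(ℝ, E) x).source ∧
    ‖extChartAt 𝓘(ℝ, E) x (h ((extChartAt 𝓘(ℝ, E) x).symm y)) - y‖ ≤ ε ∧
    ‖fderiv ℝ (fun y => extChartAt 𝓘(ℝ, E) x (h ((extChartAt 𝓘(ℝ, E) x).symm y))) y -
      ContinuousLinearMap.id ℝ E‖ ≤ ε

/-- the tangent map of a `C¹` map -/
def TT (h : M → M) (hh : ContMDiff 𝓘(ℝ, E) 𝓘(ℝ, E) 1 h) :
    C(TangentBundle 𝓘(ℝ, E) M, TangentBundle 𝓘(ℝ, E) M) :=
  ⟨tangentMap 𝓘(ℝ, E) 𝓘(ℝ, E) h, hh.continuous_tangentMap le_rfl⟩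

lemma cc_tangentMap_jj (x : M) {h : M → M} (hh : ContMDiff 𝓘(ℝ, E) 𝓘(ℝ, E) 1 h) {z : E × E}
    (hz : z.1 ∈ (extChartAt 𝓘(ℝ, E) x).target)
    (hz' : h ((extChartAt 𝓘(ℝ, E) x).symm z.1) ∈ (extChartAt 𝓘(ℝ, E) x).source) :
    cc x (tangentMap 𝓘(ℝ, E) 𝓘(ℝ, E) h (jj x z)) =
      fderiv ℝ (fun y => extChartAt 𝓘(ℝ, E) x (h ((extChartAt 𝓘(ℝ, E) x).symm y))) z.1 z.2 := by
  have m1 : MDifferentiableAt 𝓘(ℝ, E) 𝓘(ℝ, E) (extChartAt 𝓘(ℝ, E) x).symm z.1 :=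
    ((contMDiffOn_extChartAt_symm (n := ∞) x).contMDiffAt
      ((isOpen_extChartAt_target x).mem_nhds hz)).mdifferentiableAt (by simp)
  have m2 : MDifferentiableAt 𝓘(ℝ, E) 𝓘(ℝ, E) h ((extChartAt 𝓘(ℝ, E) x).symm z.1) :=
    hh.mdifferentiableAt one_ne_zero
  have m3 : MDifferentiableAt 𝓘(ℝ, E) 𝓘(ℝ, E) (extChartAt 𝓘(ℝ, E) x)
      (h ((extChartAt 𝓘(ℝ, E) x).symm z.1)) := by
    rw [extChartAt_source] at hz'
    exact (contMDiffAt_extChartAt' (n := ∞) hz').mdifferentiableAt (by simp)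
  have e1 := tangentMap_comp_at (I := 𝓘(ℝ, E)) (I' := 𝓘(ℝ, E)) (I'' := 𝓘(ℝ, E))
    (g := h) (f := (extChartAt 𝓘(ℝ, E) x).symm) (⟨z.1, z.2⟩ : TangentBundle 𝓘(ℝ, E) E) m2 m1
  have e2 := tangentMap_comp_at (I := 𝓘(ℝ, E)) (I' := 𝓘(ℝ, E)) (I'' := 𝓘(ℝ, E))
    (g := extChartAt 𝓘(ℝ, E) x) (f := h ∘ (extChartAt 𝓘(ℝ, E) x).symm)
    (⟨z.1, z.2⟩ : TangentBundle 𝓘(ℝ, E) E) m3 (m2.comp z.1 m1)
  unfold cc jj
  rw [← e1, ← e2]
  simp only [tangentMap, mfderiv_eq_fderiv]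
  rfl

lemma cc_jj (x : M) {z : E × E} (hz : z.1 ∈ (extChartAt 𝓘(ℝ, E) x).target) :
    cc x (jj x z) = z.2 := by
  have h1 := cc_tangentMap_jj x (h := (id : M → M)) contMDiff_id hz
    ((extChartAt 𝓘(ℝ, E) x).map_target hz)
  rw [tangentMap_id] at h1
  rw [id] at h1
  rw [h1]
  have h2 : (fun y => extChartAt 𝓘(ℝ, E) x (id ((extChartAt 𝓘(ℝ, E) x).symm y))) =ᶠ[𝓝 z.1]
      fun y => y := by
    filter_upwards [(isOpen_extChartAt_target x).mem_nhds hz] with y hy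
    exact (extChartAt 𝓘(ℝ, E) x).right_inv hy
  rw [h2.fderiv_eq, fderiv_fun_id]
  rfl

/-- the condition that the tangent map `F` is close to the identity at the tangent vector with
coordinates `z` -/
def PP (x : M) (ε : ℝ) (F : C(TangentBundle 𝓘(ℝ, E) M, TangentBundle 𝓘(ℝ, E) M)) (z : E × E) :
    Prop :=
  (F (jj x z)).1 ∈ (extChartAt 𝓘(ℝ, E) x).source ∧
    ‖extChartAt 𝓘(ℝ, E) x (F (jj x z)).1 - z.1‖ < ε ∧ ‖cc x (F (jj x z)) - z.2‖ < ε

lemma eventually_PP [FiniteDimensional ℝ E]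
    [LocallyCompactSpace (TangentBundle 𝓘(ℝ, E) M)] (x : M) {ρ ε : ℝ} (hε : 0 < ε)
    (hρ : closedBall (extChartAt 𝓘(ℝ, E) x x) ρ ⊆ (extChartAt 𝓘(ℝ, E) x).target) :
    ∀ᶠ F in 𝓝 (ContinuousMap.id (TangentBundle 𝓘(ℝ, E) M)),
      ∀ z ∈ closedBall (extChartAt 𝓘(ℝ, E) x x) ρ ×ˢ closedBall (0:E) 1, PP x ε F z := by
  have : ProperSpace E := FiniteDimensional.proper ℝ E
  have hK : IsCompact (closedBall (extChartAt 𝓘(ℝ, E) x x) ρ ×ˢ closedBall (0:E) 1) :=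
    (isCompact_closedBall _ _).prod (isCompact_closedBall _ _)
  refine hK.eventually_forall_of_forall_eventually ?_
  intro z hz
  have hzt : z.1 ∈ (extChartAt 𝓘(ℝ, E) x).target := hρ hz.1
  have hid : (ContinuousMap.id (TangentBundle 𝓘(ℝ, E) M)) (jj x z) = jj x z := rfl
  have hsrc : (jj x z).1 ∈ (extChartAt 𝓘(ℝ, E) x).source :=
    (extChartAt 𝓘(ℝ, E) x).map_target hzt
  -- continuity of the evaluation
  have c0 : ContinuousAt (fun q : C(TangentBundle 𝓘(ℝ, E) M, TangentBundle 𝓘(ℝ, E) M) × (E × E) =>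
      q.1 (jj x q.2)) (ContinuousMap.id _, z) := by
    have h1 : ContinuousAt (fun q : C(TangentBundle 𝓘(ℝ, E) M, TangentBundle 𝓘(ℝ, E) M) ×
        (E × E) => (q.1, jj x q.2)) (ContinuousMap.id _, z) :=
      continuousAt_fst.prodMk (ContinuousAt.comp (g := jj x) (f := Prod.snd)
        (continuousAt_jj x hzt) continuousAt_snd)
    exact ContinuousAt.comp (g := fun q : C(TangentBundle 𝓘(ℝ, E) M, TangentBundle 𝓘(ℝ, E) M) ×
      TangentBundle 𝓘(ℝ, E) M => q.1 q.2) (ContinuousEval.continuous_eval.continuousAt) h1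
  have c1 : ContinuousAt (fun q : C(TangentBundle 𝓘(ℝ, E) M, TangentBundle 𝓘(ℝ, E) M) × (E × E) =>
      (q.1 (jj x q.2)).1) (ContinuousMap.id _, z) :=
    ContinuousAt.comp (g := fun q : TangentBundle 𝓘(ℝ, E) M => q.1)
      (FiberBundle.continuous_proj E (TangentSpace 𝓘(ℝ, E))).continuousAt c0
  have c2 : ContinuousAt (fun q : C(TangentBundle 𝓘(ℝ, E) M, TangentBundle 𝓘(ℝ, E) M) × (E × E) =>
      extChartAt 𝓘(ℝ, E) x (q.1 (jj x q.2)).1) (ContinuousMap.id _, z) :=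
    ContinuousAt.comp (g := extChartAt 𝓘(ℝ, E) x)
      (continuousAt_extChartAt' (I := 𝓘(ℝ, E)) hsrc) c1
  have c3 : ContinuousAt (fun q : C(TangentBundle 𝓘(ℝ, E) M, TangentBundle 𝓘(ℝ, E) M) × (E × E) =>
      cc x (q.1 (jj x q.2))) (ContinuousMap.id _, z) :=
    ContinuousAt.comp (g := cc x) (continuousAt_cc x hsrc) c0
  have d2 : ContinuousAt (fun q : C(TangentBundle 𝓘(ℝ, E) M, TangentBundle 𝓘(ℝ, E) M) × (E × E) =>
      ‖extChartAt 𝓘(ℝ, E) x (q.1 (jj x q.2)).1 - q.2.1‖) (ContinuousMap.id _, z) :=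
    (c2.sub (continuousAt_fst.comp continuousAt_snd)).norm
  have d3 : ContinuousAt (fun q : C(TangentBundle 𝓘(ℝ, E) M, TangentBundle 𝓘(ℝ, E) M) × (E × E) =>
      ‖cc x (q.1 (jj x q.2)) - q.2.2‖) (ContinuousMap.id _, z) :=
    (c3.sub (continuousAt_snd.comp continuousAt_snd)).norm
  have e1 := c1.eventually ((isOpen_extChartAt_source (I := 𝓘(ℝ, E)) x).mem_nhds hsrc)
  have v2 : ‖extChartAt 𝓘(ℝ, E) x ((ContinuousMap.id (TangentBundle 𝓘(ℝ, E) M)) (jj x z)).1 -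
      z.1‖ < ε := by
    have h1 : extChartAt 𝓘(ℝ, E) x (jj x z).1 = z.1 := (extChartAt 𝓘(ℝ, E) x).right_inv hzt
    rw [hid, h1, sub_self, norm_zero]
    exact hε
  have v3 : ‖cc x ((ContinuousMap.id (TangentBundle 𝓘(ℝ, E) M)) (jj x z)) - z.2‖ < ε := by
    rw [hid, cc_jj x hzt, sub_self, norm_zero]
    exact hε
  have e2 := d2.eventually (gt_mem_nhds v2)
  have e3 := d3.eventually (gt_mem_nhds v3)
  filter_upwards [e1, e2, e3] with q h1 h2 h3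
  exact ⟨h1, h2, h3⟩

lemma small_of_PP (x : M) {ρ ε : ℝ} (hε : 0 < ε)
    (hρ : closedBall (extChartAt 𝓘(ℝ, E) x x) ρ ⊆ (extChartAt 𝓘(ℝ, E) x).target)
    {h : M → M} (hh : ContMDiff 𝓘(ℝ, E) 𝓘(ℝ, E) 1 h)
    (hP : ∀ z ∈ closedBall (extChartAt 𝓘(ℝ, E) x x) ρ ×ˢ closedBall (0:E) 1, PP x ε (TT h hh) z) :
    Small E x ρ ε h := by
  intro y hy
  have h0 := hP (y, 0) ⟨hy, by simp⟩
  have hyt := hρ hy
  refine ⟨h0.1, h0.2.1.le, ?_⟩
  refine ContinuousLinearMap.opNorm_le_of_unit_norm hε.le ?_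
  intro ζ hζ
  have h1 := hP (y, ζ) ⟨hy, by simp [hζ]⟩
  have h2 := cc_tangentMap_jj x hh (z := (y, ζ)) hyt h0.1
  have h3 := h1.2.2
  have h4 : cc x ((TT h hh) (jj x (y, ζ))) =
      cc x (tangentMap 𝓘(ℝ, E) 𝓘(ℝ, E) h (jj x (y, ζ))) := rfl
  rw [h4, h2] at h3
  rw [sub_apply, ContinuousLinearMap.id_apply]
  exact h3.le

lemma tt_comp {g h : M → M} (hg : ContMDiff 𝓘(ℝ, E) 𝓘(ℝ, E) 1 g)
    (hh : ContMDiff 𝓘(ℝ, E) 𝓘(ℝ, E) 1 h) (hgh : ContMDiff 𝓘(ℝ, E) 𝓘(ℝ, E) 1 (fun x => g (h x))) :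
    (TT g hg).comp (TT h hh) = TT (fun x => g (h x)) hgh := by
  ext1 q
  have := tangentMap_comp_at (I := 𝓘(ℝ, E)) (I' := 𝓘(ℝ, E)) (I'' := 𝓘(ℝ, E)) (g := g) (f := h) q
    (hg.mdifferentiableAt one_ne_zero) (hh.mdifferentiableAt one_ne_zero)
  exact this.symm

/-- A group of `C¹` diffeomorphisms is covered by countably many sets of maps which are relatively
close to each other near a point. -/
lemma exists_cover [FiniteDimensional ℝ E]
    [LocallyCompactSpace (TangentBundle 𝓘(ℝ, E) M)]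
    [SecondCountableTopology (TangentBundle 𝓘(ℝ, E) M)]
    (G : Subgroup (Equiv.Perm M)) (hG : ∀ g ∈ G, ContMDiff 𝓘(ℝ, E) 𝓘(ℝ, E) 1 g)
    (x : M) {ρ ε : ℝ} (hε : 0 < ε)
    (hρ : closedBall (extChartAt 𝓘(ℝ, E) x x) ρ ⊆ (extChartAt 𝓘(ℝ, E) x).target) :
    ∃ A : Set G, A.Countable ∧ ∀ g : G, ∃ a ∈ A, Small E x ρ ε ((a⁻¹ * g : G) : Equiv.Perm M) ∧
      Small E x ρ ε ((g⁻¹ * a : G) : Equiv.Perm M) := by
  let T : G → C(TangentBundle 𝓘(ℝ, E) M, TangentBundle 𝓘(ℝ, E) M) ×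
      C(TangentBundle 𝓘(ℝ, E) M, TangentBundle 𝓘(ℝ, E) M) := fun g =>
    (TT g (hG g g.2), TT ((g⁻¹ : G) : Equiv.Perm M) (hG _ (g⁻¹).2))
  letI tG : TopologicalSpace G := TopologicalSpace.induced T inferInstance
  haveI : SecondCountableTopology G := TopologicalSpace.secondCountableTopology_induced _ _ T
  have hT : Continuous T := continuous_induced_dom
  have hmul : ∀ a b : G, (TT ((a⁻¹ : G) : Equiv.Perm M) (hG _ (a⁻¹).2)).comp
      (TT (b : Equiv.Perm M) (hG _ b.2)) = TT ((a⁻¹ * b : G) : Equiv.Perm M) (hG _ (a⁻¹ * b).2) := by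
    intro a b
    exact tt_comp (hG _ (a⁻¹).2) (hG _ b.2) (hG _ (a⁻¹ * b).2)
  have hself : ∀ a : G, TT ((a⁻¹ * a : G) : Equiv.Perm M) (hG _ (a⁻¹ * a).2) =
      ContinuousMap.id _ := by
    intro a
    ext1 q
    have h1 : (((a⁻¹ * a : G) : Equiv.Perm M) : M → M) = id := by
      rw [inv_mul_cancel]; rfl
    show tangentMap 𝓘(ℝ, E) 𝓘(ℝ, E) (((a⁻¹ * a : G) : Equiv.Perm M) : M → M) q = q
    rw [h1, tangentMap_id]
    rfl
  have key := eventually_PP (M := M) x hε hρ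
  have hnh : ∀ a : G, {g : G | Small E x ρ ε ((a⁻¹ * g : G) : Equiv.Perm M) ∧
      Small E x ρ ε ((g⁻¹ * a : G) : Equiv.Perm M)} ∈ 𝓝 a := by
    intro a
    have c1 : Continuous (fun g : G => (TT ((a⁻¹ : G) : Equiv.Perm M) (hG _ (a⁻¹).2)).comp
        (TT (g : Equiv.Perm M) (hG _ g.2))) :=
      (ContinuousMap.continuous_postcomp _).comp (continuous_fst.comp hT)
    have c2 : Continuous (fun g : G => (TT ((g⁻¹ : G) : Equiv.Perm M) (hG _ (g⁻¹).2)).comp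
        (TT (a : Equiv.Perm M) (hG _ a.2))) :=
      (ContinuousMap.continuous_precomp _).comp (continuous_snd.comp hT)
    have t1 : Tendsto (fun g : G => (TT ((a⁻¹ : G) : Equiv.Perm M) (hG _ (a⁻¹).2)).comp
        (TT (g : Equiv.Perm M) (hG _ g.2))) (𝓝 a) (𝓝 (ContinuousMap.id _)) := by
      have := c1.tendsto a
      rw [hmul, hself] at this
      exact this
    have t2 : Tendsto (fun g : G => (TT ((g⁻¹ : G) : Equiv.Perm M) (hG _ (g⁻¹).2)).comp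
        (TT (a : Equiv.Perm M) (hG _ a.2))) (𝓝 a) (𝓝 (ContinuousMap.id _)) := by
      have := c2.tendsto a
      rw [hmul, hself] at this
      exact this
    filter_upwards [t1.eventually key, t2.eventually key] with g h1 h2
    rw [hmul] at h1 h2
    exact ⟨small_of_PP x hε hρ _ h1, small_of_PP x hε hρ _ h2⟩
  obtain ⟨A, hA, hA'⟩ := TopologicalSpace.countable_cover_nhds hnh
  refine ⟨A, hA, fun g => ?_⟩
  have h1 : g ∈ ⋃ a ∈ A, {g : G | Small E x ρ ε ((a⁻¹ * g : G) : Equiv.Perm M) ∧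
      Small E x ρ ε ((g⁻¹ * a : G) : Equiv.Perm M)} := by
    rw [hA']; trivial
  simp only [mem_iUnion] at h1
  obtain ⟨a, ha, h2⟩ := h1
  exact ⟨a, ha, h2⟩

/-- composition of two small maps -/
lemma Small.comp {x : M} {ρ ε : ℝ} {g h : M → M} (hg : Small E x ρ ε g) (hh : Small E x ρ ε h)
    (hg1 : ContMDiff 𝓘(ℝ, E) 𝓘(ℝ, E) 1 g) (hh1 : ContMDiff 𝓘(ℝ, E) 𝓘(ℝ, E) 1 h)
    (hε0 : 0 < ε) (hε : ε ≤ ρ / 2) (hε1 : ε ≤ 1)
    (hρ : closedBall (extChartAt 𝓘(ℝ, E) x x) ρ ⊆ (extChartAt 𝓘(ℝ, E) x).target) :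
    Small E x (ρ / 2) (3 * ε) (fun y => g (h y)) := by
  set κ := extChartAt 𝓘(ℝ, E) x with hκ
  intro y hy
  have hy' : y ∈ closedBall (κ x) ρ := closedBall_subset_closedBall (by linarith) hy
  obtain ⟨a1, a2, a3⟩ := hh y hy'
  set w := κ (h (κ.symm y)) with hw
  have hwy : ‖w - y‖ ≤ ε := a2
  have hwb : w ∈ closedBall (κ x) ρ := by
    rw [mem_closedBall, dist_eq_norm]
    have h1 : w - κ x = (w - y) + (y - κ x) := by abel
    rw [h1]
    rw [mem_closedBall, dist_eq_norm] at hy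
    exact (norm_add_le _ _).trans (by linarith)
  obtain ⟨b1, b2, b3⟩ := hg w hwb
  have hsw : κ.symm w = h (κ.symm y) := κ.left_inv a1
  rw [hsw] at b1 b2
  refine ⟨b1, ?_, ?_⟩
  · have h1 : κ (g (h (κ.symm y))) - y = (κ (g (h (κ.symm y))) - w) + (w - y) := by abel
    rw [h1]
    exact (norm_add_le _ _).trans (by linarith)
  · -- chain rule
    have hyt : y ∈ κ.target := hρ hy'
    have hwt : w ∈ κ.target := hρ hwb
    have m1 : MDifferentiableAt 𝓘(ℝ, E) 𝓘(ℝ, E) κ.symm y :=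
      ((contMDiffOn_extChartAt_symm (n := ∞) x).contMDiffAt
        ((isOpen_extChartAt_target x).mem_nhds hyt)).mdifferentiableAt (by simp)
    have m1' : MDifferentiableAt 𝓘(ℝ, E) 𝓘(ℝ, E) κ.symm w :=
      ((contMDiffOn_extChartAt_symm (n := ∞) x).contMDiffAt
        ((isOpen_extChartAt_target x).mem_nhds hwt)).mdifferentiableAt (by simp)
    have m3 : ∀ q ∈ κ.source, MDifferentiableAt 𝓘(ℝ, E) 𝓘(ℝ, E) κ q := by
      intro q hq
      rw [hκ, extChartAt_source] at hq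
      exact (contMDiffAt_extChartAt' (n := ∞) hq).mdifferentiableAt (by simp)
    have dh : DifferentiableAt ℝ (fun y => κ (h (κ.symm y))) y := by
      rw [← mdifferentiableAt_iff_differentiableAt]
      exact (m3 _ a1).comp y ((hh1.mdifferentiableAt one_ne_zero).comp y m1)
    have dg : DifferentiableAt ℝ (fun y => κ (g (κ.symm y))) w := by
      rw [← mdifferentiableAt_iff_differentiableAt]
      refine MDifferentiableAt.comp w (g := κ) (f := fun y => g (κ.symm y)) (m3 _ ?_)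
        ((hg1.mdifferentiableAt one_ne_zero).comp w m1')
      rw [hsw]; exact b1
    have hev : (fun y => κ (g (h (κ.symm y)))) =ᶠ[𝓝 y]
        (fun y => κ (g (κ.symm y))) ∘ (fun y => κ (h (κ.symm y))) := by
      have hc : ContinuousAt (fun y => h (κ.symm y)) y :=
        ((hh1.mdifferentiableAt one_ne_zero (x := κ.symm y)).comp y m1).continuousAt
      filter_upwards [hc.eventually ((isOpen_extChartAt_source (I := 𝓘(ℝ, E)) x).mem_nhds a1)]
        with z hz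
      show κ (g (h (κ.symm z))) = κ (g (κ.symm (κ (h (κ.symm z)))))
      rw [κ.left_inv hz]
    rw [hev.fderiv_eq, fderiv_comp y dg dh]
    set P := fderiv ℝ (fun y => κ (h (κ.symm y))) y
    set Q := fderiv ℝ (fun y => κ (g (κ.symm y))) w
    have e1 : Q.comp P - ContinuousLinearMap.id ℝ E =
        (Q - ContinuousLinearMap.id ℝ E).comp (P - ContinuousLinearMap.id ℝ E) +
        (Q - ContinuousLinearMap.id ℝ E) + (P - ContinuousLinearMap.id ℝ E) := by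
      ext z
      simp only [sub_apply, add_apply, ContinuousLinearMap.comp_apply,
        ContinuousLinearMap.id_apply, map_sub]
      abel
    rw [e1]
    refine (norm_add_le _ _).trans ?_
    have e2 := norm_add_le ((Q - ContinuousLinearMap.id ℝ E).comp
      (P - ContinuousLinearMap.id ℝ E)) (Q - ContinuousLinearMap.id ℝ E)
    have e3 := (Q - ContinuousLinearMap.id ℝ E).opNorm_comp_le (P - ContinuousLinearMap.id ℝ E)
    have e4 : ‖Q - ContinuousLinearMap.id ℝ E‖ * ‖P - ContinuousLinearMap.id ℝ E‖ ≤ ε * 1 := by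
      gcongr
      exact a3.trans hε1
    linarith

end Pool.Agent.J4H20.HT
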