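import Mathlib
import Pool.Agent.J4H20.HT.Top

/-! The images of a point with nonmeager orbit under small diffeomorphisms are dense near it. -/

open scoped Topology ContDiff Manifold
open Set Metric Bundle Filter Pool.Agent.Helper186

noncomputable section

namespace Pool.Agent.J4H20.HT

set_option linter.unusedSectionVars false

variable {E : Type*} [NormedAddCommGroup E] [NormedSpace ℝ E]
  {M : Type*} [TopologicalSpace M] [ChartedSpace E M] [IsManifold 𝓘(ℝ, E) ∞ M]

lemma dense_small [FiniteDimensional ℝ E]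
    [LocallyCompactSpace (TangentBundle 𝓘(ℝ, E) M)]
    [SecondCountableTopology (TangentBundle 𝓘(ℝ, E) M)]
    (G : Subgroup (Equiv.Perm M)) (hG : ∀ g ∈ G, ContMDiff 𝓘(ℝ, E) 𝓘(ℝ, E) 1 g)
    (x : M) (hx : ¬ IsMeagre {y | ∃ g ∈ G, g x = y}) {ρ ε : ℝ} (hε : 0 < ε) (hε2 : ε ≤ ρ / 2)
    (hε1 : ε ≤ 1)
    (hρ : closedBall (extChartAt 𝓘(ℝ, E) x x) ρ ⊆ (extChartAt 𝓘(ℝ, E) x).target) :
    closure {y | ∃ h ∈ G, Small E x (ρ / 2) (3 * ε) h ∧ h x = y} ∈ 𝓝 x := by
  obtain ⟨A, hA, hA'⟩ := exists_cover G hG x hε hρ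
  let X : G → Set M := fun a => {y | ∃ g : G, Small E x ρ ε ((a⁻¹ * g : G) : Equiv.Perm M) ∧
      Small E x ρ ε ((g⁻¹ * a : G) : Equiv.Perm M) ∧ (g : Equiv.Perm M) x = y}
  have h1 : ¬ IsMeagre (⋃ a ∈ A, X a) := by
    intro hm
    refine hx (hm.mono ?_)
    rintro y ⟨g, hg, rfl⟩
    obtain ⟨a, ha, h2, h3⟩ := hA' ⟨g, hg⟩
    simp only [mem_iUnion]
    exact ⟨a, ha, ⟨g, hg⟩, h2, h3, rfl⟩
  obtain ⟨a, ha, h2⟩ := exists_of_not_isMeagre_biUnion hA h1
  have h3 : ¬ IsNowhereDense (X a) := fun h => h2 h.isMeagre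
  have h4 : (interior (closure (X a))).Nonempty := by
    rw [IsNowhereDense] at h3
    exact nonempty_iff_ne_empty.2 h3
  obtain ⟨z, hz⟩ := h4
  have h5 : (interior (closure (X a)) ∩ X a).Nonempty :=
    mem_closure_iff.1 (interior_subset hz) _ isOpen_interior hz
  obtain ⟨_, hy1, g₁, hs1, hs2, rfl⟩ := h5
  have hc1 : Continuous ((g₁ : Equiv.Perm M) : M → M) := (hG _ g₁.2).continuous
  have hc2 : Continuous (((g₁⁻¹ : G) : Equiv.Perm M) : M → M) := (hG _ (g₁⁻¹).2).continuous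
  have hU : {y | (g₁ : Equiv.Perm M) y ∈ interior (closure (X a))} ∈ 𝓝 x :=
    (isOpen_interior.preimage hc1).mem_nhds hy1
  refine mem_of_superset hU ?_
  intro y hy
  have h6 : (g₁ : Equiv.Perm M) y ∈ closure (X a) := interior_subset hy
  have h7 : ((g₁⁻¹ : G) : Equiv.Perm M) ((g₁ : Equiv.Perm M) y) = y := by
    simp
  have h8 := image_closure_subset_closure_image hc2 (mem_image_of_mem _ h6)
  rw [h7] at h8
  refine closure_mono ?_ h8
  rintro _ ⟨_, ⟨g, hg1, hg2, rfl⟩, rfl⟩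
  refine ⟨((g₁⁻¹ * g : G) : Equiv.Perm M), (g₁⁻¹ * g).2, ?_, ?_⟩
  · have h9 : (((g₁⁻¹ * g : G) : Equiv.Perm M) : M → M) =
        fun y => ((g₁⁻¹ * a : G) : Equiv.Perm M) (((a⁻¹ * g : G) : Equiv.Perm M) y) := by
      funext y
      simp [Equiv.Perm.mul_apply]
    rw [h9]
    exact Small.comp hs2 hg1 (hG _ (g₁⁻¹ * a).2) (hG _ (a⁻¹ * g).2) hε hε2 hε1 hρ
  · simp [Equiv.Perm.mul_apply]

/-- the tangent bundle of a compact manifold is second countable and locally compact -/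
lemma secondCountable_tangent [FiniteDimensional ℝ E] [CompactSpace M] :
    SecondCountableTopology (TangentBundle 𝓘(ℝ, E) M) := by
  have : ProperSpace E := FiniteDimensional.proper ℝ E
  have : SecondCountableTopology (ModelProd E E) :=
    inferInstanceAs (SecondCountableTopology (E × E))
  obtain ⟨t, ht⟩ : ∃ t : Finset M, ⋃ x ∈ t, (chartAt E x).source = univ := by
    obtain ⟨t, ht⟩ := isCompact_univ.elim_nhds_subcover (fun x : M => (chartAt E x).source)
      (fun x _ => (chartAt E x).open_source.mem_nhds (mem_chart_source E x))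
    exact ⟨t, univ_subset_iff.1 ht.2⟩
  refine ChartedSpace.secondCountable_of_countable_cover (ModelProd E E)
    (s := (fun x : M => (⟨x, (0:E)⟩ : TangentBundle 𝓘(ℝ, E) M)) '' t) ?_ (t.countable_toSet.image _)
  rw [eq_univ_iff_forall]
  intro q
  have h1 : q.1 ∈ ⋃ x ∈ t, (chartAt E x).source := by rw [ht]; trivial
  simp only [mem_iUnion] at h1
  obtain ⟨x, hx, h2⟩ := h1
  simp only [mem_iUnion]
  refine ⟨_, mem_image_of_mem _ hx, ?_⟩
  rw [TangentBundle.mem_chart_source_iff]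
  exact h2

lemma locallyCompact_tangent [FiniteDimensional ℝ E] :
    LocallyCompactSpace (TangentBundle 𝓘(ℝ, E) M) := by
  have : ProperSpace E := FiniteDimensional.proper ℝ E
  have : LocallyCompactSpace (ModelProd E E) :=
    inferInstanceAs (LocallyCompactSpace (E × E))
  exact ChartedSpace.locallyCompactSpace (ModelProd E E) (TangentBundle 𝓘(ℝ, E) M)

end Pool.Agent.J4H20.HT
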