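import Mathlib

/-! Local estimates for maps which are close to the identity up to a small translation. -/

open Set Filter Metric
open scoped Topology

namespace Pool.Agent.J4H20.HT

variable {E : Type*} [NormedAddCommGroup E] [NormedSpace ℝ E]

/-- The maps `ψ k` move all points near `p` by almost the same vector, and their derivatives
differ little from the derivative at `p`. -/
def Near (p : E) (ψ : ℕ → E → E) : Prop :=
  ∀ ε : ℝ, 0 < ε → ∃ r : ℝ, 0 < r ∧ ∀ᶠ k in atTop, ∀ y ∈ ball p r,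
    DifferentiableAt ℝ (ψ k) y ∧
    ‖ψ k y - y - (ψ k p - p)‖ ≤ ε * ‖ψ k p - p‖ ∧
    ‖fderiv ℝ (ψ k) y - fderiv ℝ (ψ k) p‖ ≤ ε * ‖fderiv ℝ (ψ k) p‖

/-- The derivatives tend to the identity. -/
lemma Near.deriv {p : E} {ψ : ℕ → E → E} (h : Near p ψ) (h0 : Tendsto (fun k => ψ k p) atTop (𝓝 p))
    {ε : ℝ} (hε : 0 < ε) : ∃ r : ℝ, 0 < r ∧ ∀ᶠ k in atTop, ∀ y ∈ ball p r,
      ‖fderiv ℝ (ψ k) y - ContinuousLinearMap.id ℝ E‖ ≤ ε := by
  set e : ℝ := min ε 1 / 16 with he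
  have he0 : 0 < e := by positivity
  have he1 : e ≤ 1 / 16 := by
    have : min ε 1 ≤ 1 := min_le_right _ _
    linarith
  have he2 : 16 * e ≤ ε := by
    have : min ε 1 ≤ ε := min_le_left _ _
    linarith
  obtain ⟨r, hr, hk⟩ := h e he0
  have hs : ∀ᶠ k in atTop, ‖ψ k p - p‖ ≤ r / 2 := by
    have h1 : Tendsto (fun k => ‖ψ k p - p‖) atTop (𝓝 0) := by
      have := (tendsto_iff_norm_sub_tendsto_zero.1 h0)
      exact this
    exact (h1.eventually (gt_mem_nhds (show (0:ℝ) < r / 2 by positivity))).mono fun k hk => hk.le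
  refine ⟨r, hr, ?_⟩
  filter_upwards [hk, hs] with k hk hs y hy
  set A := fderiv ℝ (ψ k) p with hA
  -- `A` is close to the identity
  have hA1 : ∀ z : E, ‖z‖ < r → ‖A z - z‖ ≤ e * ‖A‖ * ‖z‖ + e * (r / 2) := by
    intro z hz
    have hz' : p + z ∈ ball p r := by simpa [mem_ball, dist_eq_norm] using hz
    have h1 : ‖ψ k (p + z) - ψ k p - A (p + z - p)‖ ≤ e * ‖A‖ * ‖p + z - p‖ := by
      refine Convex.norm_image_sub_le_of_norm_fderiv_le' (𝕜 := ℝ) (s := ball p r)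
        (fun x hx => (hk x hx).1) (fun x hx => (hk x hx).2.2) (convex_ball p r)
        (mem_ball_self hr) hz'
    have h2 := (hk (p + z) hz').2.1
    have h3 : A z - z = (ψ k (p + z) - (p + z) - (ψ k p - p)) -
        (ψ k (p + z) - ψ k p - A (p + z - p)) := by
      rw [add_sub_cancel_left]
      abel
    rw [h3]
    refine (norm_sub_le _ _).trans ?_
    rw [add_sub_cancel_left] at h1
    have h4 : e * ‖ψ k p - p‖ ≤ e * (r / 2) := mul_le_mul_of_nonneg_left hs he0.le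
    rw [add_sub_cancel_left] 
    linarith [h1, h2, h4]
  have hA2 : ‖A - ContinuousLinearMap.id ℝ E‖ ≤ e * (‖A‖ + 1) := by
    refine ContinuousLinearMap.opNorm_le_of_shell (c := (2:ℝ)) (ε := r) hr (by positivity)
      (by norm_num) ?_
    intro z hz1 hz2
    have h1 := hA1 z hz2
    have h2 : r / 2 ≤ ‖z‖ := by simpa using hz1
    rw [sub_apply, ContinuousLinearMap.id_apply]
    nlinarith [h1, h2, norm_nonneg A]
  have hA3 : ‖A‖ ≤ 1 + ‖A - ContinuousLinearMap.id ℝ E‖ := by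
    have h1 : A = ContinuousLinearMap.id ℝ E + (A - ContinuousLinearMap.id ℝ E) := by abel
    calc ‖A‖ = ‖ContinuousLinearMap.id ℝ E + (A - ContinuousLinearMap.id ℝ E)‖ := by rw [← h1]
      _ ≤ ‖ContinuousLinearMap.id ℝ E‖ + ‖A - ContinuousLinearMap.id ℝ E‖ := norm_add_le _ _
      _ ≤ 1 + ‖A - ContinuousLinearMap.id ℝ E‖ := by
        gcongr
        exact ContinuousLinearMap.norm_id_le
  have hA4 : ‖A - ContinuousLinearMap.id ℝ E‖ ≤ 4 * e := by
    nlinarith [norm_nonneg (A - ContinuousLinearMap.id ℝ E)]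
  have h5 := (hk y hy).2.2
  have h6 : fderiv ℝ (ψ k) y - ContinuousLinearMap.id ℝ E =
      (fderiv ℝ (ψ k) y - A) + (A - ContinuousLinearMap.id ℝ E) := by abel
  rw [h6]
  refine (norm_add_le _ _).trans ?_
  nlinarith [norm_nonneg A, norm_nonneg (A - ContinuousLinearMap.id ℝ E)]

/-- The derivative of the action function. -/
lemma Near.action {p : E} {ψ : ℕ → E → E} (h : Near p ψ)
    (h0 : Tendsto (fun k => ψ k p) atTop (𝓝 p)) {a : E → E →L[ℝ] ℝ} (ha : ContDiffAt ℝ 1 a p)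
    (hpres : ∃ r : ℝ, 0 < r ∧ ∀ᶠ k in atTop, ∀ y ∈ ball p r, ∀ ζ,
      a (ψ k y) (fderiv ℝ (ψ k) y ζ) = a y ζ)
    {s : ℕ → ℝ} (hs : ∀ k, 0 < s k) {v : E}
    (hv : Tendsto (fun k => (s k)⁻¹ • (ψ k p - p)) atTop (𝓝 v)) {ε : ℝ} (hε : 0 < ε) :
    ∃ r : ℝ, 0 < r ∧ ∀ᶠ k in atTop, ∀ y ∈ ball p r,
      |(s k)⁻¹ * a y (ψ k y - y) - (s k)⁻¹ * a p (ψ k p - p) +
        (fderiv ℝ a p v (y - p) - fderiv ℝ a p (y - p) v)| ≤ ε * ‖y - p‖ := by
  obtain ⟨r₀, hr₀, hpres⟩ := hpres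
  -- constants
  set L := fderiv ℝ a p with hL
  set C : ℝ := ‖v‖ + 2 with hC
  have hCpos : 0 < C := by positivity
  set K : ℝ := ‖L‖ + 1 with hK
  have hKpos : 0 < K := by positivity
  set e : ℝ := min 1 (ε / (6 * C * K + 6)) with he
  have he0 : 0 < e := by positivity
  have he1 : e ≤ 1 := min_le_left _ _
  have he2 : e * (6 * C * K + 6) ≤ ε := by
    have h1 : e ≤ ε / (6 * C * K + 6) := min_le_right _ _
    rwa [le_div_iff₀ (by positivity)] at h1
  set e' : ℝ := e / C with he'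
  have he'0 : 0 < e' := by positivity
  -- smoothness of `a`
  have hstr : HasStrictFDerivAt a L p := ha.hasStrictFDerivAt (by simp)
  have h1 : ∀ᶠ q : E × E in 𝓝 (p, p), ‖a q.1 - a q.2 - L (q.1 - q.2)‖ ≤ e' * ‖q.1 - q.2‖ :=
    hstr.isLittleO.def he'0
  have h2 : ∀ᶠ y in 𝓝 p, ‖fderiv ℝ a y - L‖ < e' := by
    have h3 : Tendsto (fderiv ℝ a) (𝓝 p) (𝓝 (fderiv ℝ a p)) :=
      (ha.fderiv_right (m := 0) (by simp)).continuousAt
    have h4 : Tendsto (fun y => ‖fderiv ℝ a y - fderiv ℝ a p‖) (𝓝 p) (𝓝 0) :=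
      (tendsto_iff_norm_sub_tendsto_zero (E := E →L[ℝ] E →L[ℝ] ℝ)).1 h3
    exact h4.eventually (gt_mem_nhds he'0)
  have h3 : ∀ᶠ y in 𝓝 p, DifferentiableAt ℝ a y := by
    have h4 : ∀ᶠ y in 𝓝 p, ContDiffAt ℝ 1 a y := ha.eventually (by simp)
    exact h4.mono fun y hy => hy.differentiableAt (by simp)
  obtain ⟨t, ht, ht'⟩ : ∃ t ∈ 𝓝 p, ∀ x ∈ t, ∀ y ∈ t, ‖a x - a y - L (x - y)‖ ≤ e' * ‖x - y‖ := by
    rw [nhds_prod_eq] at h1
    obtain ⟨t, ht, h2⟩ := Filter.eventually_prod_self_iff'.1 h1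
    exact ⟨t, ht, fun x hx y hy => h2 x hx y hy⟩
  obtain ⟨r₁, hr₁, hr₁'⟩ := Metric.eventually_nhds_iff_ball.1 (h2.and (h3.and ht))
  -- closeness of the maps
  obtain ⟨r₂, hr₂, hk₂⟩ := h e' he'0
  obtain ⟨r₃, hr₃, hk₃⟩ := h.deriv h0 he'0
  set r := min (min r₀ (r₁ / 2)) (min r₂ r₃) with hr
  have hrpos : 0 < r := by positivity
  have hrr₀ : r ≤ r₀ := (min_le_left _ _).trans (min_le_left _ _)
  have hrr₁ : r ≤ r₁ / 2 := (min_le_left _ _).trans (min_le_right _ _)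
  have hrr₂ : r ≤ r₂ := (min_le_right _ _).trans (min_le_left _ _)
  have hrr₃ : r ≤ r₃ := (min_le_right _ _).trans (min_le_right _ _)
  refine ⟨r, hrpos, ?_⟩
  have hsm : ∀ᶠ k in atTop, ‖ψ k p - p‖ < r₁ / 4 := by
    have h1 : Tendsto (fun k => ‖ψ k p - p‖) atTop (𝓝 0) := tendsto_iff_norm_sub_tendsto_zero.1 h0
    exact h1.eventually (gt_mem_nhds (show (0:ℝ) < r₁ / 4 by positivity))
  have hvk : ∀ᶠ k in atTop, ‖(s k)⁻¹ • (ψ k p - p) - v‖ < e := by
    have h1 := tendsto_iff_norm_sub_tendsto_zero.1 hv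
    exact h1.eventually (gt_mem_nhds he0)
  filter_upwards [hpres, hk₂, hk₃, hsm, hvk] with k hpres hk₂ hk₃ hsm hvk
  have hsk := hs k
  set d : E → E := fun y => (s k)⁻¹ • (ψ k y - y) with hd
  have hdp : ‖d p‖ ≤ C - 1 := by
    have h5 : d p = ((s k)⁻¹ • (ψ k p - p) - v) + v := by simp [hd]
    have h6 : ‖d p‖ ≤ ‖(s k)⁻¹ • (ψ k p - p) - v‖ + ‖v‖ := by
      rw [h5]; exact norm_add_le _ _
    linarith
  have hdy : ∀ y ∈ ball p r, ‖d y - d p‖ ≤ e := by
    intro y hy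
    have h5 := (hk₂ y (ball_subset_ball hrr₂ hy)).2.1
    have h6 : d y - d p = (s k)⁻¹ • (ψ k y - y - (ψ k p - p)) := by
      simp only [hd, smul_sub]
    rw [h6, norm_smul, norm_inv, Real.norm_of_nonneg hsk.le]
    have h7 : (s k)⁻¹ * ‖ψ k p - p‖ = ‖d p‖ := by
      simp only [hd]
      rw [norm_smul, norm_inv, Real.norm_of_nonneg hsk.le]
    calc (s k)⁻¹ * ‖ψ k y - y - (ψ k p - p)‖ ≤ (s k)⁻¹ * (e' * ‖ψ k p - p‖) := by gcongr
      _ = e' * ‖d p‖ := by rw [← h7]; ring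
      _ ≤ e' * C := by gcongr; linarith
      _ = e := by rw [he']; field_simp
  have hdv : ∀ y ∈ ball p r, ‖d y - v‖ ≤ 2 * e := by
    intro y hy
    have h5 : d y - v = (d y - d p) + (d p - v) := by abel
    rw [h5]
    have h6 := hdy y hy
    have h7 : ‖d p - v‖ ≤ e := hvk.le
    exact (norm_add_le _ _).trans (by linarith)
  have hdC : ∀ y ∈ ball p r, ‖d y‖ ≤ C := by
    intro y hy
    have h5 : d y = (d y - d p) + d p := by abel
    have h6 := hdy y hy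
    rw [h5]
    exact (norm_add_le _ _).trans (by linarith)
  -- the function whose derivative is small
  have hder : ∀ y ∈ ball p r, HasFDerivAt
      (fun y => a y (d y) + (L v y - L y v))
      ((a y).comp ((s k)⁻¹ • (fderiv ℝ (ψ k) y - ContinuousLinearMap.id ℝ E)) +
        (fderiv ℝ a y).flip (d y) + (L v - L.flip v)) y := by
    intro y hy
    have h5 : HasFDerivAt d ((s k)⁻¹ • (fderiv ℝ (ψ k) y - ContinuousLinearMap.id ℝ E)) y := by
      have h6 := (hk₂ y (ball_subset_ball hrr₂ hy)).1.hasFDerivAt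
      exact (h6.sub (hasFDerivAt_id y)).const_smul _
    have h6 : HasFDerivAt a (fderiv ℝ a y) y :=
      (hr₁' y (ball_subset_ball (by linarith) hy)).2.1.hasFDerivAt
    have h7 := h6.clm_apply h5
    have h8 : HasFDerivAt (fun y => L v y - L y v) (L v - L.flip v) y := by
      exact (L v - L.flip v).hasFDerivAt
    exact h7.add h8
  have hbound : ∀ y ∈ ball p r, ‖(a y).comp ((s k)⁻¹ • (fderiv ℝ (ψ k) y -
        ContinuousLinearMap.id ℝ E)) + (fderiv ℝ a y).flip (d y) + (L v - L.flip v)‖ ≤ ε := by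
    intro y hy
    refine ContinuousLinearMap.opNorm_le_bound _ hε.le fun ζ => ?_
    set η := fderiv ℝ (ψ k) y ζ with hη
    have hη1 : ‖η - ζ‖ ≤ e' * ‖ζ‖ := by
      have h5 := hk₃ y (ball_subset_ball hrr₃ hy)
      have h6 : η - ζ = (fderiv ℝ (ψ k) y - ContinuousLinearMap.id ℝ E) ζ := by
        rw [sub_apply, ContinuousLinearMap.id_apply]
      rw [h6]
      exact ContinuousLinearMap.le_of_opNorm_le _ h5 ζ
    have he'e : e' ≤ e := by
      rw [he']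
      exact div_le_self he0.le (by linarith [norm_nonneg v])
    have hη2 : ‖η‖ ≤ 2 * ‖ζ‖ := by
      have h5 : η = (η - ζ) + ζ := by abel
      rw [h5]
      refine (norm_add_le _ _).trans ?_
      nlinarith [norm_nonneg ζ]
    -- the key identity
    have hp1 : a (ψ k y) η = a y ζ := hpres y (ball_subset_ball hrr₀ hy) ζ
    have hyr : y ∈ ball p r₁ := ball_subset_ball (by linarith) hy
    have hyt : y ∈ t := (hr₁' y hyr).2.2
    have hψy : ψ k y ∈ ball p r₁ := by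
      rw [mem_ball, dist_eq_norm]
      have h5 := (hk₂ y (ball_subset_ball hrr₂ hy)).2.1
      have h6 : ‖y - p‖ < r₁ / 2 := by
        have := lt_of_lt_of_le (mem_ball.1 hy) hrr₁
        rwa [dist_eq_norm] at this
      have h7 : ψ k y - p = (ψ k y - y - (ψ k p - p)) + (ψ k p - p) + (y - p) := by abel
      rw [h7]
      refine (norm_add_le _ _).trans_lt ?_
      refine (add_le_add_left (norm_add_le _ _) _).trans_lt ?_
      nlinarith [norm_nonneg (ψ k p - p)]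
    have hψt : ψ k y ∈ t := (hr₁' _ hψy).2.2
    have h5 : ‖a (ψ k y) - a y - L (ψ k y - y)‖ ≤ e' * ‖ψ k y - y‖ := ht' _ hψt _ hyt
    have h6 : ‖fderiv ℝ a y - L‖ ≤ e' := (hr₁' y hyr).1.le
    -- rewriting
    have key : ((a y).comp ((s k)⁻¹ • (fderiv ℝ (ψ k) y - ContinuousLinearMap.id ℝ E)) +
        (fderiv ℝ a y).flip (d y) + (L v - L.flip v)) ζ =
        -((s k)⁻¹ * (a (ψ k y) - a y - L (ψ k y - y)) η) - L (d y - v) η - L v (η - ζ)
        + (fderiv ℝ a y - L) ζ (d y) + L ζ (d y - v) := by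
      simp only [add_apply, ContinuousLinearMap.comp_apply, smul_apply, sub_apply,
        ContinuousLinearMap.id_apply, ContinuousLinearMap.flip_apply, map_smul, map_sub,
        smul_eq_mul, hd]
      rw [← hη, hp1]
      ring
    rw [key]
    have b1 : ‖(s k)⁻¹ * (a (ψ k y) - a y - L (ψ k y - y)) η‖ ≤ e * (2 * ‖ζ‖) := by
      rw [norm_mul, norm_inv, Real.norm_of_nonneg hsk.le]
      have h7 : ‖(a (ψ k y) - a y - L (ψ k y - y)) η‖ ≤ e' * ‖ψ k y - y‖ * ‖η‖ :=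
        ContinuousLinearMap.le_of_opNorm_le _ h5 η
      have h8 : (s k)⁻¹ * ‖ψ k y - y‖ = ‖d y‖ := by
        simp only [hd]
        rw [norm_smul, norm_inv, Real.norm_of_nonneg hsk.le]
      have h9 : e' * ‖d y‖ ≤ e := by
        calc e' * ‖d y‖ ≤ e' * C := by gcongr; exact hdC y hy
          _ = e := by rw [he']; field_simp
      calc (s k)⁻¹ * ‖(a (ψ k y) - a y - L (ψ k y - y)) η‖
          ≤ (s k)⁻¹ * (e' * ‖ψ k y - y‖ * ‖η‖) := by gcongr
        _ = e' * ‖d y‖ * ‖η‖ := by rw [← h8]; ring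
        _ ≤ e * (2 * ‖ζ‖) := by gcongr
    have b2 : ‖L (d y - v) η‖ ≤ K * (2 * e) * (2 * ‖ζ‖) := by
      have h7 : ‖L (d y - v) η‖ ≤ ‖L‖ * ‖d y - v‖ * ‖η‖ := L.le_opNorm₂ _ _
      refine h7.trans ?_
      have := hdv y hy
      gcongr
      linarith
    have b3 : ‖L v (η - ζ)‖ ≤ K * C * (e' * ‖ζ‖) := by
      have h7 : ‖L v (η - ζ)‖ ≤ ‖L‖ * ‖v‖ * ‖η - ζ‖ := L.le_opNorm₂ _ _
      refine h7.trans ?_
      gcongr
      · linarith
      · linarith
    have b4 : ‖(fderiv ℝ a y - L) ζ (d y)‖ ≤ e' * ‖ζ‖ * C := by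
      have h7 : ‖(fderiv ℝ a y - L) ζ (d y)‖ ≤ ‖fderiv ℝ a y - L‖ * ‖ζ‖ * ‖d y‖ :=
        (fderiv ℝ a y - L).le_opNorm₂ _ _
      refine h7.trans ?_
      gcongr
      exact hdC y hy
    have b5 : ‖L ζ (d y - v)‖ ≤ K * ‖ζ‖ * (2 * e) := by
      have h7 : ‖L ζ (d y - v)‖ ≤ ‖L‖ * ‖ζ‖ * ‖d y - v‖ := L.le_opNorm₂ _ _
      refine h7.trans ?_
      have := hdv y hy
      gcongr
      linarith
    have hCe : C * e' = e := by rw [he']; field_simp
    have t1 := norm_add_le (-((s k)⁻¹ * (a (ψ k y) - a y - L (ψ k y - y)) η) - L (d y - v) η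
      - L v (η - ζ) + (fderiv ℝ a y - L) ζ (d y)) (L ζ (d y - v))
    have t2 := norm_add_le (-((s k)⁻¹ * (a (ψ k y) - a y - L (ψ k y - y)) η) - L (d y - v) η
      - L v (η - ζ)) ((fderiv ℝ a y - L) ζ (d y))
    have t3 := norm_sub_le (-((s k)⁻¹ * (a (ψ k y) - a y - L (ψ k y - y)) η) - L (d y - v) η)
      (L v (η - ζ))
    have t4 := norm_sub_le (-((s k)⁻¹ * (a (ψ k y) - a y - L (ψ k y - y)) η)) (L (d y - v) η)
    rw [norm_neg] at t4
    have hC2 : 2 ≤ C := by rw [hC]; linarith [norm_nonneg v]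
    have hK1 : 1 ≤ K := by rw [hK]; linarith [norm_nonneg L]
    have hz := norm_nonneg ζ
    have s1 : K * C * (e' * ‖ζ‖) = K * e * ‖ζ‖ := by rw [← hCe]; ring
    have s2 : e' * ‖ζ‖ * C = e * ‖ζ‖ := by rw [← hCe]; ring
    rw [s1] at b3
    rw [s2] at b4
    have hez : 0 ≤ e * ‖ζ‖ := by positivity
    have hfin : e * (2 * ‖ζ‖) + K * (2 * e) * (2 * ‖ζ‖) + K * e * ‖ζ‖ + e * ‖ζ‖ +
        K * ‖ζ‖ * (2 * e) ≤ ε * ‖ζ‖ := by
      have h10 : e * (2 * ‖ζ‖) + K * (2 * e) * (2 * ‖ζ‖) + K * e * ‖ζ‖ + e * ‖ζ‖ +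
        K * ‖ζ‖ * (2 * e) = (7 * K + 3) * (e * ‖ζ‖) := by ring
      rw [h10]
      have h11 : (7 * K + 3) * (e * ‖ζ‖) ≤ (6 * C * K + 6) * (e * ‖ζ‖) := by
        apply mul_le_mul_of_nonneg_right _ hez
        nlinarith
      refine h11.trans ?_
      have h12 : (6 * C * K + 6) * (e * ‖ζ‖) = (e * (6 * C * K + 6)) * ‖ζ‖ := by ring
      rw [h12]
      gcongr
    linarith
  intro y hy
  have hmv := Convex.norm_image_sub_le_of_norm_hasFDerivWithin_le (𝕜 := ℝ) (s := ball p r)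
    (f := fun y => a y (d y) + (L v y - L y v))
    (fun x hx => (hder x hx).hasFDerivWithinAt) (fun x hx => hbound x hx) (convex_ball p r)
    (mem_ball_self hrpos) hy
  rw [Real.norm_eq_abs] at hmv
  have e1 : (s k)⁻¹ * a y (ψ k y - y) - (s k)⁻¹ * a p (ψ k p - p) +
        (L v (y - p) - L (y - p) v) =
      (fun y => a y (d y) + (L v y - L y v)) y - (fun y => a y (d y) + (L v y - L y v)) p := by
    simp only [hd, map_smul, smul_eq_mul, map_sub, sub_apply]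
    ring
  rw [e1]
  exact hmv

end Pool.Agent.J4H20.HT
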