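import Mathlib
import Pool.Agent.J4H20.HT.Loc

/-! Maps commuting with many maps close to the identity. -/

open Set Filter Metric
open scoped Topology

namespace Pool.Agent.J4H20.HT

variable {E : Type*} [NormedAddCommGroup E] [NormedSpace ℝ E]

/-- Near `p` the images of `p` under the maps which commute with all `ψ k`, `k ∈ G`, and are `C¹`
close to the identity are dense. -/
def Dense1 (p : E) (ρ : ℝ) (ψ : ℕ → E → E) (G : Set ℕ) : Prop :=
  ∀ ε : ℝ, 0 < ε → ∃ r : ℝ, 0 < r ∧ ∀ y ∈ ball p r, ∀ η : ℝ, 0 < η → ∃ h : E → E,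
    ‖h p - y‖ < η ∧
    (∀ z ∈ ball p ρ, DifferentiableAt ℝ h z ∧
      ‖fderiv ℝ h z - ContinuousLinearMap.id ℝ E‖ ≤ ε) ∧
    ∀ k ∈ G, ψ k (h p) = h (ψ k p) ∧
      (fderiv ℝ (ψ k) (h p)).comp (fderiv ℝ h p) = (fderiv ℝ h (ψ k p)).comp (fderiv ℝ (ψ k) p)

lemma Dense1.near {p : E} {ρ : ℝ} (hρ : 0 < ρ) {ψ : ℕ → E → E} {G : Set ℕ}
    (hG : ∀ᶠ k in atTop, k ∈ G) (h : Dense1 p ρ ψ G)
    (h0 : Tendsto (fun k => ψ k p) atTop (𝓝 p))
    (hd : ∃ r : ℝ, 0 < r ∧ ∀ᶠ k in atTop, ∀ y ∈ ball p r, ContDiffAt ℝ 1 (ψ k) y) :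
    Near p ψ := by
  intro ε hε
  obtain ⟨r₀, hr₀, hd⟩ := hd
  set e : ℝ := min ε 1 / 8 with he
  have he0 : 0 < e := by positivity
  have he1 : e ≤ 1 / 8 := by
    have : min ε 1 ≤ 1 := min_le_right _ _
    linarith
  have he2 : 8 * e ≤ ε := by
    have : min ε 1 ≤ ε := min_le_left _ _
    linarith
  obtain ⟨r, hr, hh⟩ := h e he0
  refine ⟨min r r₀, by positivity, ?_⟩
  have hball : ∀ᶠ k in atTop, ψ k p ∈ ball p ρ := h0.eventually (ball_mem_nhds p hρ)
  filter_upwards [hG, hd, hball] with k hkG hd hball y hy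
  have hy1 : y ∈ ball p r := ball_subset_ball (min_le_left _ _) hy
  have hy2 : y ∈ ball p r₀ := ball_subset_ball (min_le_right _ _) hy
  have hdy := hd y hy2
  -- the estimates at the dense set of points
  have hest : ∀ η : ℝ, 0 < η → ∃ y' : E, ‖y' - y‖ < η ∧
      ‖ψ k y' - y' - (ψ k p - p)‖ ≤ ε * ‖ψ k p - p‖ ∧
      ‖fderiv ℝ (ψ k) y' - fderiv ℝ (ψ k) p‖ ≤ ε * ‖fderiv ℝ (ψ k) p‖ := by
    intro η hη
    obtain ⟨g, hg1, hg2, hg3⟩ := hh y hy1 η hη
    obtain ⟨c1, c2⟩ := hg3 k hkG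
    refine ⟨g p, hg1, ?_, ?_⟩
    · rw [c1]
      have h1 : ‖g (ψ k p) - g p - (ContinuousLinearMap.id ℝ E) (ψ k p - p)‖ ≤
          e * ‖ψ k p - p‖ :=
        Convex.norm_image_sub_le_of_norm_fderiv_le' (𝕜 := ℝ) (s := ball p ρ)
          (fun x hx => (hg2 x hx).1) (fun x hx => (hg2 x hx).2) (convex_ball p ρ)
          (mem_ball_self hρ) hball
      rw [ContinuousLinearMap.id_apply] at h1
      refine h1.trans ?_
      have := norm_nonneg (ψ k p - p)
      nlinarith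
    · set A := fderiv ℝ (ψ k) p
      set B := fderiv ℝ (ψ k) (g p)
      set P := fderiv ℝ g p
      set Q := fderiv ℝ g (ψ k p)
      have hP : ‖P - ContinuousLinearMap.id ℝ E‖ ≤ e := (hg2 p (mem_ball_self hρ)).2
      have hQ : ‖Q - ContinuousLinearMap.id ℝ E‖ ≤ e := (hg2 _ hball).2
      have h1 : B - A = -(B.comp (P - ContinuousLinearMap.id ℝ E)) +
          (Q - ContinuousLinearMap.id ℝ E).comp A := by
        rw [ContinuousLinearMap.comp_sub, ContinuousLinearMap.sub_comp,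
          ContinuousLinearMap.comp_id, ContinuousLinearMap.id_comp, c2]
        abel
      have h2 : ‖B - A‖ ≤ ‖B‖ * e + e * ‖A‖ := by
        conv_lhs => rw [h1]
        refine (norm_add_le _ _).trans ?_
        rw [norm_neg]
        gcongr
        · exact (B.opNorm_comp_le _).trans (by gcongr)
        · exact ((Q - ContinuousLinearMap.id ℝ E).opNorm_comp_le _).trans (by gcongr)
      have h3 : ‖B‖ ≤ ‖B - A‖ + ‖A‖ := by
        have h4 : B = (B - A) + A := by abel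
        conv_lhs => rw [h4]
        exact norm_add_le _ _
      have hA := norm_nonneg A
      have hBA := norm_nonneg (B - A)
      nlinarith
  -- continuity
  have c1 : ContinuousAt (fun z => ‖ψ k z - z - (ψ k p - p)‖) y :=
    ((hdy.continuousAt.sub continuousAt_id).sub continuousAt_const).norm
  have c2 : ContinuousAt (fun z => ‖fderiv ℝ (ψ k) z - fderiv ℝ (ψ k) p‖) y := by
    have h1 : Tendsto (fderiv ℝ (ψ k)) (𝓝 y) (𝓝 (fderiv ℝ (ψ k) y)) :=
      (hdy.fderiv_right (m := 0) (by simp)).continuousAt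
    have h2 : Tendsto (fun z => fderiv ℝ (ψ k) z - fderiv ℝ (ψ k) p) (𝓝 y)
      (𝓝 (fderiv ℝ (ψ k) y - fderiv ℝ (ψ k) p)) := h1.sub_const _
    exact (continuous_norm (E := E →L[ℝ] E)).continuousAt.tendsto.comp h2
  refine ⟨hdy.differentiableAt (by simp), ?_, ?_⟩
  · by_contra hcon
    push Not at hcon
    have h1 := c1.eventually (lt_mem_nhds hcon)
    obtain ⟨η, hη, hη'⟩ := Metric.eventually_nhds_iff.1 h1
    obtain ⟨y', hy', h2, -⟩ := hest η hη
    have h3 := hη' (y := y') (by rwa [dist_eq_norm])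
    linarith
  · by_contra hcon
    push Not at hcon
    have h1 := c2.eventually (lt_mem_nhds hcon)
    obtain ⟨η, hη, hη'⟩ := Metric.eventually_nhds_iff.1 h1
    obtain ⟨y', hy', -, h2⟩ := hest η hη
    have h3 := hη' (y := y') (by rwa [dist_eq_norm])
    linarith

end Pool.Agent.J4H20.HT
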