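import Mathlib
import Pool.Agent.J4H20.HT.Baire
import Pool.Agent.J4H20.HT.Loc2
import Pool.Agent.W671.WU7

/-! The action function of a group commuting with the Reeb flow. -/

open scoped Topology ContDiff Manifold
open Set Metric Bundle Filter Pool.Agent.Helper186 Pool.Agent.H826R2.Wein Pool.Agent.W671.WU

noncomputable section

namespace Pool.Agent.J4H20.HT

set_option linter.unusedSectionVars false

variable {E : Type*} [NormedAddCommGroup E] [NormedSpace ℝ E]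
  {M : Type*} [TopologicalSpace M] [ChartedSpace E M] [IsManifold 𝓘(ℝ, E) ∞ M]

/-- the expression of `F` in the chart at `x` -/
def chx (x : M) (F : M → M) (y : E) : E :=
  extChartAt 𝓘(ℝ, E) x (F ((extChartAt 𝓘(ℝ, E) x).symm y))

lemma mdiff_symm (x : M) {y : E} (hy : y ∈ (extChartAt 𝓘(ℝ, E) x).target) :
    MDifferentiableAt 𝓘(ℝ, E) 𝓘(ℝ, E) (extChartAt 𝓘(ℝ, E) x).symm y :=
  ((contMDiffOn_extChartAt_symm (n := ∞) x).contMDiffAt
    ((isOpen_extChartAt_target x).mem_nhds hy)).mdifferentiableAt (by simp)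

lemma mdiff_chart (x : M) {q : M} (hq : q ∈ (extChartAt 𝓘(ℝ, E) x).source) :
    MDifferentiableAt 𝓘(ℝ, E) 𝓘(ℝ, E) (extChartAt 𝓘(ℝ, E) x) q := by
  rw [extChartAt_source] at hq
  exact (contMDiffAt_extChartAt' (n := ∞) hq).mdifferentiableAt (by simp)

lemma differentiableAt_chx (x : M) {F : M → M} {y : E}
    (hy : y ∈ (extChartAt 𝓘(ℝ, E) x).target)
    (hF : MDifferentiableAt 𝓘(ℝ, E) 𝓘(ℝ, E) F ((extChartAt 𝓘(ℝ, E) x).symm y))
    (hs : F ((extChartAt 𝓘(ℝ, E) x).symm y) ∈ (extChartAt 𝓘(ℝ, E) x).source) :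
    DifferentiableAt ℝ (chx x F) y := by
  rw [← mdifferentiableAt_iff_differentiableAt]
  exact (mdiff_chart x hs).comp y (hF.comp y (mdiff_symm x hy))

lemma jj_map (x : M) {F : M → M} {y : E} (ζ : E)
    (hy : y ∈ (extChartAt 𝓘(ℝ, E) x).target)
    (hF : MDifferentiableAt 𝓘(ℝ, E) 𝓘(ℝ, E) F ((extChartAt 𝓘(ℝ, E) x).symm y))
    (hs : F ((extChartAt 𝓘(ℝ, E) x).symm y) ∈ (extChartAt 𝓘(ℝ, E) x).source) :
    jj x (chx x F y, fderiv ℝ (chx x F) y ζ) = tangentMap 𝓘(ℝ, E) 𝓘(ℝ, E) F (jj x (y, ζ)) := by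
  have hd := differentiableAt_chx x hy hF hs
  have ht : chx x F y ∈ (extChartAt 𝓘(ℝ, E) x).target := (extChartAt 𝓘(ℝ, E) x).map_source hs
  have e1 : tangentMap 𝓘(ℝ, E) 𝓘(ℝ, E) ((extChartAt 𝓘(ℝ, E) x).symm ∘ chx x F)
      (⟨y, ζ⟩ : TangentBundle 𝓘(ℝ, E) E) =
      tangentMap 𝓘(ℝ, E) 𝓘(ℝ, E) (extChartAt 𝓘(ℝ, E) x).symm
        (tangentMap 𝓘(ℝ, E) 𝓘(ℝ, E) (chx x F) ⟨y, ζ⟩) := by
    apply tangentMap_comp_at
    · exact mdiff_symm x ht
    · exact mdifferentiableAt_iff_differentiableAt.2 hd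
  have e2 : tangentMap 𝓘(ℝ, E) 𝓘(ℝ, E) (F ∘ (extChartAt 𝓘(ℝ, E) x).symm)
      (⟨y, ζ⟩ : TangentBundle 𝓘(ℝ, E) E) =
      tangentMap 𝓘(ℝ, E) 𝓘(ℝ, E) F
        (tangentMap 𝓘(ℝ, E) 𝓘(ℝ, E) (extChartAt 𝓘(ℝ, E) x).symm ⟨y, ζ⟩) := by
    apply tangentMap_comp_at
    · exact hF
    · exact mdiff_symm x hy
  have hev : ((extChartAt 𝓘(ℝ, E) x).symm ∘ chx x F) =ᶠ[𝓝 y]
      (F ∘ (extChartAt 𝓘(ℝ, E) x).symm) := by
    have hc : ContinuousAt (fun y => F ((extChartAt 𝓘(ℝ, E) x).symm y)) y :=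
      (hF.comp y (mdiff_symm x hy)).continuousAt
    filter_upwards [hc.eventually ((isOpen_extChartAt_source (I := 𝓘(ℝ, E)) x).mem_nhds hs)]
      with z hz
    exact (extChartAt 𝓘(ℝ, E) x).left_inv hz
  have e3 := tangentMap_congr_of_eventuallyEq (J := 𝓘(ℝ, E)) (I := 𝓘(ℝ, E))
    (v := (⟨y, ζ⟩ : TangentBundle 𝓘(ℝ, E) E)) hev
  have e4 : tangentMap 𝓘(ℝ, E) 𝓘(ℝ, E) (chx x F) (⟨y, ζ⟩ : TangentBundle 𝓘(ℝ, E) E) =
      (⟨chx x F y, fderiv ℝ (chx x F) y ζ⟩ : TangentBundle 𝓘(ℝ, E) E) := by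
    simp only [tangentMap, mfderiv_eq_fderiv]
    rfl
  rw [e4] at e1
  unfold jj
  rw [← e1, e3, e2]

lemma chartForm_chx {β : (x : M) → TangentSpace 𝓘(ℝ, E) x →L[ℝ] ℝ} (x : M) {F : M → M} {y : E}
    (ζ : E) (hy : y ∈ (extChartAt 𝓘(ℝ, E) x).target)
    (hF : MDifferentiableAt 𝓘(ℝ, E) 𝓘(ℝ, E) F ((extChartAt 𝓘(ℝ, E) x).symm y))
    (hs : F ((extChartAt 𝓘(ℝ, E) x).symm y) ∈ (extChartAt 𝓘(ℝ, E) x).source) :
    chartForm 𝓘(ℝ, E) β x (chx x F y) (fderiv ℝ (chx x F) y ζ) =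
      β (F ((extChartAt 𝓘(ℝ, E) x).symm y)) (mfderiv 𝓘(ℝ, E) 𝓘(ℝ, E) F
        ((extChartAt 𝓘(ℝ, E) x).symm y)
        (mfderiv 𝓘(ℝ, E) 𝓘(ℝ, E) (extChartAt 𝓘(ℝ, E) x).symm y ζ)) := by
  have h := congrArg (fun v : TangentBundle 𝓘(ℝ, E) M => β v.1 v.2) (jj_map x ζ hy hF hs)
  exact h

variable [FiniteDimensional ℝ E]
  {β : (x : M) → TangentSpace 𝓘(ℝ, E) x →L[ℝ] ℝ}
  {R : (x : M) → TangentSpace 𝓘(ℝ, E) x} {Fl : M → ℝ → M}

/-- The action function of a group of `C¹` diffeomorphisms commuting with the Reeb flow. -/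
theorem core [T2Space M] [CompactSpace M] (hβ : SmoothForm β) (hF : RF β R Fl)
    (G : Subgroup (Equiv.Perm M)) (hG : ∀ g ∈ G, ContMDiff 𝓘(ℝ, E) 𝓘(ℝ, E) 1 g)
    (hGc : ∀ g ∈ G, ∀ x t, g (Fl x t) = Fl (g x) t)
    (x : M) (hx : ¬ IsMeagre {y | ∃ g ∈ G, g x = y})
    (t : ℕ → ℝ) (ht : Tendsto (fun k => Fl x (t k)) atTop (𝓝 x))
    (s : ℕ → ℝ) (hs : ∀ k, 0 < s k) (v : E)
    (hv : Tendsto (fun k => (s k)⁻¹ • (extChartAt 𝓘(ℝ, E) x (Fl x (t k)) -
      extChartAt 𝓘(ℝ, E) x x)) atTop (𝓝 v)) {ε : ℝ} (hε : 0 < ε) :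
    ∃ r > 0, ∀ g ∈ G, g x ∈ (extChartAt 𝓘(ℝ, E) x).source →
      extChartAt 𝓘(ℝ, E) x (g x) ∈ ball (extChartAt 𝓘(ℝ, E) x x) r →
      |β (g x) (mfderiv 𝓘(ℝ, E) 𝓘(ℝ, E) g x v) - β x v +
        extDer 𝓘(ℝ, E) β x v (extChartAt 𝓘(ℝ, E) x (g x) - extChartAt 𝓘(ℝ, E) x x : E)| ≤
      ε * ‖extChartAt 𝓘(ℝ, E) x (g x) - extChartAt 𝓘(ℝ, E) x x‖ := by
  have := secondCountable_tangent (E := E) (M := M)
  have := locallyCompact_tangent (E := E) (M := M)
  set κ := extChartAt 𝓘(ℝ, E) x with hκ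
  set p := κ x with hp
  set φ : ℕ → M → M := fun k z => Fl z (t k) with hφ
  set ψ : ℕ → E → E := fun k => chx x (φ k) with hψ
  have hxs : x ∈ κ.source := mem_extChartAt_source x
  have hpt : p ∈ κ.target := mem_extChartAt_target x
  have hsp : κ.symm p = x := κ.left_inv hxs
  have hφs : ∀ k, ContMDiff 𝓘(ℝ, E) 𝓘(ℝ, E) ∞ (φ k) := fun k =>
    hF.smooth.comp (contMDiff_id.prodMk contMDiff_const)
  -- a ball in the chart
  obtain ⟨ρ, hρ0, hρ⟩ : ∃ ρ > 0, closedBall p ρ ⊆ κ.target :=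
    nhds_basis_closedBall.mem_iff.1 ((isOpen_extChartAt_target x).mem_nhds hpt)
  have hψp : ∀ k, ψ k p = κ (Fl x (t k)) := by
    intro k
    show κ (Fl (κ.symm p) (t k)) = κ (Fl x (t k))
    rw [hsp]
  have h0 : Tendsto (fun k => ψ k p) atTop (𝓝 p) := by
    have h1 : Tendsto (fun k => κ (Fl x (t k))) atTop (𝓝 (κ x)) :=
      (continuousAt_extChartAt (I := 𝓘(ℝ, E)) x).tendsto.comp ht
    refine h1.congr fun k => (hψp k).symm
  have hsrc : ∀ᶠ k in atTop, Fl x (t k) ∈ κ.source :=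
    ht.eventually ((isOpen_extChartAt_source (I := 𝓘(ℝ, E)) x).mem_nhds hxs)
  set K : Set ℕ := {k | Fl x (t k) ∈ κ.source ∧ ψ k p ∈ ball p (ρ / 4)} with hK
  have hKev : ∀ᶠ k in atTop, k ∈ K :=
    hsrc.and (h0.eventually (ball_mem_nhds p (by positivity)))
  have hKball : ∀ k ∈ K, ψ k p ∈ ball p (ρ / 2) := fun k hk =>
    ball_subset_ball (by linarith) hk.2
  have hball2 : closedBall p (ρ / 2) ⊆ κ.target := (closedBall_subset_closedBall (by linarith)).trans hρ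
  -- the relation for small maps
  have hrel : ∀ g ∈ G, ∀ e : ℝ, Small E x (ρ / 2) e g → ∀ k ∈ K,
      Fl (g x) (t k) = g (κ.symm (ψ k p)) ∧ Fl (g x) (t k) ∈ κ.source := by
    intro g hg e hsm k hk
    have h1 : κ.symm (ψ k p) = Fl x (t k) := by rw [hψp]; exact κ.left_inv hk.1
    have h2 : g (κ.symm (ψ k p)) ∈ κ.source := (hsm _ (ball_subset_closedBall (hKball k hk))).1
    rw [h1] at h2 ⊢
    rw [hGc g hg] at h2
    rw [hGc g hg]
    exact ⟨rfl, h2⟩
  -- density of the small images, in the chart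
  have hdense : ∀ e : ℝ, 0 < e → ∃ r : ℝ, 0 < r ∧ ball p r ⊆ κ.target ∧ ∀ y ∈ ball p r,
      κ.symm y ∈ closure {z | ∃ h ∈ G, Small E x (ρ / 2) e h ∧ h x = z} := by
    intro e he
    set e' := min (e / 3) (min (ρ / 2) 1) with he'
    have he'0 : 0 < e' := by positivity
    have h1 := dense_small G hG x hx he'0 ((min_le_right _ _).trans (min_le_left _ _))
      ((min_le_right _ _).trans (min_le_right _ _)) hρ
    have h2 : ContinuousAt κ.symm p := continuousAt_extChartAt_symm x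
    have h3 : κ.symm ⁻¹' (closure {y | ∃ h ∈ G, Small E x (ρ / 2) (3 * e') h ∧ h x = y}) ∈ 𝓝 p := by
      apply h2.preimage_mem_nhds
      rw [hsp]
      exact h1
    obtain ⟨r, hr, hr'⟩ := Metric.mem_nhds_iff.1
      (inter_mem h3 ((isOpen_extChartAt_target x).mem_nhds hpt))
    refine ⟨r, hr, fun y hy => (hr' hy).2, fun y hy => ?_⟩
    have h4 := (hr' hy).1
    refine closure_mono ?_ h4
    rintro _ ⟨h, hh, hsm, rfl⟩
    refine ⟨h, hh, ?_, rfl⟩
    intro z hz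
    obtain ⟨a1, a2, a3⟩ := hsm z hz
    have h5 : 3 * e' ≤ e := by
      have : e' ≤ e / 3 := min_le_left _ _
      linarith
    exact ⟨a1, a2.trans h5, a3.trans h5⟩
  -- (a)
  have hD : Dense1 p (ρ / 2) ψ K := by
    intro e he
    obtain ⟨r, hr, hrt, hr'⟩ := hdense e he
    refine ⟨r, hr, fun y hy η hη => ?_⟩
    have hyt := hrt hy
    have hnb : {z | z ∈ κ.source ∧ ‖κ z - y‖ < η} ∈ 𝓝 (κ.symm y) := by
      have hs1 : κ.symm y ∈ κ.source := κ.map_target hyt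
      have hc : ContinuousAt (fun z => ‖κ z - y‖) (κ.symm y) :=
        ((continuousAt_extChartAt' (I := 𝓘(ℝ, E)) hs1).sub continuousAt_const).norm
      have hv0 : ‖κ (κ.symm y) - y‖ < η := by
        rw [κ.right_inv hyt, sub_self, norm_zero]; exact hη
      filter_upwards [(isOpen_extChartAt_source (I := 𝓘(ℝ, E)) x).mem_nhds hs1,
        hc.eventually (gt_mem_nhds hv0)] with z h1 h2
      exact ⟨h1, h2⟩
    obtain ⟨z, ⟨hz1, hz2⟩, h, hh, hsm, rfl⟩ := mem_closure_iff_nhds.1 (hr' y hy) _ hnb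
    have hpc : p ∈ closedBall p (ρ / 2) := mem_closedBall_self (by positivity)
    refine ⟨chx x h, ?_, ?_, ?_⟩
    · show ‖κ (h (κ.symm p)) - y‖ < η
      rw [hsp]; exact hz2
    · intro z hz
      have hz' := ball_subset_closedBall hz
      obtain ⟨a1, a2, a3⟩ := hsm z hz'
      exact ⟨differentiableAt_chx x (hball2 hz') ((hG h hh).mdifferentiableAt one_ne_zero) a1, a3⟩
    · intro k hk
      obtain ⟨b1, b2⟩ := hrel h hh e hsm k hk
      have hcp : chx x h p = κ (h x) := by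
        show κ (h (κ.symm p)) = κ (h x)
        rw [hsp]
      have hcs : κ.symm (chx x h p) = h x := by rw [hcp]; exact κ.left_inv hz1
      have hpk := ball_subset_closedBall (hKball k hk)
      -- pointwise relation near `p`
      have hev : (fun y => ψ k (chx x h y)) =ᶠ[𝓝 p] fun y => chx x h (ψ k y) := by
        have c1 : ContinuousAt (fun y => h (κ.symm y)) p :=
          (hG h hh).continuous.continuousAt.comp (continuousAt_extChartAt_symm x)
        have c2 : ContinuousAt (fun y => Fl (κ.symm y) (t k)) p :=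
          (hφs k).continuous.continuousAt.comp (continuousAt_extChartAt_symm x)
        have n1 : ∀ᶠ y in 𝓝 p, h (κ.symm y) ∈ κ.source := by
          apply c1.eventually ((isOpen_extChartAt_source (I := 𝓘(ℝ, E)) x).mem_nhds _)
          show h (κ.symm p) ∈ κ.source
          rw [hsp]; exact hz1
        have n2 : ∀ᶠ y in 𝓝 p, Fl (κ.symm y) (t k) ∈ κ.source := by
          apply c2.eventually ((isOpen_extChartAt_source (I := 𝓘(ℝ, E)) x).mem_nhds _)
          show Fl (κ.symm p) (t k) ∈ κ.source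
          rw [hsp]; exact hk.1
        filter_upwards [n1, n2] with y h1 h2
        show κ (Fl (κ.symm (κ (h (κ.symm y)))) (t k)) = κ (h (κ.symm (κ (Fl (κ.symm y) (t k)))))
        rw [κ.left_inv h1, κ.left_inv h2, hGc h hh]
      refine ⟨hev.eq_of_nhds, ?_⟩
      have d1 : DifferentiableAt ℝ (ψ k) (chx x h p) := by
        refine differentiableAt_chx x ?_ ((hφs k).mdifferentiableAt (by simp)) ?_
        · rw [hcp]; exact κ.map_source hz1
        · rw [hcs]; exact b2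
      have d2 : DifferentiableAt ℝ (chx x h) p :=
        differentiableAt_chx x hpt ((hG h hh).mdifferentiableAt one_ne_zero) (by rw [hsp]; exact hz1)
      have d3 : DifferentiableAt ℝ (chx x h) (ψ k p) :=
        differentiableAt_chx x (hball2 hpk) ((hG h hh).mdifferentiableAt one_ne_zero)
          (hsm _ hpk).1
      have d4 : DifferentiableAt ℝ (ψ k) p :=
        differentiableAt_chx x hpt ((hφs k).mdifferentiableAt (by simp)) (by rw [hsp]; exact hk.1)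
      have f1 := fderiv_comp p d1 d2
      have f2 := fderiv_comp p d3 d4
      rw [← f1, ← f2]
      exact hev.fderiv_eq
  -- (b)
  have hin : ∃ r : ℝ, 0 < r ∧ ball p r ⊆ κ.target ∧ ∀ᶠ k in atTop, ∀ y ∈ ball p r,
      φ k (κ.symm y) ∈ κ.source := by
    obtain ⟨r, hr, hrt, hr'⟩ := hdense (ρ / 4) (by positivity)
    refine ⟨r, hr, hrt, ?_⟩
    filter_upwards [hKev] with k hk y hy
    have : ProperSpace E := FiniteDimensional.proper ℝ E
    have hC : IsClosed (κ.symm '' closedBall p ρ) := by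
      apply IsCompact.isClosed
      apply (isCompact_closedBall p ρ).image_of_continuousOn
      exact (continuousOn_extChartAt_symm x).mono hρ
    have hCs : κ.symm '' closedBall p ρ ⊆ κ.source := by
      rintro _ ⟨z, hz, rfl⟩
      exact κ.map_target (hρ hz)
    apply hCs
    have h1 : IsClosed {z | φ k z ∈ κ.symm '' closedBall p ρ} := hC.preimage (hφs k).continuous
    have h2 : {z | ∃ h ∈ G, Small E x (ρ / 2) (ρ / 4) h ∧ h x = z} ⊆
        {z | φ k z ∈ κ.symm '' closedBall p ρ} := by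
      rintro _ ⟨h, hh, hsm, rfl⟩
      obtain ⟨b1, b2⟩ := hrel h hh _ hsm k hk
      have hpk := ball_subset_closedBall (hKball k hk)
      obtain ⟨a1, a2, a3⟩ := hsm _ hpk
      refine ⟨κ (h (κ.symm (ψ k p))), ?_, ?_⟩
      · rw [mem_closedBall, dist_eq_norm]
        have e1 : κ (h (κ.symm (ψ k p))) - p = (κ (h (κ.symm (ψ k p))) - ψ k p) + (ψ k p - p) := by
          abel
        rw [e1]
        have e2 : ‖ψ k p - p‖ < ρ / 4 := by
          have := hk.2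
          rwa [mem_ball, dist_eq_norm] at this
        exact (norm_add_le _ _).trans (by linarith)
      · show κ.symm (κ (h (κ.symm (ψ k p)))) = Fl (h x) (t k)
        rw [← b1]
        exact κ.left_inv b2
    exact (closure_minimal h2 h1) (hr' y hy)
  obtain ⟨r₁, hr₁, hr₁t, hr₁'⟩ := hin
  have hd : ∃ r : ℝ, 0 < r ∧ ∀ᶠ k in atTop, ∀ y ∈ ball p r, ContDiffAt ℝ 1 (ψ k) y := by
    refine ⟨r₁, hr₁, ?_⟩
    filter_upwards [hr₁'] with k hk y hy
    have hyt := hr₁t hy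
    have h1 := hk y hy
    rw [← contMDiffAt_iff_contDiffAt]
    have h2 : ContMDiffAt 𝓘(ℝ, E) 𝓘(ℝ, E) 1 κ.symm y :=
      ((contMDiffOn_extChartAt_symm (n := ∞) x).contMDiffAt
        ((isOpen_extChartAt_target x).mem_nhds hyt)).of_le (by simp)
    have h3 : ContMDiffAt 𝓘(ℝ, E) 𝓘(ℝ, E) 1 κ (φ k (κ.symm y)) := by
      rw [hκ, extChartAt_source] at h1
      exact contMDiffAt_extChartAt' h1
    exact ContMDiffAt.comp (g := κ) y h3 ((((hφs k).of_le (by simp)) _).comp y h2)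
  have hnear : Near p ψ := hD.near (by positivity) hKev h0 hd
  -- (c)
  have hpres : ∃ r : ℝ, 0 < r ∧ ∀ᶠ k in atTop, ∀ y ∈ ball p r, ∀ ζ,
      chartForm 𝓘(ℝ, E) β x (ψ k y) (fderiv ℝ (ψ k) y ζ) = chartForm 𝓘(ℝ, E) β x y ζ := by
    refine ⟨r₁, hr₁, ?_⟩
    filter_upwards [hr₁'] with k hk y hy ζ
    have h1 := chartForm_chx (β := β) x ζ (hr₁t hy)
      ((hφs k).mdifferentiableAt (by simp) (x := κ.symm y)) (hk y hy)
    refine h1.trans ?_
    exact hF.strict (t k) (κ.symm y) _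
  have ha : ContDiffAt ℝ 1 (chartForm 𝓘(ℝ, E) β x) p :=
    ((contDiffOn_chartForm hβ x).contDiffAt
      ((isOpen_extChartAt_target x).mem_nhds hpt)).of_le (by simp)
  have hvψ : Tendsto (fun k => (s k)⁻¹ • (ψ k p - p)) atTop (𝓝 v) := by
    refine hv.congr fun k => ?_
    rw [hψp]
  obtain ⟨r, hr, hfin⟩ := hnear.action h0 ha hpres hs hvψ hε
  -- (d)
  refine ⟨r, hr, fun g hg hgs hgb => ?_⟩
  set y := κ (g x) with hy
  have hcg : chx x g p = y := by
    show κ (g (κ.symm p)) = κ (g x)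
    rw [hsp]
  have hdg : DifferentiableAt ℝ (chx x g) p :=
    differentiableAt_chx x hpt ((hG g hg).mdifferentiableAt one_ne_zero) (by rw [hsp]; exact hgs)
  -- limit of the displacement at `g x`
  have hlim : Tendsto (fun k => (s k)⁻¹ • (ψ k y - y)) atTop (𝓝 (fderiv ℝ (chx x g) p v)) := by
    have h1 : Tendsto (fun k => ψ k p - p) atTop (𝓝 0) := by
      have h3 := h0.sub_const p
      rwa [sub_self] at h3
    have h2 := (hasFDerivWithinAt_univ.2 hdg.hasFDerivAt).lim h1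
      (Eventually.of_forall fun _ => mem_univ _) hvψ
    refine h2.congr' ?_
    filter_upwards [hKev] with k hk
    have h3 : κ.symm (ψ k p) = Fl x (t k) := by rw [hψp]; exact κ.left_inv hk.1
    have h4 : chx x g (p + (ψ k p - p)) = ψ k y := by
      rw [add_sub_cancel]
      show κ (g (κ.symm (ψ k p))) = κ (Fl (κ.symm (κ (g x))) (t k))
      rw [h3, κ.left_inv hgs, hGc g hg]
    rw [h4, hcg]
  have ha1 : Tendsto (fun k => (s k)⁻¹ * chartForm 𝓘(ℝ, E) β x y (ψ k y - y)) atTop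
      (𝓝 (chartForm 𝓘(ℝ, E) β x y (fderiv ℝ (chx x g) p v))) := by
    have h1 := ((chartForm 𝓘(ℝ, E) β x y).continuous.tendsto _).comp hlim
    refine h1.congr fun k => ?_
    simp only [Function.comp_apply, map_smul, smul_eq_mul]
  have ha2 : Tendsto (fun k => (s k)⁻¹ * chartForm 𝓘(ℝ, E) β x p (ψ k p - p)) atTop
      (𝓝 (chartForm 𝓘(ℝ, E) β x p v)) := by
    have h1 := ((chartForm 𝓘(ℝ, E) β x p).continuous.tendsto _).comp hvψ
    refine h1.congr fun k => ?_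
    simp only [Function.comp_apply, map_smul, smul_eq_mul]
  have hl := ((ha1.sub ha2).add_const (fderiv ℝ (chartForm 𝓘(ℝ, E) β x) p v (y - p) -
      fderiv ℝ (chartForm 𝓘(ℝ, E) β x) p (y - p) v)).abs
  have hle := le_of_tendsto hl (hfin.mono fun k hk => hk y hgb)
  have hself : ∀ w : E, (mfderiv 𝓘(ℝ, E) 𝓘(ℝ, E) κ.symm p w : E) = w :=
    fun w => mfderiv_extChartAt_symm_self x w
  have e1 : chartForm 𝓘(ℝ, E) β x y (fderiv ℝ (chx x g) p v) =
      β (g x) (mfderiv 𝓘(ℝ, E) 𝓘(ℝ, E) g x v) := by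
    have h1 := chartForm_chx (β := β) x v hpt
      ((hG g hg).mdifferentiableAt one_ne_zero (x := κ.symm p)) (by rw [hsp]; exact hgs)
    rw [hcg] at h1
    refine h1.trans ?_
    have h2 : ∀ (z : M), z = x → ∀ a b : E, a = b →
        β (g z) (mfderiv 𝓘(ℝ, E) 𝓘(ℝ, E) g z a) = β (g x) (mfderiv 𝓘(ℝ, E) 𝓘(ℝ, E) g x b) := by
      rintro z rfl a b rfl; rfl
    exact h2 _ hsp _ _ (hself v)
  have e2 : chartForm 𝓘(ℝ, E) β x p v = β x v := by
    have h2 : ∀ (z : M), z = x → ∀ a b : E, a = b → β z a = β x b := by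
      rintro z rfl a b rfl; rfl
    exact h2 _ hsp _ _ (hself v)
  rw [e1, e2] at hle
  exact hle

end Pool.Agent.J4H20.HT
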