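import Mathlib
import Pool.Agent.J4H20.HT.Core

/-! Maps commuting with a group with a nonmeager orbit are near translations. -/

open scoped Topology ContDiff Manifold
open Set Metric Bundle Filter Pool.Agent.Helper186

noncomputable section

namespace Pool.Agent.J4H20.HT

set_option linter.unusedSectionVars false

variable {E : Type*} [NormedAddCommGroup E] [NormedSpace ℝ E]
  {M : Type*} [TopologicalSpace M] [ChartedSpace E M] [IsManifold 𝓘(ℝ, E) ∞ M]
  [FiniteDimensional ℝ E]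

theorem near_of_nonmeagre [T2Space M] [CompactSpace M]
    (G : Subgroup (Equiv.Perm M)) (hG : ∀ g ∈ G, ContMDiff 𝓘(ℝ, E) 𝓘(ℝ, E) 1 g)
    (φ : ℕ → M → M) (hφs : ∀ k, ContMDiff 𝓘(ℝ, E) 𝓘(ℝ, E) 1 (φ k))
    (hGc : ∀ g ∈ G, ∀ k z, g (φ k z) = φ k (g z))
    (x : M) (hx : ¬ IsMeagre {y | ∃ g ∈ G, g x = y})
    (ht : Tendsto (fun k => φ k x) atTop (𝓝 x)) :
    Near (extChartAt 𝓘(ℝ, E) x x) (fun k => chx x (φ k)) ∧ ∃ r : ℝ, 0 < r ∧
      ball (extChartAt 𝓘(ℝ, E) x x) r ⊆ (extChartAt 𝓘(ℝ, E) x).target ∧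
      ∀ᶠ k in atTop, ∀ y ∈ ball (extChartAt 𝓘(ℝ, E) x x) r,
        φ k ((extChartAt 𝓘(ℝ, E) x).symm y) ∈ (extChartAt 𝓘(ℝ, E) x).source := by
  have := secondCountable_tangent (E := E) (M := M)
  have := locallyCompact_tangent (E := E) (M := M)
  set κ := extChartAt 𝓘(ℝ, E) x with hκ
  set p := κ x with hp
  set ψ : ℕ → E → E := fun k => chx x (φ k) with hψ
  have hxs : x ∈ κ.source := mem_extChartAt_source x
  have hpt : p ∈ κ.target := mem_extChartAt_target x
  have hsp : κ.symm p = x := κ.left_inv hxs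
  -- a ball in the chart
  obtain ⟨ρ, hρ0, hρ⟩ : ∃ ρ > 0, closedBall p ρ ⊆ κ.target :=
    nhds_basis_closedBall.mem_iff.1 ((isOpen_extChartAt_target x).mem_nhds hpt)
  have hψp : ∀ k, ψ k p = κ (φ k x) := by
    intro k
    show κ (φ k (κ.symm p)) = κ (φ k x)
    rw [hsp]
  have h0 : Tendsto (fun k => ψ k p) atTop (𝓝 p) := by
    have h1 : Tendsto (fun k => κ (φ k x)) atTop (𝓝 (κ x)) :=
      (continuousAt_extChartAt (I := 𝓘(ℝ, E)) x).tendsto.comp ht
    refine h1.congr fun k => (hψp k).symm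
  have hsrc : ∀ᶠ k in atTop, φ k x ∈ κ.source :=
    ht.eventually ((isOpen_extChartAt_source (I := 𝓘(ℝ, E)) x).mem_nhds hxs)
  set K : Set ℕ := {k | φ k x ∈ κ.source ∧ ψ k p ∈ ball p (ρ / 4)} with hK
  have hKev : ∀ᶠ k in atTop, k ∈ K :=
    hsrc.and (h0.eventually (ball_mem_nhds p (by positivity)))
  have hKball : ∀ k ∈ K, ψ k p ∈ ball p (ρ / 2) := fun k hk =>
    ball_subset_ball (by linarith) hk.2
  have hball2 : closedBall p (ρ / 2) ⊆ κ.target := (closedBall_subset_closedBall (by linarith)).trans hρ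
  -- the relation for small maps
  have hrel : ∀ g ∈ G, ∀ e : ℝ, Small E x (ρ / 2) e g → ∀ k ∈ K,
      φ k (g x) = g (κ.symm (ψ k p)) ∧ φ k (g x) ∈ κ.source := by
    intro g hg e hsm k hk
    have h1 : κ.symm (ψ k p) = φ k x := by rw [hψp]; exact κ.left_inv hk.1
    have h2 : g (κ.symm (ψ k p)) ∈ κ.source := (hsm _ (ball_subset_closedBall (hKball k hk))).1
    rw [h1] at h2 ⊢
    rw [hGc g hg] at h2
    rw [hGc g hg]
    exact ⟨rfl, h2⟩
  -- density of the small images, in the chart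
  have hdense : ∀ e : ℝ, 0 < e → ∃ r : ℝ, 0 < r ∧ ball p r ⊆ κ.target ∧ ∀ y ∈ ball p r,
      κ.symm y ∈ closure {z | ∃ h ∈ G, Small E x (ρ / 2) e h ∧ h x = z} := by
    intro e he
    set e' := min (e / 3) (min (ρ / 2) 1) with he'
    have he'0 : 0 < e' := by positivity
    have h1 := dense_small G hG x hx he'0 ((min_le_right _ _).trans (min_le_left _ _))
      ((min_le_right _ _).trans (min_le_right _ _)) hρ
    have h2 : ContinuousAt κ.symm p := continuousAt_extChartAt_symm x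
    have h3 : κ.symm ⁻¹' (closure {y | ∃ h ∈ G, Small E x (ρ / 2) (3 * e') h ∧ h x = y}) ∈ 𝓝 p := by
      apply h2.preimage_mem_nhds
      rw [hsp]
      exact h1
    obtain ⟨r, hr, hr'⟩ := Metric.mem_nhds_iff.1
      (inter_mem h3 ((isOpen_extChartAt_target x).mem_nhds hpt))
    refine ⟨r, hr, fun y hy => (hr' hy).2, fun y hy => ?_⟩
    have h4 := (hr' hy).1
    refine closure_mono ?_ h4
    rintro _ ⟨h, hh, hsm, rfl⟩
    refine ⟨h, hh, ?_, rfl⟩
    intro z hz
    obtain ⟨a1, a2, a3⟩ := hsm z hz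
    have h5 : 3 * e' ≤ e := by
      have : e' ≤ e / 3 := min_le_left _ _
      linarith
    exact ⟨a1, a2.trans h5, a3.trans h5⟩
  -- (a)
  have hD : Dense1 p (ρ / 2) ψ K := by
    intro e he
    obtain ⟨r, hr, hrt, hr'⟩ := hdense e he
    refine ⟨r, hr, fun y hy η hη => ?_⟩
    have hyt := hrt hy
    have hnb : {z | z ∈ κ.source ∧ ‖κ z - y‖ < η} ∈ 𝓝 (κ.symm y) := by
      have hs1 : κ.symm y ∈ κ.source := κ.map_target hyt
      have hc : ContinuousAt (fun z => ‖κ z - y‖) (κ.symm y) :=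
        ((continuousAt_extChartAt' (I := 𝓘(ℝ, E)) hs1).sub continuousAt_const).norm
      have hv0 : ‖κ (κ.symm y) - y‖ < η := by
        rw [κ.right_inv hyt, sub_self, norm_zero]; exact hη
      filter_upwards [(isOpen_extChartAt_source (I := 𝓘(ℝ, E)) x).mem_nhds hs1,
        hc.eventually (gt_mem_nhds hv0)] with z h1 h2
      exact ⟨h1, h2⟩
    obtain ⟨z, ⟨hz1, hz2⟩, h, hh, hsm, rfl⟩ := mem_closure_iff_nhds.1 (hr' y hy) _ hnb
    have hpc : p ∈ closedBall p (ρ / 2) := mem_closedBall_self (by positivity)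
    refine ⟨chx x h, ?_, ?_, ?_⟩
    · show ‖κ (h (κ.symm p)) - y‖ < η
      rw [hsp]; exact hz2
    · intro z hz
      have hz' := ball_subset_closedBall hz
      obtain ⟨a1, a2, a3⟩ := hsm z hz'
      exact ⟨differentiableAt_chx x (hball2 hz') ((hG h hh).mdifferentiableAt one_ne_zero) a1, a3⟩
    · intro k hk
      obtain ⟨b1, b2⟩ := hrel h hh e hsm k hk
      have hcp : chx x h p = κ (h x) := by
        show κ (h (κ.symm p)) = κ (h x)
        rw [hsp]
      have hcs : κ.symm (chx x h p) = h x := by rw [hcp]; exact κ.left_inv hz1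
      have hpk := ball_subset_closedBall (hKball k hk)
      -- pointwise relation near `p`
      have hev : (fun y => ψ k (chx x h y)) =ᶠ[𝓝 p] fun y => chx x h (ψ k y) := by
        have c1 : ContinuousAt (fun y => h (κ.symm y)) p :=
          (hG h hh).continuous.continuousAt.comp (continuousAt_extChartAt_symm x)
        have c2 : ContinuousAt (fun y => φ k (κ.symm y)) p :=
          (hφs k).continuous.continuousAt.comp (continuousAt_extChartAt_symm x)
        have n1 : ∀ᶠ y in 𝓝 p, h (κ.symm y) ∈ κ.source := by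
          apply c1.eventually ((isOpen_extChartAt_source (I := 𝓘(ℝ, E)) x).mem_nhds _)
          show h (κ.symm p) ∈ κ.source
          rw [hsp]; exact hz1
        have n2 : ∀ᶠ y in 𝓝 p, φ k (κ.symm y) ∈ κ.source := by
          apply c2.eventually ((isOpen_extChartAt_source (I := 𝓘(ℝ, E)) x).mem_nhds _)
          show φ k (κ.symm p) ∈ κ.source
          rw [hsp]; exact hk.1
        filter_upwards [n1, n2] with y h1 h2
        show κ (φ k (κ.symm (κ (h (κ.symm y))))) = κ (h (κ.symm (κ (φ k (κ.symm y)))))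
        rw [κ.left_inv h1, κ.left_inv h2, hGc h hh]
      refine ⟨hev.eq_of_nhds, ?_⟩
      have d1 : DifferentiableAt ℝ (ψ k) (chx x h p) := by
        refine differentiableAt_chx x ?_ ((hφs k).mdifferentiableAt one_ne_zero) ?_
        · rw [hcp]; exact κ.map_source hz1
        · rw [hcs]; exact b2
      have d2 : DifferentiableAt ℝ (chx x h) p :=
        differentiableAt_chx x hpt ((hG h hh).mdifferentiableAt one_ne_zero) (by rw [hsp]; exact hz1)
      have d3 : DifferentiableAt ℝ (chx x h) (ψ k p) :=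
        differentiableAt_chx x (hball2 hpk) ((hG h hh).mdifferentiableAt one_ne_zero)
          (hsm _ hpk).1
      have d4 : DifferentiableAt ℝ (ψ k) p :=
        differentiableAt_chx x hpt ((hφs k).mdifferentiableAt one_ne_zero)
          (by rw [hsp]; exact hk.1)
      have f1 := fderiv_comp p d1 d2
      have f2 := fderiv_comp p d3 d4
      rw [← f1, ← f2]
      exact hev.fderiv_eq
  -- (b)
  have hin : ∃ r : ℝ, 0 < r ∧ ball p r ⊆ κ.target ∧ ∀ᶠ k in atTop, ∀ y ∈ ball p r,
      φ k (κ.symm y) ∈ κ.source := by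
    obtain ⟨r, hr, hrt, hr'⟩ := hdense (ρ / 4) (by positivity)
    refine ⟨r, hr, hrt, ?_⟩
    filter_upwards [hKev] with k hk y hy
    have : ProperSpace E := FiniteDimensional.proper ℝ E
    have hC : IsClosed (κ.symm '' closedBall p ρ) := by
      apply IsCompact.isClosed
      apply (isCompact_closedBall p ρ).image_of_continuousOn
      exact (continuousOn_extChartAt_symm x).mono hρ
    have hCs : κ.symm '' closedBall p ρ ⊆ κ.source := by
      rintro _ ⟨z, hz, rfl⟩
      exact κ.map_target (hρ hz)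
    apply hCs
    have h1 : IsClosed {z | φ k z ∈ κ.symm '' closedBall p ρ} := hC.preimage (hφs k).continuous
    have h2 : {z | ∃ h ∈ G, Small E x (ρ / 2) (ρ / 4) h ∧ h x = z} ⊆
        {z | φ k z ∈ κ.symm '' closedBall p ρ} := by
      rintro _ ⟨h, hh, hsm, rfl⟩
      obtain ⟨b1, b2⟩ := hrel h hh _ hsm k hk
      have hpk := ball_subset_closedBall (hKball k hk)
      obtain ⟨a1, a2, a3⟩ := hsm _ hpk
      refine ⟨κ (h (κ.symm (ψ k p))), ?_, ?_⟩
      · rw [mem_closedBall, dist_eq_norm]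
        have e1 : κ (h (κ.symm (ψ k p))) - p = (κ (h (κ.symm (ψ k p))) - ψ k p) + (ψ k p - p) := by
          abel
        rw [e1]
        have e2 : ‖ψ k p - p‖ < ρ / 4 := by
          have := hk.2
          rwa [mem_ball, dist_eq_norm] at this
        exact (norm_add_le _ _).trans (by linarith)
      · show κ.symm (κ (h (κ.symm (ψ k p)))) = φ k (h x)
        rw [← b1]
        exact κ.left_inv b2
    exact (closure_minimal h2 h1) (hr' y hy)
  obtain ⟨r₁, hr₁, hr₁t, hr₁'⟩ := hin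
  have hd : ∃ r : ℝ, 0 < r ∧ ∀ᶠ k in atTop, ∀ y ∈ ball p r, ContDiffAt ℝ 1 (ψ k) y := by
    refine ⟨r₁, hr₁, ?_⟩
    filter_upwards [hr₁'] with k hk y hy
    have hyt := hr₁t hy
    have h1 := hk y hy
    rw [← contMDiffAt_iff_contDiffAt]
    have h2 : ContMDiffAt 𝓘(ℝ, E) 𝓘(ℝ, E) 1 κ.symm y :=
      ((contMDiffOn_extChartAt_symm (n := ∞) x).contMDiffAt
        ((isOpen_extChartAt_target x).mem_nhds hyt)).of_le (by simp)
    have h3 : ContMDiffAt 𝓘(ℝ, E) 𝓘(ℝ, E) 1 κ (φ k (κ.symm y)) := by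
      rw [hκ, extChartAt_source] at h1
      exact contMDiffAt_extChartAt' h1
    exact ContMDiffAt.comp (g := κ) y h3 ((hφs k _).comp y h2)
  exact ⟨hD.near (by positivity) hKev h0 hd, r₁, hr₁, hr₁t, hr₁'⟩

end Pool.Agent.J4H20.HT
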