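import Mathlib
import Pool.Agent.J4H20.HT.Core
import Pool.Agent.R774.Root1

/-! The volume density of a contact form and its invariance. -/

open scoped Topology ContDiff Manifold
open Set Metric Bundle Filter MeasureTheory Pool.Agent.Helper186 Pool.Agent.H826R2.Wein
  Pool.Agent.W671.WU Pool.Agent.R774.Root

noncomputable section

namespace Pool.Agent.J4H20.HT

set_option linter.unusedSectionVars false

section Gram

variable {ι E : Type*} [Fintype ι] [DecidableEq ι] [NormedAddCommGroup E] [NormedSpace ℝ E]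

/-- Gram determinant of a bilinear form. -/
def gram (B : E →L[ℝ] E →L[ℝ] ℝ) (v : ι → E) : ℝ :=
  (Matrix.of fun i j => B (v i) (v j)).det

lemma gram_comp (B : E →L[ℝ] E →L[ℝ] ℝ) (b : Module.Basis ι ℝ E) (L : E →ₗ[ℝ] E) :
    gram B (fun i => L (b i)) = (LinearMap.det L) ^ 2 * gram B b := by
  have h : (Matrix.of fun i j => B (L (b i)) (L (b j))) =
      (LinearMap.toMatrix b b L).transpose * (Matrix.of fun i j => B (b i) (b j)) *
        (LinearMap.toMatrix b b L) := by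
    ext i j
    have h1 : ∀ i, L (b i) = ∑ k, (LinearMap.toMatrix b b L) k i • b k := by
      intro i
      simp only [LinearMap.toMatrix_apply]
      exact (b.sum_repr (L (b i))).symm
    have h2 : B (L (b i)) (L (b j)) = ∑ l, ∑ k, (LinearMap.toMatrix b b L) l j *
        ((LinearMap.toMatrix b b L) k i * B (b k) (b l)) := by
      rw [h1 j, map_sum]
      refine Finset.sum_congr rfl fun l _ => ?_
      rw [map_smul, smul_eq_mul, h1 i, map_sum, _root_.sum_apply, Finset.mul_sum]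
      refine Finset.sum_congr rfl fun k _ => ?_
      rw [map_smul, _root_.smul_apply, smul_eq_mul]
    simp only [Matrix.of_apply, Matrix.mul_apply, Matrix.transpose_apply]
    rw [h2]
    refine Finset.sum_congr rfl fun l _ => ?_
    rw [Finset.sum_mul]
    refine Finset.sum_congr rfl fun k _ => ?_
    ring
  unfold gram
  rw [h, Matrix.det_mul, Matrix.det_mul, Matrix.det_transpose, LinearMap.det_toMatrix]
  ring

lemma gram_ne_zero (B : E →L[ℝ] E →L[ℝ] ℝ) (b : Module.Basis ι ℝ E)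
    (h : ∀ u, (∀ v, B u v = 0) → u = 0) : gram B b ≠ 0 := by
  intro h0
  obtain ⟨a, ha, ha'⟩ := Matrix.exists_vecMul_eq_zero_iff.2 h0
  apply ha
  have h1 : ∀ j, B (∑ i, a i • b i) (b j) = 0 := by
    intro j
    have h2 := congrFun ha' j
    rw [Pi.zero_apply] at h2
    rw [← h2, map_sum, _root_.sum_apply]
    unfold Matrix.vecMul dotProduct
    refine Finset.sum_congr rfl fun i _ => ?_
    rw [map_smul, _root_.smul_apply, smul_eq_mul]
    rfl
  have h3 : (∑ i, a i • b i) = 0 := by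
    apply h
    intro v
    rw [← b.sum_repr v, map_sum]
    refine Finset.sum_eq_zero fun j _ => ?_
    rw [map_smul, h1 j, smul_zero]
  have h4 := (Fintype.linearIndependent_iff.1 b.linearIndependent) a h3
  funext i
  exact h4 i

end Gram

variable {E : Type*} [NormedAddCommGroup E] [NormedSpace ℝ E]
  {M : Type*} [TopologicalSpace M] [ChartedSpace E M] [IsManifold 𝓘(ℝ, E) ∞ M]

/-- the expression of `F` in the charts at `x` and `x'` -/
def tr (x x' : M) (F : M → M) (y : E) : E :=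
  extChartAt 𝓘(ℝ, E) x' (F ((extChartAt 𝓘(ℝ, E) x).symm y))

lemma differentiableAt_tr (x x' : M) {F : M → M} {y : E}
    (hy : y ∈ (extChartAt 𝓘(ℝ, E) x).target)
    (hF : MDifferentiableAt 𝓘(ℝ, E) 𝓘(ℝ, E) F ((extChartAt 𝓘(ℝ, E) x).symm y))
    (hs : F ((extChartAt 𝓘(ℝ, E) x).symm y) ∈ (extChartAt 𝓘(ℝ, E) x').source) :
    DifferentiableAt ℝ (tr x x' F) y := by
  rw [← mdifferentiableAt_iff_differentiableAt]
  exact (mdiff_chart x' hs).comp y (hF.comp y (mdiff_symm x hy))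

lemma jj_tr (x x' : M) {F : M → M} {y : E} (ζ : E)
    (hy : y ∈ (extChartAt 𝓘(ℝ, E) x).target)
    (hF : MDifferentiableAt 𝓘(ℝ, E) 𝓘(ℝ, E) F ((extChartAt 𝓘(ℝ, E) x).symm y))
    (hs : F ((extChartAt 𝓘(ℝ, E) x).symm y) ∈ (extChartAt 𝓘(ℝ, E) x').source) :
    jj x' (tr x x' F y, fderiv ℝ (tr x x' F) y ζ) = tangentMap 𝓘(ℝ, E) 𝓘(ℝ, E) F (jj x (y, ζ)) := by
  have hd := differentiableAt_tr x x' hy hF hs
  have ht : tr x x' F y ∈ (extChartAt 𝓘(ℝ, E) x').target := (extChartAt 𝓘(ℝ, E) x').map_source hs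
  have e1 : tangentMap 𝓘(ℝ, E) 𝓘(ℝ, E) ((extChartAt 𝓘(ℝ, E) x').symm ∘ tr x x' F)
      (⟨y, ζ⟩ : TangentBundle 𝓘(ℝ, E) E) =
      tangentMap 𝓘(ℝ, E) 𝓘(ℝ, E) (extChartAt 𝓘(ℝ, E) x').symm
        (tangentMap 𝓘(ℝ, E) 𝓘(ℝ, E) (tr x x' F) ⟨y, ζ⟩) := by
    apply tangentMap_comp_at
    · exact mdiff_symm x' ht
    · exact mdifferentiableAt_iff_differentiableAt.2 hd
  have e2 : tangentMap 𝓘(ℝ, E) 𝓘(ℝ, E) (F ∘ (extChartAt 𝓘(ℝ, E) x).symm)
      (⟨y, ζ⟩ : TangentBundle 𝓘(ℝ, E) E) =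
      tangentMap 𝓘(ℝ, E) 𝓘(ℝ, E) F
        (tangentMap 𝓘(ℝ, E) 𝓘(ℝ, E) (extChartAt 𝓘(ℝ, E) x).symm ⟨y, ζ⟩) := by
    apply tangentMap_comp_at
    · exact hF
    · exact mdiff_symm x hy
  have hev : ((extChartAt 𝓘(ℝ, E) x').symm ∘ tr x x' F) =ᶠ[𝓝 y]
      (F ∘ (extChartAt 𝓘(ℝ, E) x).symm) := by
    have hc : ContinuousAt (fun y => F ((extChartAt 𝓘(ℝ, E) x).symm y)) y :=
      (hF.comp y (mdiff_symm x hy)).continuousAt
    filter_upwards [hc.eventually ((isOpen_extChartAt_source (I := 𝓘(ℝ, E)) x').mem_nhds hs)]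
      with z hz
    exact (extChartAt 𝓘(ℝ, E) x').left_inv hz
  have e3 := tangentMap_congr_of_eventuallyEq (J := 𝓘(ℝ, E)) (I := 𝓘(ℝ, E))
    (v := (⟨y, ζ⟩ : TangentBundle 𝓘(ℝ, E) E)) hev
  have e4 : tangentMap 𝓘(ℝ, E) 𝓘(ℝ, E) (tr x x' F) (⟨y, ζ⟩ : TangentBundle 𝓘(ℝ, E) E) =
      (⟨tr x x' F y, fderiv ℝ (tr x x' F) y ζ⟩ : TangentBundle 𝓘(ℝ, E) E) := by
    simp only [tangentMap, mfderiv_eq_fderiv]
    rfl
  rw [e4] at e1
  unfold jj
  rw [← e1, e3, e2]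

variable {β : (x : M) → TangentSpace 𝓘(ℝ, E) x →L[ℝ] ℝ}
    {R : (x : M) → TangentSpace 𝓘(ℝ, E) x} {Fl : M → ℝ → M}

/-- the bilinear form `β ⊗ β + dβ` in the chart at `x` -/
def BC (β : (x : M) → TangentSpace 𝓘(ℝ, E) x →L[ℝ] ℝ) (x : M) (y : E) : E →L[ℝ] E →L[ℝ] ℝ :=
  (chartForm 𝓘(ℝ, E) β x y).smulRight (chartForm 𝓘(ℝ, E) β x y) +
    (fderiv ℝ (chartForm 𝓘(ℝ, E) β x) y - (fderiv ℝ (chartForm 𝓘(ℝ, E) β x) y).flip)

lemma BC_apply (x : M) (y u v : E) : BC β x y u v =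
    chartForm 𝓘(ℝ, E) β x y u * chartForm 𝓘(ℝ, E) β x y v +
      (fderiv ℝ (chartForm 𝓘(ℝ, E) β x) y u v - fderiv ℝ (chartForm 𝓘(ℝ, E) β x) y v u) := rfl

variable [FiniteDimensional ℝ E]

lemma BC_eq (hβ : SmoothForm β) (x : M) {y : E} (hy : y ∈ (extChartAt 𝓘(ℝ, E) x).target) (u v : E) :
    BC β x y u v = HB β ((extChartAt 𝓘(ℝ, E) x).symm y)
      (mfderiv 𝓘(ℝ, E) 𝓘(ℝ, E) (extChartAt 𝓘(ℝ, E) x).symm y u)
      (mfderiv 𝓘(ℝ, E) 𝓘(ℝ, E) (extChartAt 𝓘(ℝ, E) x).symm y v) := by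
  rw [HB_apply, extDer_pullback hβ (isOpen_extChartAt_target x) (contMDiffOn_extChartAt_symm x) hy
    u v, BC_apply]
  have hd : DifferentiableAt ℝ (chartForm 𝓘(ℝ, E) β x) y :=
    ((contDiffOn_chartForm hβ x).contDiffAt
      ((isOpen_extChartAt_target x).mem_nhds hy)).differentiableAt (by simp)
  have h4 : ∀ c d : E, fderiv ℝ (fun q => β ((extChartAt 𝓘(ℝ, E) x).symm q)
      (mfderiv 𝓘(ℝ, E) 𝓘(ℝ, E) (extChartAt 𝓘(ℝ, E) x).symm q d)) y c =
      fderiv ℝ (chartForm 𝓘(ℝ, E) β x) y c d := by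
    intro c d
    have h5 : HasFDerivAt (fun q => chartForm 𝓘(ℝ, E) β x q d)
        ((ContinuousLinearMap.apply ℝ ℝ d).comp (fderiv ℝ (chartForm 𝓘(ℝ, E) β x) y)) y :=
      (ContinuousLinearMap.apply ℝ ℝ d).hasFDerivAt.comp y hd.hasFDerivAt
    have h6 := h5.fderiv
    change fderiv ℝ (fun q => chartForm 𝓘(ℝ, E) β x q d) y c = _
    rw [h6]
    rfl
  rw [h4, h4]
  rfl

lemma BC_tr (hβ : SmoothForm β) {g : M → M} (hg : St β g) (x x' : M) {y : E}
    (hy : y ∈ (extChartAt 𝓘(ℝ, E) x).target)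
    (hs : g ((extChartAt 𝓘(ℝ, E) x).symm y) ∈ (extChartAt 𝓘(ℝ, E) x').source) (u v : E) :
    BC β x y u v = BC β x' (tr x x' g y) (fderiv ℝ (tr x x' g) y u) (fderiv ℝ (tr x x' g) y v) := by
  have ht : tr x x' g y ∈ (extChartAt 𝓘(ℝ, E) x').target := (extChartAt 𝓘(ℝ, E) x').map_source hs
  rw [BC_eq hβ x hy, BC_eq hβ x' ht, ← hg.HB_push hβ]
  have hgd := hg.smooth.mdifferentiableAt (by simp) (x := (extChartAt 𝓘(ℝ, E) x).symm y)
  have h1 := jj_tr x x' u hy hgd hs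
  have h2 := jj_tr x x' v hy hgd hs
  have h3 : ∀ a a' b b' : TangentBundle 𝓘(ℝ, E) M, a = b → a' = b' →
      ∀ (z : M) (p p' : TangentSpace 𝓘(ℝ, E) z) (w : M) (q q' : TangentSpace 𝓘(ℝ, E) w),
      b = ⟨z, p⟩ → b' = ⟨z, p'⟩ → a = ⟨w, q⟩ → a' = ⟨w, q'⟩ → HB β z p p' = HB β w q q' := by
    rintro a a' b b' rfl rfl z p p' w q q' rfl rfl h4 h5
    have h6 : z = w := congrArg TotalSpace.proj h4
    subst h6
    have h7 := TotalSpace.mk.inj h4
    have h8 := TotalSpace.mk.inj h5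
    rw [eq_of_heq h7.2, eq_of_heq h8.2]
  exact h3 _ _ _ _ h1 h2 _ _ _ _ _ _ rfl rfl rfl rfl

/-- the volume density in the chart at `x` -/
def dens (b : Module.Basis (Fin (Module.finrank ℝ E)) ℝ E)
    (β : (x : M) → TangentSpace 𝓘(ℝ, E) x →L[ℝ] ℝ) (x : M) (y : E) : ENNReal :=
  ENNReal.ofReal (√|gram (BC β x y) b|)

lemma dens_tr (b : Module.Basis (Fin (Module.finrank ℝ E)) ℝ E)
    (hβ : SmoothForm β) {g : M → M} (hg : St β g) (x x' : M) {y : E}
    (hy : y ∈ (extChartAt 𝓘(ℝ, E) x).target)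
    (hs : g ((extChartAt 𝓘(ℝ, E) x).symm y) ∈ (extChartAt 𝓘(ℝ, E) x').source) :
    dens b β x y = ENNReal.ofReal |(fderiv ℝ (tr x x' g) y).det| * dens b β x' (tr x x' g y) := by
  unfold dens
  have h1 : gram (BC β x y) b = gram (BC β x' (tr x x' g y))
      (fun i => (fderiv ℝ (tr x x' g) y : E →ₗ[ℝ] E) (b i)) := by
    unfold gram
    congr 1
    ext i j
    exact BC_tr hβ hg x x' hy hs (b i) (b j)
  rw [h1, gram_comp, abs_mul, abs_of_nonneg (sq_nonneg (LinearMap.det _)),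
    Real.sqrt_mul (sq_nonneg _), Real.sqrt_sq_eq_abs, ENNReal.ofReal_mul (abs_nonneg _)]

lemma continuousOn_gram (hβ : SmoothForm β) (b : Module.Basis (Fin (Module.finrank ℝ E)) ℝ E)
    (x : M) : ContinuousOn (fun y => gram (BC β x y) b) (extChartAt 𝓘(ℝ, E) x).target := by
  have h1 : ContinuousOn (chartForm 𝓘(ℝ, E) β x) (extChartAt 𝓘(ℝ, E) x).target :=
    (contDiffOn_chartForm hβ x).continuousOn
  have h2 : ContinuousOn (fderiv ℝ (chartForm 𝓘(ℝ, E) β x)) (extChartAt 𝓘(ℝ, E) x).target :=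
    (contDiffOn_chartForm hβ x).continuousOn_fderiv_of_isOpen (isOpen_extChartAt_target x)
      (by simp)
  unfold gram
  have h3 : ∀ i j, ContinuousOn (fun y => BC β x y (b i) (b j)) (extChartAt 𝓘(ℝ, E) x).target := by
    intro i j
    simp only [BC_apply]
    exact ((h1.clm_apply continuousOn_const).mul (h1.clm_apply continuousOn_const)).add
      (((h2.clm_apply continuousOn_const).clm_apply continuousOn_const).sub
        ((h2.clm_apply continuousOn_const).clm_apply continuousOn_const))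
  simp only [Matrix.det_apply]
  refine continuousOn_finsetSum _ fun σ _ => ?_
  refine ContinuousOn.const_smul ?_ _
  refine continuousOn_finsetProd _ fun i _ => ?_
  exact h3 _ _

lemma continuousOn_dens (hβ : SmoothForm β) (b : Module.Basis (Fin (Module.finrank ℝ E)) ℝ E)
    (x : M) : ContinuousOn (dens b β x) (extChartAt 𝓘(ℝ, E) x).target :=
  ENNReal.continuous_ofReal.comp_continuousOn
    (Real.continuous_sqrt.comp_continuousOn (continuousOn_gram hβ b x).abs)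

lemma dens_ne_zero (c : CD β R) (b : Module.Basis (Fin (Module.finrank ℝ E)) ℝ E)
    (x : M) {y : E} (hy : y ∈ (extChartAt 𝓘(ℝ, E) x).target) : dens b β x y ≠ 0 := by
  have h1 : gram (BC β x y) b ≠ 0 := by
    apply gram_ne_zero
    intro u hu
    have hinv := isInvertible_mfderivWithin_extChartAt_symm (I := 𝓘(ℝ, E)) (x := x) hy
    rw [ModelWithCorners.range_eq_univ, mfderivWithin_univ] at hinv
    obtain ⟨L, hL⟩ := hinv
    have h2 : mfderiv 𝓘(ℝ, E) 𝓘(ℝ, E) (extChartAt 𝓘(ℝ, E) x).symm y u = 0 := by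
      apply HB_nondeg c.contact c.reeb
      intro w
      have h3 := hu (L.symm w)
      rw [BC_eq c.contact.smooth x hy, ← hL] at h3
      have h4 : (L : TangentSpace 𝓘(ℝ, E) y →L[ℝ]
          TangentSpace 𝓘(ℝ, E) ((extChartAt 𝓘(ℝ, E) x).symm y)) (L.symm w) = w :=
        L.apply_symm_apply w
      rw [← hL]
      exact (congrArg _ h4).symm.trans h3
    rw [← hL] at h2
    exact L.map_eq_zero_iff.1 h2
  unfold dens
  rw [Ne, ENNReal.ofReal_eq_zero, not_le]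
  exact Real.sqrt_pos.2 (abs_pos.2 h1)

variable [MeasurableSpace E] [BorelSpace E]

lemma lint_tr (c : CD β R) (b : Module.Basis (Fin (Module.finrank ℝ E)) ℝ E)
    {g : M → M} (hg : St β g) (hi : Function.Injective g) (x x' : M) {A : Set E}
    (hA : MeasurableSet A) (hA1 : A ⊆ (extChartAt 𝓘(ℝ, E) x).target)
    (hA2 : ∀ y ∈ A, g ((extChartAt 𝓘(ℝ, E) x).symm y) ∈ (extChartAt 𝓘(ℝ, E) x').source) :
    ∫⁻ y in (tr x x' g) '' A, dens b β x' y ∂b.addHaar = ∫⁻ y in A, dens b β x y ∂b.addHaar := by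
  rw [lintegral_image_eq_lintegral_abs_det_fderiv_mul b.addHaar hA
    (f' := fun y => fderiv ℝ (tr x x' g) y)]
  · refine setLIntegral_congr_fun hA fun y hy => ?_
    exact (dens_tr b c.contact.smooth hg x x' (hA1 hy) (hA2 y hy)).symm
  · intro y hy
    exact (differentiableAt_tr x x' (hA1 hy) (hg.smooth.mdifferentiableAt (by simp))
      (hA2 y hy)).hasFDerivAt.hasFDerivWithinAt
  · intro y hy z hz hyz
    have h1 := (extChartAt 𝓘(ℝ, E) x').injOn (hA2 y hy) (hA2 z hz) hyz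
    exact (extChartAt 𝓘(ℝ, E) x).symm.injOn (hA1 hy) (hA1 hz) (hi h1)

variable [MeasurableSpace M] [BorelSpace M]

omit [IsManifold 𝓘(ℝ, E) ∞ M] [FiniteDimensional ℝ E] in
lemma measurableSet_target_inter (x : M) {s : Set M} (hs : MeasurableSet s) :
    MeasurableSet ((extChartAt 𝓘(ℝ, E) x).symm ⁻¹' s ∩ (extChartAt 𝓘(ℝ, E) x).target) := by
  have h1 : Continuous ((extChartAt 𝓘(ℝ, E) x).target.domRestrict (extChartAt 𝓘(ℝ, E) x).symm) :=
    (continuousOn_extChartAt_symm x).domRestrict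
  have h2 := (isOpen_extChartAt_target (I := 𝓘(ℝ, E)) x).measurableSet.subtype_image
    (h1.measurable hs)
  convert h2 using 1
  ext y
  constructor
  · rintro ⟨h3, h4⟩
    exact ⟨⟨y, h4⟩, h3, rfl⟩
  · rintro ⟨⟨z, hz⟩, h3, h4⟩
    have h5 : z = y := h4
    subst h5
    exact ⟨h3, hz⟩

omit [IsManifold 𝓘(ℝ, E) ∞ M] [FiniteDimensional ℝ E] in
lemma measurableSet_image (x : M) {s : Set M} (hs : MeasurableSet s)
    (hx : s ⊆ (extChartAt 𝓘(ℝ, E) x).source) : MeasurableSet (extChartAt 𝓘(ℝ, E) x '' s) := by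
  have h := measurableSet_target_inter (E := E) x hs
  convert h using 1
  ext y
  constructor
  · rintro ⟨z, hz, rfl⟩
    refine ⟨?_, (extChartAt 𝓘(ℝ, E) x).map_source (hx hz)⟩
    rw [mem_preimage, (extChartAt 𝓘(ℝ, E) x).left_inv (hx hz)]
    exact hz
  · rintro ⟨h1, h2⟩
    exact ⟨_, h1, (extChartAt 𝓘(ℝ, E) x).right_inv h2⟩

/-- the volume of `s` in the chart at `x` -/
def vv (b : Module.Basis (Fin (Module.finrank ℝ E)) ℝ E)
    (β : (x : M) → TangentSpace 𝓘(ℝ, E) x →L[ℝ] ℝ) (x : M) (s : Set M) : ENNReal :=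
  ∫⁻ y in extChartAt 𝓘(ℝ, E) x '' s, dens b β x y ∂b.addHaar

/-- the chart volume is invariant -/
lemma vv_image (c : CD β R) (b : Module.Basis (Fin (Module.finrank ℝ E)) ℝ E)
    {g : M → M} (hg : St β g) (hi : Function.Injective g) (x x' : M) {s : Set M}
    (hs : MeasurableSet s) (h1 : s ⊆ (extChartAt 𝓘(ℝ, E) x).source)
    (h2 : ∀ z ∈ s, g z ∈ (extChartAt 𝓘(ℝ, E) x').source) :
    vv b β x' (g '' s) = vv b β x s := by
  unfold vv
  have h3 := lint_tr c b hg hi x x' (measurableSet_image x hs h1)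
    (by rintro _ ⟨z, hz, rfl⟩; exact (extChartAt 𝓘(ℝ, E) x).map_source (h1 hz))
    (by rintro _ ⟨z, hz, rfl⟩; rw [(extChartAt 𝓘(ℝ, E) x).left_inv (h1 hz)]; exact h2 z hz)
  rw [← h3]
  congr 2
  ext y
  constructor
  · rintro ⟨_, ⟨z, hz, rfl⟩, rfl⟩
    refine ⟨_, ⟨z, hz, rfl⟩, ?_⟩
    show extChartAt 𝓘(ℝ, E) x' (g ((extChartAt 𝓘(ℝ, E) x).symm (extChartAt 𝓘(ℝ, E) x z))) = _
    rw [(extChartAt 𝓘(ℝ, E) x).left_inv (h1 hz)]
  · rintro ⟨_, ⟨z, hz, rfl⟩, rfl⟩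
    refine ⟨_, ⟨z, hz, rfl⟩, ?_⟩
    show _ = extChartAt 𝓘(ℝ, E) x' (g ((extChartAt 𝓘(ℝ, E) x).symm (extChartAt 𝓘(ℝ, E) x z)))
    rw [(extChartAt 𝓘(ℝ, E) x).left_inv (h1 hz)]

/-- the part of the volume in the set `P`, seen in the chart at `x` -/
def mu1 (b : Module.Basis (Fin (Module.finrank ℝ E)) ℝ E)
    (β : (x : M) → TangentSpace 𝓘(ℝ, E) x →L[ℝ] ℝ) (x : M) (P : Set M) : Measure M :=
  Measure.map (extChartAt 𝓘(ℝ, E) x).symm
    ((b.addHaar.restrict (extChartAt 𝓘(ℝ, E) x '' P)).withDensity (dens b β x))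

lemma mu1_apply (b : Module.Basis (Fin (Module.finrank ℝ E)) ℝ E)
    (β : (x : M) → TangentSpace 𝓘(ℝ, E) x →L[ℝ] ℝ) (x : M) {P A : Set M}
    (hP : MeasurableSet P) (hPx : P ⊆ (extChartAt 𝓘(ℝ, E) x).source) (hA : MeasurableSet A) :
    mu1 b β x P A = vv b β x (A ∩ P) := by
  have hm := measurableSet_image (E := E) x hP hPx
  have h0 : extChartAt 𝓘(ℝ, E) x '' P ⊆ (extChartAt 𝓘(ℝ, E) x).target := by
    rintro _ ⟨z, hz, rfl⟩; exact (extChartAt 𝓘(ℝ, E) x).map_source (hPx hz)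
  have h1 : AEMeasurable (extChartAt 𝓘(ℝ, E) x).symm
      ((b.addHaar.restrict (extChartAt 𝓘(ℝ, E) x '' P)).withDensity (dens b β x)) :=
    (((continuousOn_extChartAt_symm x).mono h0).aemeasurable hm).mono_ac
      (withDensity_absolutelyContinuous _ _)
  unfold mu1 vv
  rw [Measure.map_apply_of_aemeasurable h1 hA, withDensity_apply',
    Measure.restrict_restrict' hm]
  congr 2
  ext y
  constructor
  · rintro ⟨h2, z, hz, rfl⟩
    rw [mem_preimage, (extChartAt 𝓘(ℝ, E) x).left_inv (hPx hz)] at h2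
    exact ⟨z, ⟨h2, hz⟩, rfl⟩
  · rintro ⟨z, ⟨h2, hz⟩, rfl⟩
    refine ⟨?_, z, hz, rfl⟩
    rw [mem_preimage, (extChartAt 𝓘(ℝ, E) x).left_inv (hPx hz)]
    exact h2

end Pool.Agent.J4H20.HT
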