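import Mathlib
import Pool.Agent.J4H20.HT.Vol

/-! The finite invariant measure of a closed contact manifold. -/

open scoped Topology ContDiff Manifold
open Set Metric Bundle Filter MeasureTheory Pool.Agent.Helper186 Pool.Agent.H826R2.Wein
  Pool.Agent.W671.WU Pool.Agent.R774.Root

noncomputable section

namespace Pool.Agent.J4H20.HT

set_option linter.unusedSectionVars false

variable {E : Type*} [NormedAddCommGroup E] [NormedSpace ℝ E]
  {M : Type*} [TopologicalSpace M] [ChartedSpace E M] [IsManifold 𝓘(ℝ, E) ∞ M]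
  {β : (x : M) → TangentSpace 𝓘(ℝ, E) x →L[ℝ] ℝ}
    {R : (x : M) → TangentSpace 𝓘(ℝ, E) x} {Fl : M → ℝ → M}
  [FiniteDimensional ℝ E]
  [MeasurableSpace E] [BorelSpace E] [MeasurableSpace M] [BorelSpace M]

variable (E M) in
lemma exists_part [CompactSpace M] : ∃ (n : ℕ) (x : Fin n → M) (P : Fin n → Set M),
    (∀ i, MeasurableSet (P i)) ∧ Pairwise (Function.onFun Disjoint P) ∧ (⋃ i, P i = univ) ∧
    ∀ i, P i ⊆ (extChartAt 𝓘(ℝ, E) (x i)).source ∧ ∃ K, IsCompact K ∧
      K ⊆ (extChartAt 𝓘(ℝ, E) (x i)).target ∧ extChartAt 𝓘(ℝ, E) (x i) '' P i ⊆ K := by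
  have : ProperSpace E := FiniteDimensional.proper ℝ E
  have h1 : ∀ z : M, ∃ ρ > 0, closedBall (extChartAt 𝓘(ℝ, E) z z) ρ ⊆
      (extChartAt 𝓘(ℝ, E) z).target := fun z =>
    nhds_basis_closedBall.mem_iff.1 ((isOpen_extChartAt_target z).mem_nhds
      (mem_extChartAt_target z))
  choose ρ hρ0 hρ using h1
  set N : M → Set M := fun z => (extChartAt 𝓘(ℝ, E) z).source ∩
    (extChartAt 𝓘(ℝ, E) z) ⁻¹' ball (extChartAt 𝓘(ℝ, E) z z) (ρ z) with hN
  have hNo : ∀ z, IsOpen (N z) := fun z =>
    (continuousOn_extChartAt z).isOpen_inter_preimage (isOpen_extChartAt_source z) isOpen_ball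
  obtain ⟨t, ht⟩ := CompactSpace.elim_nhds_subcover N
    (fun z => (hNo z).mem_nhds ⟨mem_extChartAt_source z, mem_ball_self (hρ0 z)⟩)
  let e := t.equivFin.symm
  refine ⟨t.card, fun i => (e i : M), disjointed fun i => N (e i), ?_, disjoint_disjointed _, ?_, ?_⟩
  · intro i
    exact disjointedRec (p := MeasurableSet) (fun A j hA => hA.diff (hNo (e j)).measurableSet)
      (hNo (e i)).measurableSet
  · rw [iUnion_disjointed, eq_univ_iff_forall]
    intro z
    have hz : z ∈ ⋃ w ∈ t, N w := by rw [ht]; trivial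
    simp only [mem_iUnion] at hz
    obtain ⟨w, hw, hzw⟩ := hz
    rw [mem_iUnion]
    refine ⟨e.symm ⟨w, hw⟩, ?_⟩
    rw [e.apply_symm_apply]
    exact hzw
  · intro i
    have h2 := disjointed_subset (fun i => N (e i)) i
    refine ⟨h2.trans inter_subset_left, _, isCompact_closedBall _ _, hρ (e i), ?_⟩
    rintro _ ⟨z, hz, rfl⟩
    exact ball_subset_closedBall (h2 hz).2

lemma vv_sum (b : Module.Basis (Fin (Module.finrank ℝ E)) ℝ E) (x : M) {s : Set M}
    (hs : MeasurableSet s) (hx : s ⊆ (extChartAt 𝓘(ℝ, E) x).source) {n : ℕ} {P : Fin n → Set M}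
    (hP : ∀ i, MeasurableSet (P i)) (hd : Pairwise (Function.onFun Disjoint P))
    (hU : ⋃ i, P i = univ) : ∑ i, vv b β x (s ∩ P i) = vv b β x s := by
  have h1 : ∀ i, vv b β x (s ∩ P i) = mu1 b β x s (P i) := fun i => by
    rw [mu1_apply b β x hs hx (hP i), inter_comm]
  simp only [h1]
  rw [← measure_biUnion_finset (fun i _ j _ hij => hd hij) (fun i _ => hP i)]
  have h2 : (⋃ i ∈ Finset.univ, P i) = univ := by
    rw [← hU]; simp
  rw [h2, mu1_apply b β x hs hx MeasurableSet.univ, univ_inter]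

lemma exists_mu [T2Space M] [CompactSpace M] (c : CD β R) : ∃ μ : Measure M, IsFiniteMeasure μ ∧
    (∀ U, IsOpen U → U.Nonempty → μ U ≠ 0) ∧
    ∀ g g' : M → M, St β g → Continuous g' → (∀ x, g (g' x) = x) → (∀ x, g' (g x) = x) →
      MeasurePreserving g μ μ := by
  have : IsManifold 𝓘(ℝ, E) 1 M := IsManifold.of_le (n := ∞) (by simp)
  obtain ⟨n, x, P, hP, hd, hU, hx⟩ := exists_part E M
  let b : Module.Basis (Fin (Module.finrank ℝ E)) ℝ E := Module.finBasis ℝ E
  set μ : Measure M := ∑ i, mu1 b β (x i) (P i) with hμ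
  have hμa : ∀ A, MeasurableSet A → μ A = ∑ i, vv b β (x i) (A ∩ P i) := by
    intro A hA
    rw [hμ, Measure.finsetSum_apply]
    exact Finset.sum_congr rfl fun i _ => mu1_apply b β (x i) (hP i) (hx i).1 hA
  have hid : St β (id : M → M) := ⟨contMDiff_id, fun z u => by rw [mfderiv_id]; rfl⟩
  have hL : ∀ z (s : Set M), MeasurableSet s → s ⊆ (extChartAt 𝓘(ℝ, E) z).source →
      μ s = vv b β z s := by
    intro z s hs hz
    rw [hμa s hs, ← vv_sum b z hs hz hP hd hU]
    refine Finset.sum_congr rfl fun i _ => ?_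
    have h1 := vv_image c b hid Function.injective_id z (x i) (hs.inter (hP i))
      (inter_subset_left.trans hz) (fun w hw => (hx i).1 hw.2)
    rw [image_id] at h1
    exact h1
  refine ⟨μ, ?_, ?_, ?_⟩
  · constructor
    rw [hμa _ MeasurableSet.univ]
    refine ENNReal.sum_lt_top.2 fun i _ => ?_
    obtain ⟨K, hK, hKt, hPK⟩ := (hx i).2
    rw [univ_inter]
    refine lt_of_le_of_lt (lintegral_mono_set hPK) ?_
    rcases K.eq_empty_or_nonempty with rfl | hne
    · simp
    obtain ⟨y₀, hy₀, hmax⟩ := hK.exists_isMaxOn hne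
      ((continuousOn_dens c.contact.smooth b (x i)).mono hKt)
    have h1 : ∫⁻ y in K, dens b β (x i) y ∂b.addHaar ≤ ∫⁻ y in K, dens b β (x i) y₀ ∂b.addHaar :=
      setLIntegral_mono' hK.measurableSet fun y hy => hmax hy
    refine lt_of_le_of_lt h1 ?_
    rw [setLIntegral_const]
    exact ENNReal.mul_lt_top ENNReal.ofReal_lt_top hK.measure_lt_top
  · rintro U hUo ⟨z, hz⟩ h0
    have hso : IsOpen (U ∩ (extChartAt 𝓘(ℝ, E) z).source) :=
      hUo.inter (isOpen_extChartAt_source z)
    have h1 : μ (U ∩ (extChartAt 𝓘(ℝ, E) z).source) = 0 := measure_mono_null inter_subset_left h0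
    rw [hL z _ hso.measurableSet inter_subset_right] at h1
    have himg : extChartAt 𝓘(ℝ, E) z '' (U ∩ (extChartAt 𝓘(ℝ, E) z).source) =
        (extChartAt 𝓘(ℝ, E) z).target ∩ (extChartAt 𝓘(ℝ, E) z).symm ⁻¹' U := by
      ext y
      constructor
      · rintro ⟨w, ⟨hw, hw'⟩, rfl⟩
        refine ⟨(extChartAt 𝓘(ℝ, E) z).map_source hw', ?_⟩
        rw [mem_preimage, (extChartAt 𝓘(ℝ, E) z).left_inv hw']
        exact hw
      · rintro ⟨h2, h3⟩
        exact ⟨_, ⟨h3, (extChartAt 𝓘(ℝ, E) z).map_target h2⟩,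
          (extChartAt 𝓘(ℝ, E) z).right_inv h2⟩
    have hSo : IsOpen (extChartAt 𝓘(ℝ, E) z '' (U ∩ (extChartAt 𝓘(ℝ, E) z).source)) := by
      rw [himg]
      exact (continuousOn_extChartAt_symm z).isOpen_inter_preimage (isOpen_extChartAt_target z) hUo
    have hSt : extChartAt 𝓘(ℝ, E) z '' (U ∩ (extChartAt 𝓘(ℝ, E) z).source) ⊆
        (extChartAt 𝓘(ℝ, E) z).target := by rw [himg]; exact inter_subset_left
    unfold vv at h1
    rw [lintegral_eq_zero_iff' (((continuousOn_dens c.contact.smooth b z).mono hSt).aemeasurable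
      hSo.measurableSet), Filter.EventuallyEq, ae_restrict_iff' hSo.measurableSet] at h1
    refine hSo.measure_ne_zero b.addHaar ⟨_, z, ⟨hz, mem_extChartAt_source z⟩, rfl⟩ ?_
    rw [measure_eq_zero_iff_ae_notMem]
    filter_upwards [h1] with y hy hyS
    exact dens_ne_zero c b z (hSt hyS) (hy hyS)
  · intro g g' hg hg' hr hl
    have hinj : Function.Injective g := Function.LeftInverse.injective hl
    have himg : ∀ s : Set M, g '' s = g' ⁻¹' s := by
      intro s
      ext y
      constructor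
      · rintro ⟨w, hw, rfl⟩
        rw [mem_preimage, hl]; exact hw
      · intro hy
        exact ⟨_, hy, hr y⟩
    refine ⟨hg.smooth.continuous.measurable, ?_⟩
    refine Measure.ext fun A hA => ?_
    rw [Measure.map_apply hg.smooth.continuous.measurable hA,
      hμa _ (hg.smooth.continuous.measurable hA), hμa _ hA]
    have hgm : Measurable g := hg.smooth.continuous.measurable
    have hQm : ∀ i, MeasurableSet (g' ⁻¹' P i) := fun i => hg'.measurable (hP i)
    have hQd : Pairwise (Function.onFun Disjoint fun i => g' ⁻¹' P i) := fun i j hij =>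
      Disjoint.preimage g' (hd hij)
    have hQU : ⋃ i, g' ⁻¹' P i = univ := by rw [← preimage_iUnion, hU, preimage_univ]
    have hQm2 : ∀ i, MeasurableSet (g ⁻¹' P i) := fun i => hgm (hP i)
    have hQd2 : Pairwise (Function.onFun Disjoint fun i => g ⁻¹' P i) := fun i j hij =>
      Disjoint.preimage g (hd hij)
    have hQU2 : ⋃ i, g ⁻¹' P i = univ := by rw [← preimage_iUnion, hU, preimage_univ]
    have e1 : ∀ i, vv b β (x i) (g ⁻¹' A ∩ P i) =
        ∑ j, vv b β (x j) (A ∩ P j ∩ g' ⁻¹' P i) := by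
      intro i
      rw [← vv_sum b (x i) ((hgm hA).inter (hP i)) (inter_subset_right.trans (hx i).1) hQm2 hQd2
        hQU2]
      refine Finset.sum_congr rfl fun j _ => ?_
      have h1 := vv_image c b hg hinj (x i) (x j) (((hgm hA).inter (hP i)).inter (hQm2 j))
        ((inter_subset_left.trans inter_subset_right).trans (hx i).1)
        (fun w hw => (hx j).1 hw.2)
      rw [← h1, himg]
      congr 1
      ext y
      simp only [mem_preimage, mem_inter_iff, hr]
      tauto
    have e2 : ∀ j, vv b β (x j) (A ∩ P j) = ∑ i, vv b β (x j) (A ∩ P j ∩ g' ⁻¹' P i) := fun j =>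
      (vv_sum b (x j) (hA.inter (hP j)) (inter_subset_right.trans (hx j).1) hQm hQd hQU).symm
    simp only [e1, e2]
    exact Finset.sum_comm

end Pool.Agent.J4H20.HT
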