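import Mathlib
import Pool.Agent.J4H20.HT.Vol2

/-! Almost every point (in the sense of Baire) of a closed contact manifold is recurrent. -/

open scoped Topology ContDiff Manifold
open Set Metric Bundle Filter MeasureTheory Pool.Agent.Helper186 Pool.Agent.H826R2.Wein
  Pool.Agent.W671.WU Pool.Agent.R774.Root

noncomputable section

namespace Pool.Agent.J4H20.HT

set_option linter.unusedSectionVars false

variable {E : Type*} [NormedAddCommGroup E] [NormedSpace ℝ E]
  {M : Type*} [TopologicalSpace M] [ChartedSpace E M] [IsManifold 𝓘(ℝ, E) ∞ M]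
  {β : (x : M) → TangentSpace 𝓘(ℝ, E) x →L[ℝ] ℝ}
    {R : (x : M) → TangentSpace 𝓘(ℝ, E) x} {Fl : M → ℝ → M}
  [FiniteDimensional ℝ E]

/-- `x` is a recurrent point of the flow -/
def Recur (Fl : M → ℝ → M) (x : M) : Prop := ∀ V ∈ 𝓝 x, ∀ T : ℝ, ∃ t ≥ T, Fl x t ∈ V

lemma RF.st (hF : RF β R Fl) (t : ℝ) : St β (fun x => Fl x t) :=
  ⟨hF.smooth_t t, hF.strict t⟩

/-- no open set is wandering -/
lemma exists_return [T2Space M] [CompactSpace M] (c : CD β R) (hF : RF β R Fl) {U : Set M}
    (hU : IsOpen U) (hne : U.Nonempty) (T : ℝ) : ∃ x ∈ U, ∃ t ≥ T, Fl x t ∈ U := by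
  let _ : MeasurableSpace E := borel E
  have : BorelSpace E := ⟨rfl⟩
  let _ : MeasurableSpace M := borel M
  have : BorelSpace M := ⟨rfl⟩
  obtain ⟨μ, hμ, hpos, hinv⟩ := exists_mu (β := β) (R := R) (M := M) c
  set T₀ := max T 1 with hT₀
  have hT1 : 1 ≤ T₀ := le_max_right _ _
  have hmp : MeasurePreserving (fun x => Fl x T₀) μ μ := by
    apply hinv _ (fun x => Fl x (-T₀)) (RF.st hF T₀) (hF.smooth_t (-T₀)).continuous
    · intro x
      rw [← hF.add, neg_add_cancel, hF.zero]
    · intro x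
      rw [← hF.add, add_neg_cancel, hF.zero]
  obtain ⟨x, hx, m, hm, hmx⟩ := hmp.conservative.exists_mem_iterate_mem
    hU.measurableSet.nullMeasurableSet (hpos U hU hne)
  have hit : ∀ m : ℕ, (fun x => Fl x T₀)^[m] x = Fl x (m * T₀) := by
    intro m
    induction m with
    | zero => simp [hF.zero]
    | succ m ih =>
      rw [Function.iterate_succ_apply', ih]
      show Fl (Fl x (m * T₀)) T₀ = _
      rw [← hF.add]
      congr 1
      push_cast
      ring
  refine ⟨x, hx, m * T₀, ?_, ?_⟩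
  · have h1 : (1:ℝ) ≤ m := by exact_mod_cast Nat.one_le_iff_ne_zero.2 hm
    have h2 : T ≤ T₀ := le_max_left _ _
    nlinarith
  · rw [← hit]; exact hmx

theorem residual_recur [T2Space M] [CompactSpace M] (c : CD β R) (hF : RF β R Fl) :
    IsMeagre {x | ¬ Recur Fl x} := by
  have : SecondCountableTopology M := ChartedSpace.secondCountable_of_sigmaCompact E M
  set N : Set M → ℕ → Set M := fun U n => {x | x ∈ U ∧ ∀ t : ℝ, (n : ℝ) ≤ t → Fl x t ∉ U} with hN
  have hB := TopologicalSpace.isBasis_countableBasis M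
  have hnd : ∀ U, IsOpen U → ∀ n, IsNowhereDense (N U n) := by
    intro U hU n
    rw [IsNowhereDense, eq_empty_iff_forall_notMem]
    intro z hz
    obtain ⟨x, hx1, hx2⟩ := mem_closure_iff.1 (interior_subset hz) _ isOpen_interior hz
    set W := interior (closure (N U n)) ∩ U with hW
    have hWo : IsOpen W := isOpen_interior.inter hU
    obtain ⟨y, hy, t, ht, hyt⟩ := exists_return c hF hWo ⟨x, hx1, hx2.1⟩ (n : ℝ)
    have hc : ContinuousAt (fun y => Fl y t) y := (hF.smooth_t t).continuous.continuousAt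
    have h1 : ∀ᶠ y' in 𝓝 y, Fl y' t ∈ U := hc.eventually (hU.mem_nhds hyt.2)
    obtain ⟨y', hy'1, hy'2⟩ := mem_closure_iff_nhds.1 (interior_subset hy.1) _ h1
    exact hy'2.2 t ht hy'1
  have hsub : {x | ¬ Recur Fl x} ⊆ ⋃ U ∈ TopologicalSpace.countableBasis M, ⋃ n : ℕ, N U n := by
    intro x hx
    have hx' : ¬ Recur Fl x := hx
    unfold Recur at hx'
    push Not at hx'
    obtain ⟨V, hV, T, hT⟩ := hx'
    obtain ⟨U, hU, hxU, hUV⟩ := hB.mem_nhds_iff.1 hV
    obtain ⟨n, hn⟩ := exists_nat_ge T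
    simp only [mem_iUnion]
    exact ⟨U, hU, n, hxU, fun t ht h => hT t (hn.trans ht) (hUV h)⟩
  refine IsMeagre.mono hsub ?_
  have hcnt := TopologicalSpace.countable_countableBasis M
  refine isMeagre_biUnion hcnt fun U hU => ?_
  exact isMeagre_iUnion fun n => (hnd U (hB.isOpen hU) n).isMeagre

/-- a nonmeager set contains a recurrent point -/
lemma exists_recur [T2Space M] [CompactSpace M] (c : CD β R) (hF : RF β R Fl) {S : Set M}
    (hS : ¬ IsMeagre S) : ∃ x ∈ S, Recur Fl x := by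
  by_contra hcon
  push Not at hcon
  exact hS (IsMeagre.mono hcon (residual_recur c hF))

end Pool.Agent.J4H20.HT
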