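import Mathlib
import Pool.Agent.J4H20.HT.Rec

/-! The choice of the return times. -/

open scoped Topology ContDiff Manifold
open Set Metric Bundle Filter MeasureTheory Pool.Agent.Helper186 Pool.Agent.H826R2.Wein
  Pool.Agent.W671.WU Pool.Agent.R774.Root

noncomputable section

namespace Pool.Agent.J4H20.HT

set_option linter.unusedSectionVars false

variable {E : Type*} [NormedAddCommGroup E] [NormedSpace ℝ E]
  {M : Type*} [TopologicalSpace M] [ChartedSpace E M] [IsManifold 𝓘(ℝ, E) ∞ M]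
  {β : (x : M) → TangentSpace 𝓘(ℝ, E) x →L[ℝ] ℝ}
    {R : (x : M) → TangentSpace 𝓘(ℝ, E) x} {Fl : M → ℝ → M}
  [FiniteDimensional ℝ E]

/-- the linear form `β x` in the chart at `x` -/
def ell (β : (x : M) → TangentSpace 𝓘(ℝ, E) x →L[ℝ] ℝ) (x z : M) : ℝ :=
  β x (extChartAt 𝓘(ℝ, E) x z - extChartAt 𝓘(ℝ, E) x x : E)

lemma continuous_flow (hF : RF β R Fl) : Continuous (fun q : M × ℝ => Fl q.1 q.2) :=
  hF.smooth.continuous

/-- the local form `ell` increases along the flow lines -/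
lemma ell_mono (c : CD β R) (hF : RF β R Fl) (x : M) : ∃ V ∈ 𝓝 x, ∃ δ > 0, ∀ z ∈ V,
    ContinuousOn (fun s => ell β x (Fl z s)) (Icc (-δ) δ) ∧
    ∀ s ∈ Icc (-δ) δ, ∀ t ∈ Icc (-δ) δ, s ≤ t →
      1 / 2 * (t - s) ≤ ell β x (Fl z t) - ell β x (Fl z s) := by
  set κ := extChartAt 𝓘(ℝ, E) x with hκ
  set p := κ x with hp
  have hxs : x ∈ κ.source := mem_extChartAt_source x
  have hpt : p ∈ κ.target := mem_extChartAt_target x
  have hsp : κ.symm p = x := κ.left_inv hxs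
  let lam : E →L[ℝ] ℝ := β x
  -- the good neighbourhood of `(p, 0)`
  have h1 : ∀ᶠ q : E × ℝ in 𝓝 (p, 0), q.1 ∈ κ.target :=
    continuousAt_fst.eventually ((isOpen_extChartAt_target x).mem_nhds hpt)
  have h2 : ∀ᶠ q : E × ℝ in 𝓝 (p, 0), Fl (κ.symm q.1) q.2 ∈ κ.source := by
    have hc1 : ContinuousAt (fun q : E × ℝ => κ.symm q.1) (p, 0) :=
      ContinuousAt.comp (f := fun q : E × ℝ => q.1) (g := κ.symm)
        (continuousAt_extChartAt_symm x) continuousAt_fst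
    have hc2 : ContinuousAt (fun q : E × ℝ => Fl (κ.symm q.1) q.2) (p, 0) :=
      ContinuousAt.comp (f := fun q : E × ℝ => (κ.symm q.1, q.2))
        (g := fun q : M × ℝ => Fl q.1 q.2) (continuous_flow hF).continuousAt
        (hc1.prodMk continuousAt_snd)
    apply hc2.eventually ((isOpen_extChartAt_source (I := 𝓘(ℝ, E)) x).mem_nhds _)
    show Fl (κ.symm p) 0 ∈ κ.source
    rw [hF.zero, hsp]; exact hxs
  have hR : (RF.Rc Fl x p : E) = R x := by
    have e1 := hF.tangent_Rc x hpt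
    have e2 : (ds x p (RF.Rc Fl x p) : E) = RF.Rc Fl x p := mfderiv_extChartAt_symm_self x _
    rw [e2] at e1
    rw [e1]
    have e3 : ∀ z : M, z = x → (R z : E) = R x := by rintro z rfl; rfl
    exact e3 _ hsp
  have h3 : ∀ᶠ q : E × ℝ in 𝓝 (p, 0), 1 / 2 < lam (fderiv ℝ (RF.H Fl x) q (0, 1)) := by
    have hc : ContinuousAt (fderiv ℝ (RF.H Fl x)) (p, 0) := by
      apply hF.continuousAt_fderiv_H x (q := (p, 0)) hpt
      show Fl (κ.symm p) 0 ∈ κ.source
      rw [hF.zero, hsp]; exact hxs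
    have hc2 : ContinuousAt (fun q : E × ℝ => lam (fderiv ℝ (RF.H Fl x) q (0, 1))) (p, 0) :=
      lam.continuous.continuousAt.comp (hc.clm_apply continuousAt_const)
    apply hc2.eventually (lt_mem_nhds _)
    have e1 : lam (fderiv ℝ (RF.H Fl x) (p, 0) (0, 1)) = 1 := by
      show lam (RF.Rc Fl x p) = 1
      rw [hR]
      exact c.reeb.unit x
    show 1 / 2 < lam (fderiv ℝ (RF.H Fl x) (p, 0) (0, 1))
    rw [e1]; norm_num
  obtain ⟨ε, hε, hball⟩ := Metric.mem_nhds_iff.1 (h1.and (h2.and h3))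
  refine ⟨κ.source ∩ κ ⁻¹' ball p ε, ?_, ε / 2, by positivity, ?_⟩
  · exact ((continuousOn_extChartAt x).isOpen_inter_preimage (isOpen_extChartAt_source x)
      isOpen_ball).mem_nhds ⟨hxs, mem_ball_self hε⟩
  rintro z ⟨hz1, hz2⟩
  have hzs : κ.symm (κ z) = z := κ.left_inv hz1
  have hq : ∀ s ∈ Icc (-(ε / 2)) (ε / 2), ((κ z, s) : E × ℝ) ∈ ball ((p, 0) : E × ℝ) ε := by
    intro s hs
    rw [mem_ball, Prod.dist_eq, max_lt_iff]
    refine ⟨hz2, ?_⟩
    rw [Real.dist_eq, sub_zero]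
    have : |s| ≤ ε / 2 := abs_le.2 ⟨hs.1, hs.2⟩
    linarith
  have hder : ∀ s ∈ Icc (-(ε / 2)) (ε / 2), HasDerivAt (fun s => ell β x (Fl z s))
      (lam (fderiv ℝ (RF.H Fl x) (κ z, s) (0, 1))) s := by
    intro s hs
    obtain ⟨a1, a2, a3⟩ := hball (hq s hs)
    have b1 := hF.hasDerivAt_H x (q := κ z) (s := s) a1 a2
    have b2 := lam.hasFDerivAt.comp_hasDerivAt s (b1.sub_const p)
    have b3 : (fun s => ell β x (Fl z s)) = fun s => lam (RF.H Fl x (κ z, s) - p) := by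
      funext s
      show lam (κ (Fl z s) - p) = lam (κ (Fl (κ.symm (κ z)) s) - p)
      rw [hzs]
    rw [b3]
    exact b2
  have hcont : ContinuousOn (fun s => ell β x (Fl z s)) (Icc (-(ε / 2)) (ε / 2)) :=
    fun s hs => (hder s hs).continuousAt.continuousWithinAt
  refine ⟨hcont, fun s hs t ht hst => ?_⟩
  refine (convex_Icc (-(ε / 2)) (ε / 2)).mul_sub_le_image_sub_of_le_deriv hcont
    (fun r hr => (hder r (interior_subset hr)).differentiableAt.differentiableWithinAt)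
    (fun r hr => ?_) s hs t ht hst
  rw [(hder r (interior_subset hr)).deriv]
  exact (hball (hq r (interior_subset hr))).2.2.le

/-- small times are not periods -/
lemma exists_short (c : CD β R) (hF : RF β R Fl) (x : M) : ∃ V ∈ 𝓝 x, ∃ δ > 0, ∀ z ∈ V,
    ∀ t, 0 < t → t ≤ δ → Fl z t ≠ z := by
  obtain ⟨V, hV, δ, hδ, h⟩ := ell_mono c hF x
  refine ⟨V, hV, δ, hδ, fun z hz t ht0 ht hcon => ?_⟩
  have h1 := (h z hz).2 0 ⟨by linarith, hδ.le⟩ t ⟨by linarith, ht⟩ ht0.le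
  rw [hcon, hF.zero, sub_self, sub_zero] at h1
  linarith

/-- return times to the hyperplane `ell = 0` -/
lemma exists_time (c : CD β R) (hF : RF β R Fl) (x : M) (hr : Recur Fl x) {W : Set M}
    (hW : W ∈ 𝓝 x) : ∃ t, 1 ≤ t ∧ Fl x t ∈ W ∧ ell β x (Fl x t) = 0 := by
  obtain ⟨V, hV, δ, hδ, h⟩ := ell_mono c hF x
  have h1 : ∀ᶠ q : M × ℝ in 𝓝 (x, 0), Fl q.1 q.2 ∈ W := by
    apply (continuous_flow hF).continuousAt.eventually
    show W ∈ 𝓝 (Fl x 0)
    rw [hF.zero]; exact hW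
  rw [nhds_prod_eq] at h1
  obtain ⟨pa, ha, pb, hb, hab⟩ := Filter.eventually_prod_iff.1 h1
  obtain ⟨δ', hδ', hball⟩ := Metric.mem_nhds_iff.1 hb
  set d := min δ (δ' / 2) with hd
  have hd0 : 0 < d := by positivity
  have hdδ : d ≤ δ := min_le_left _ _
  have hdδ' : d ≤ δ' / 2 := min_le_right _ _
  have hb' : ∀ s ∈ Icc (-d) d, pb s := by
    intro s hs
    apply hball
    rw [mem_ball, Real.dist_eq, sub_zero]
    have : |s| ≤ d := abs_le.2 ⟨hs.1, hs.2⟩
    linarith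
  have h2 : ∀ᶠ z in 𝓝 x, |ell β x z| < 1 / 2 * d := by
    have hc : ContinuousAt (fun z => |ell β x z|) x := by
      have hc1 : ContinuousAt (fun z : M => (extChartAt 𝓘(ℝ, E) x z - extChartAt 𝓘(ℝ, E) x x : E)) x :=
        (continuousAt_extChartAt x).sub continuousAt_const
      let lam : E →L[ℝ] ℝ := β x
      exact (lam.continuous.continuousAt.comp hc1).abs
    apply hc.eventually (gt_mem_nhds _)
    have e1 : ell β x x = 0 := by
      unfold ell
      rw [sub_self]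
      exact map_zero (β x)
    show |ell β x x| < 1 / 2 * d
    rw [e1, abs_zero]; positivity
  obtain ⟨t₀, ht₀, hzV, hza, hzl⟩ := hr _ (inter_mem hV (inter_mem ha h2)) (1 + d)
  have hzl' : |ell β x (Fl x t₀)| < 1 / 2 * d := hzl
  obtain ⟨hcont, hmono⟩ := h _ hzV
  have hsub : Icc (-d) d ⊆ Icc (-δ) δ := Icc_subset_Icc (by linarith) hdδ
  have e0 : ell β x (Fl (Fl x t₀) 0) = ell β x (Fl x t₀) := by rw [hF.zero]
  have i1 : ell β x (Fl (Fl x t₀) (-d)) ≤ 0 := by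
    have := hmono (-d) (hsub ⟨le_rfl, by linarith⟩) 0 ⟨by linarith, hδ.le⟩ (by linarith)
    rw [e0] at this
    have := (abs_lt.1 hzl').2
    linarith
  have i2 : 0 ≤ ell β x (Fl (Fl x t₀) d) := by
    have := hmono 0 ⟨by linarith, hδ.le⟩ d (hsub ⟨by linarith, le_rfl⟩) hd0.le
    rw [e0] at this
    have := (abs_lt.1 hzl').1
    linarith
  obtain ⟨r, hr1, hr2⟩ := intermediate_value_Icc (by linarith) (hcont.mono hsub) ⟨i1, i2⟩
  refine ⟨t₀ + r, by linarith [hr1.1], ?_, ?_⟩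
  · rw [hF.add]
    exact hab hza (hb' r hr1)
  · rw [hF.add]
    exact hr2

lemma exists_times (c : CD β R) (hF : RF β R Fl) (x : M) (hr : Recur Fl x)
    (hnp : ∀ t, 0 < t → Fl x t ≠ x) : ∃ (t s : ℕ → ℝ) (v : E),
    Tendsto (fun k => Fl x (t k)) atTop (𝓝 x) ∧ (∀ k, 0 < s k) ∧
    Tendsto (fun k => (s k)⁻¹ • (extChartAt 𝓘(ℝ, E) x (Fl x (t k)) - extChartAt 𝓘(ℝ, E) x x))
      atTop (𝓝 v) ∧ ‖v‖ = 1 ∧ β x v = 0 := by
  have : ProperSpace E := FiniteDimensional.proper ℝ E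
  set κ := extChartAt 𝓘(ℝ, E) x with hκ
  set p := κ x with hp
  have hxs : x ∈ κ.source := mem_extChartAt_source x
  have hsp : κ.symm p = x := κ.left_inv hxs
  have h1 : ∀ n : ℕ, ∃ t, 1 ≤ t ∧ Fl x t ∈ κ.source ∩ κ ⁻¹' ball p (1 / (n + 1)) ∧
      ell β x (Fl x t) = 0 := by
    intro n
    apply exists_time c hF x hr
    exact ((continuousOn_extChartAt x).isOpen_inter_preimage (isOpen_extChartAt_source x)
      isOpen_ball).mem_nhds ⟨hxs, mem_ball_self (by positivity)⟩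
  choose t ht1 ht2 ht3 using h1
  have hne : ∀ n, 0 < ‖κ (Fl x (t n)) - p‖ := by
    intro n
    rw [norm_pos_iff, sub_ne_zero]
    intro h2
    exact hnp (t n) (by linarith [ht1 n]) (κ.injOn (ht2 n).1 hxs h2)
  have hlim : Tendsto (fun n => κ (Fl x (t n))) atTop (𝓝 p) := by
    rw [tendsto_iff_norm_sub_tendsto_zero]
    refine squeeze_zero (fun n => norm_nonneg _) (fun n => ?_)
      tendsto_one_div_add_atTop_nhds_zero_nat
    have := (ht2 n).2
    rw [mem_preimage, mem_ball, dist_eq_norm] at this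
    exact this.le
  set u : ℕ → E := fun n => ‖κ (Fl x (t n)) - p‖⁻¹ • (κ (Fl x (t n)) - p) with hu
  have hu1 : ∀ n, u n ∈ sphere (0 : E) 1 := by
    intro n
    rw [mem_sphere_zero_iff_norm, hu]
    simp only [norm_smul, norm_inv, norm_norm]
    exact inv_mul_cancel₀ (hne n).ne'
  obtain ⟨v, hv, φ, hφ, hlimv⟩ := (isCompact_sphere (0 : E) 1).tendsto_subseq hu1
  refine ⟨t ∘ φ, fun k => ‖κ (Fl x (t (φ k))) - p‖, v, ?_, fun k => hne _, hlimv, ?_, ?_⟩
  · have h3 : Tendsto (fun k => κ.symm (κ (Fl x (t (φ k))))) atTop (𝓝 (κ.symm p)) :=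
      (continuousAt_extChartAt_symm (I := 𝓘(ℝ, E)) x).tendsto.comp (hlim.comp hφ.tendsto_atTop)
    rw [hsp] at h3
    exact h3.congr fun k => κ.left_inv (ht2 (φ k)).1
  · exact mem_sphere_zero_iff_norm.1 hv
  · let lam : E →L[ℝ] ℝ := β x
    have h4 : ∀ n, lam (u n) = 0 := by
      intro n
      have h5 : lam (κ (Fl x (t n)) - p) = 0 := ht3 n
      rw [hu]
      simp only [map_smul, h5, smul_zero]
    have h6 : Tendsto (fun k => lam (u (φ k))) atTop (𝓝 (lam v)) :=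
      (lam.continuous.tendsto v).comp hlimv
    simp only [h4] at h6
    exact tendsto_nhds_unique h6 tendsto_const_nhds

end Pool.Agent.J4H20.HT
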