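import Mathlib
import Pool.Agent.J4H20.HT.Times

/-! Nonmeager orbits of the strict contactomorphism group consist of closed Reeb orbits. -/

open scoped Topology ContDiff Manifold
open Set Metric Bundle Filter MeasureTheory Pool.Agent.Helper186 Pool.Agent.H826R2.Wein
  Pool.Agent.W671.WU Pool.Agent.R774.Root

noncomputable section

namespace Pool.Agent.J4H20.HT

set_option linter.unusedSectionVars false

lemma lin_zero {E : Type*} [NormedAddCommGroup E] [NormedSpace ℝ E] (L : E →L[ℝ] ℝ)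
    (h : ∀ ε > 0, ∃ r > 0, ∀ u, ‖u‖ < r → - (ε * ‖u‖) ≤ L u) : ∀ w, L w = 0 := by
  have h1 : ∀ w, 0 ≤ L w := by
    intro w
    by_contra hw
    push Not at hw
    have hwn : 0 < ‖w‖ := by
      rw [norm_pos_iff]
      rintro rfl
      rw [map_zero] at hw
      exact lt_irrefl _ hw
    obtain ⟨r, hr, hr'⟩ := h (-(L w) / (2 * ‖w‖)) (div_pos (by linarith) (by linarith))
    have h2 := hr' ((r / (2 * ‖w‖)) • w) (by
      rw [norm_smul, Real.norm_eq_abs, abs_of_pos (by positivity)]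
      have : r / (2 * ‖w‖) * ‖w‖ = r / 2 := by field_simp
      rw [this]; linarith)
    rw [map_smul, smul_eq_mul, norm_smul, Real.norm_eq_abs, abs_of_pos (by positivity)] at h2
    have h3 : -(L w) / (2 * ‖w‖) * (r / (2 * ‖w‖) * ‖w‖) = (r / (2 * ‖w‖)) * (-(L w) / 2) := by
      field_simp
    rw [h3] at h2
    have h4 : 0 < r / (2 * ‖w‖) := by positivity
    nlinarith
  intro w
  have h2 := h1 w
  have h3 := h1 (-w)
  rw [map_neg] at h3
  linarith

variable {E : Type*} [NormedAddCommGroup E] [NormedSpace ℝ E]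
  {M : Type*} [TopologicalSpace M] [ChartedSpace E M] [IsManifold 𝓘(ℝ, E) ∞ M]
  {β : (x : M) → TangentSpace 𝓘(ℝ, E) x →L[ℝ] ℝ}
    {R : (x : M) → TangentSpace 𝓘(ℝ, E) x} {Fl : M → ℝ → M}
  [FiniteDimensional ℝ E]

/-- the closure of a nonmeager orbit is a neighbourhood of each point of the orbit -/
lemma closure_orbit_mem [CompactSpace M] (G : Subgroup (Equiv.Perm M))
    (hG : ∀ g ∈ G, ContMDiff 𝓘(ℝ, E) 𝓘(ℝ, E) 1 g)
    (x : M) (hx : ¬ IsMeagre {y | ∃ g ∈ G, g x = y}) : closure {y | ∃ g ∈ G, g x = y} ∈ 𝓝 x := by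
  have := secondCountable_tangent (E := E) (M := M)
  have := locallyCompact_tangent (E := E) (M := M)
  obtain ⟨ρ, hρ0, hρ⟩ : ∃ ρ > 0, closedBall (extChartAt 𝓘(ℝ, E) x x) ρ ⊆
      (extChartAt 𝓘(ℝ, E) x).target :=
    nhds_basis_closedBall.mem_iff.1 ((isOpen_extChartAt_target x).mem_nhds
      (mem_extChartAt_target x))
  have h1 := dense_small G hG x hx (ρ := ρ) (ε := min (ρ / 2) 1) (by positivity)
    (min_le_left _ _) (min_le_right _ _) hρ
  refine mem_of_superset h1 (closure_mono ?_)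
  rintro _ ⟨h, hh, -, rfl⟩
  exact ⟨h, hh, rfl⟩

lemma orbit_eq (G : Subgroup (Equiv.Perm M)) {x y : M} (h : ∃ g ∈ G, g x = y) :
    {z | ∃ g ∈ G, g y = z} = {z | ∃ g ∈ G, g x = z} := by
  obtain ⟨a, ha, rfl⟩ := h
  ext z
  constructor
  · rintro ⟨g, hg, rfl⟩
    exact ⟨g * a, G.mul_mem hg ha, rfl⟩
  · rintro ⟨g, hg, rfl⟩
    refine ⟨g * a⁻¹, G.mul_mem hg (G.inv_mem ha), ?_⟩
    simp [Equiv.Perm.mul_apply]

/-- recurrent points with nonmeager orbit are periodic -/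
lemma periodic_of_strict [T2Space M] [CompactSpace M] (c : CD β R) (hF : RF β R Fl)
    (G : Subgroup (Equiv.Perm M)) (hG : ∀ g ∈ G, ContMDiff 𝓘(ℝ, E) 𝓘(ℝ, E) 1 g)
    (hGc : ∀ g ∈ G, ∀ x t, g (Fl x t) = Fl (g x) t)
    (hGs : ∀ g ∈ G, ∀ (x : M) (u : TangentSpace 𝓘(ℝ, E) x),
      β (g x) (mfderiv 𝓘(ℝ, E) 𝓘(ℝ, E) g x u) = β x u)
    (x : M) (hx : ¬ IsMeagre {y | ∃ g ∈ G, g x = y}) (hr : Recur Fl x) :
    ∃ T > 0, Fl x T = x := by
  by_contra hcon
  push Not at hcon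
  obtain ⟨t, s, v, ht, hs, hv, hv1, hv0⟩ := exists_times c hF x hr hcon
  set κ := extChartAt 𝓘(ℝ, E) x with hκ
  set p := κ x with hp
  have hxs : x ∈ κ.source := mem_extChartAt_source x
  have hpt : p ∈ κ.target := mem_extChartAt_target x
  have hsp : κ.symm p = x := κ.left_inv hxs
  let L : E →L[ℝ] ℝ := extDerL 𝓘(ℝ, E) β x v
  have hL : ∀ w : E, extDer 𝓘(ℝ, E) β x v w = L w := fun w => rfl
  have hcl := closure_orbit_mem G hG x hx
  have key : ∀ w, L w = 0 := by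
    apply lin_zero
    intro ε hε
    obtain ⟨r, hr0, hr'⟩ := core c.contact.smooth hF G hG hGc x hx t ht s hs v hv hε
    have h2 : κ.symm ⁻¹' (closure {y | ∃ g ∈ G, g x = y}) ∈ 𝓝 p := by
      apply (continuousAt_extChartAt_symm (I := 𝓘(ℝ, E)) x).preimage_mem_nhds
      rw [← hκ, ← hp, hsp]
      exact hcl
    obtain ⟨r', hr'0, hsub⟩ := Metric.mem_nhds_iff.1
      (inter_mem h2 (inter_mem ((isOpen_extChartAt_target x).mem_nhds hpt) (ball_mem_nhds p hr0)))
    refine ⟨r', hr'0, fun u hu => ?_⟩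
    have hub : p + u ∈ ball p r' := by
      rw [mem_ball, dist_eq_norm, add_sub_cancel_left]; exact hu
    obtain ⟨h3, h4, h5⟩ := hsub hub
    have h3' : κ.symm (p + u) ∈ closure {y | ∃ g ∈ G, g x = y} := h3
    -- the closed condition
    by_contra hneg
    push Not at hneg
    have hus : κ.symm (p + u) ∈ κ.source := κ.map_target h4
    have hcz : ContinuousAt (fun z => L (κ z - p) + ε * ‖κ z - p‖) (κ.symm (p + u)) := by
      have h6 : ContinuousAt (fun z => κ z - p) (κ.symm (p + u)) :=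
        (continuousAt_extChartAt' (I := 𝓘(ℝ, E)) hus).sub continuousAt_const
      exact (L.continuous.continuousAt.comp h6).add (continuousAt_const.mul h6.norm)
    have hev1 : ∀ᶠ z in 𝓝 (κ.symm (p + u)), L (κ z - p) + ε * ‖κ z - p‖ < 0 := by
      apply hcz.eventually (gt_mem_nhds _)
      show L (κ (κ.symm (p + u)) - p) + ε * ‖κ (κ.symm (p + u)) - p‖ < 0
      rw [κ.right_inv h4, add_sub_cancel_left]
      linarith
    have hev2 : ∀ᶠ z in 𝓝 (κ.symm (p + u)), κ z ∈ ball p r := by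
      apply (continuousAt_extChartAt' (I := 𝓘(ℝ, E)) hus).eventually
      apply isOpen_ball.mem_nhds
      rw [← hκ, κ.right_inv h4]
      exact h5
    have hev3 : ∀ᶠ z in 𝓝 (κ.symm (p + u)), z ∈ κ.source :=
      (isOpen_extChartAt_source (I := 𝓘(ℝ, E)) x).mem_nhds hus
    obtain ⟨_, ⟨h7, h8, h9⟩, g, hg, rfl⟩ :=
      mem_closure_iff_nhds.1 h3' _ (hev1.and (hev2.and hev3))
    have h10 := hr' g hg h9 h8
    rw [hGs g hg x v, sub_self, zero_add, hL] at h10
    have h11 := (abs_le.1 h10).1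
    linarith
  have hv00 : (v : E) = 0 := by
    apply HB_nondeg c.contact c.reeb x
    intro w
    rw [HB_apply, hv0, zero_mul, zero_add, hL]
    exact key w
  rw [hv00, norm_zero] at hv1
  exact zero_ne_one hv1

/-- `T` is the minimal period of `x` -/
def MinPer (Fl : M → ℝ → M) (x : M) (T : ℝ) : Prop :=
  Fl x T = x ∧ ∀ T', 0 < T' → Fl x T' = x → T ≤ T'

lemma exists_minPer [T2Space M] (c : CD β R) (hF : RF β R Fl) (x : M) (h : ∃ T > 0, Fl x T = x) :
    ∃ T > 0, MinPer Fl x T := by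
  obtain ⟨V, hV, δ, hδ, hsh⟩ := exists_short c hF x
  obtain ⟨T₀, hT₀, hT₀'⟩ := h
  set S : Set ℝ := {t | δ ≤ t ∧ Fl x t = x} with hS
  have hc : Continuous (fun t => Fl x t) :=
    (continuous_flow hF).comp (continuous_const.prodMk continuous_id)
  have hSc : IsClosed S := (isClosed_le continuous_const continuous_id).inter
    (isClosed_eq hc continuous_const)
  have hmem : ∀ t, 0 < t → Fl x t = x → t ∈ S := by
    intro t ht htx
    refine ⟨?_, htx⟩
    by_contra hlt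
    push Not at hlt
    exact hsh x (mem_of_mem_nhds hV) t ht hlt.le htx
  have hb : BddBelow S := ⟨δ, fun t ht => ht.1⟩
  have hm := hSc.csInf_mem ⟨T₀, hmem T₀ hT₀ hT₀'⟩ hb
  exact ⟨sInf S, lt_of_lt_of_le hδ hm.1, hm.2, fun T' h1 h2 => csInf_le hb (hmem T' h1 h2)⟩

lemma MinPer.image {g : M → M} (hi : Function.Injective g)
    (hgc : ∀ x t, g (Fl x t) = Fl (g x) t) {x : M} {T : ℝ} (h : MinPer Fl x T) :
    MinPer Fl (g x) T := by
  refine ⟨by rw [← hgc, h.1], fun T' h1 h2 => h.2 T' h1 ?_⟩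
  rw [← hgc] at h2
  exact hi h2

lemma minPer_nhds [T2Space M] (c : CD β R) (hF : RF β R Fl) {x : M} {T : ℝ} (hT : 0 < T)
    (h : MinPer Fl x T) (hn : ∀ᶠ y in 𝓝 x, Fl y T = y) : ∀ᶠ y in 𝓝 x, MinPer Fl y T := by
  obtain ⟨V, hV, δ, hδ, hsh⟩ := exists_short c hF x
  set d := min δ (T / 2) with hd
  have hd0 : 0 < d := by positivity
  have hdδ : d ≤ δ := min_le_left _ _
  have h1 : ∀ᶠ y in 𝓝 x, ∀ t ∈ Icc d (T - d), Fl y t ≠ y := by
    apply isCompact_Icc.eventually_forall_of_forall_eventually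
    intro t ht
    have hne : Fl x t ≠ x := by
      intro hcon
      have := h.2 t (by linarith [ht.1]) hcon
      linarith [ht.2]
    have ho : IsOpen {q : M × ℝ | Fl q.1 q.2 ≠ q.1} :=
      isOpen_ne_fun (continuous_flow hF) continuous_fst
    exact ho.mem_nhds hne
  filter_upwards [h1, hn, hV] with y hy1 hy2 hy3
  refine ⟨hy2, fun T' hT' hyT' => ?_⟩
  by_contra hlt
  push Not at hlt
  rcases le_or_gt T' d with h2 | h2
  · exact hsh y hy3 T' hT' (h2.trans hdδ) hyT'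
  rcases le_or_gt T' (T - d) with h3 | h3
  · exact hy1 T' ⟨h2.le, h3⟩ hyT'
  · refine hsh y hy3 (T - T') (by linarith) (by linarith) ?_
    have h4 : Fl (Fl y T') (T - T') = y := by
      rw [← hF.add, add_sub_cancel, hy2]
    rwa [hyT'] at h4

theorem finA [T2Space M] [CompactSpace M] (c : CD β R) (hF : RF β R Fl)
    (G : Subgroup (Equiv.Perm M)) (hG : ∀ g ∈ G, ContMDiff 𝓘(ℝ, E) 𝓘(ℝ, E) 1 g)
    (hGc : ∀ g ∈ G, ∀ x t, g (Fl x t) = Fl (g x) t)
    (hGs : ∀ g ∈ G, ∀ (x : M) (u : TangentSpace 𝓘(ℝ, E) x),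
      β (g x) (mfderiv 𝓘(ℝ, E) 𝓘(ℝ, E) g x u) = β x u)
    (x : M) (hx : ¬ IsMeagre {y | ∃ g ∈ G, g x = y}) :
    ∃ T > 0, ∃ U : Set M, IsOpen U ∧ {y | ∃ g ∈ G, g x = y} ⊆ U ∧ (∀ y ∈ U, MinPer Fl y T) ∧
      ∀ y ∈ closure {y | ∃ g ∈ G, g x = y}, Fl y T = y := by
  obtain ⟨z, hz, hzr⟩ := exists_recur c hF hx
  have hzx := orbit_eq G hz
  have hzn : ¬ IsMeagre {y | ∃ g ∈ G, g z = y} := by rw [hzx]; exact hx
  obtain ⟨T, hT, hzT⟩ := exists_minPer c hF z (periodic_of_strict c hF G hG hGc hGs z hzn hzr)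
  have h1 : ∀ y ∈ {y | ∃ g ∈ G, g x = y}, MinPer Fl y T := by
    rw [← hzx]
    rintro _ ⟨g, hg, rfl⟩
    exact hzT.image g.injective (hGc g hg)
  have h2 : ∀ y ∈ closure {y | ∃ g ∈ G, g x = y}, Fl y T = y := by
    have hcl : IsClosed {y : M | Fl y T = y} :=
      isClosed_eq (hF.smooth_t T).continuous continuous_id
    exact closure_minimal (fun y hy => (h1 y hy).1) hcl
  refine ⟨T, hT, interior {y | MinPer Fl y T}, isOpen_interior, ?_,
    fun y hy => (interior_subset hy : y ∈ {y | MinPer Fl y T}), h2⟩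
  intro y hy
  rw [mem_interior_iff_mem_nhds]
  apply minPer_nhds c hF hT (h1 y hy)
  have hyx := orbit_eq G hy
  have hyn : ¬ IsMeagre {w | ∃ g ∈ G, g y = w} := by rw [hyx]; exact hx
  have h3 := closure_orbit_mem G hG y hyn
  rw [hyx] at h3
  filter_upwards [h3] with w hw
  exact h2 w hw

end Pool.Agent.J4H20.HT
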