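import Mathlib
import Pool.Agent.J4H20.HT.FinA

/-! Reeb flows with transitive centralizer are periodic. -/

open scoped Topology ContDiff Manifold
open Set Metric Bundle Filter MeasureTheory Pool.Agent.Helper186 Pool.Agent.H826R2.Wein
  Pool.Agent.W671.WU Pool.Agent.R774.Root

noncomputable section

namespace Pool.Agent.J4H20.HT

set_option linter.unusedSectionVars false

variable {E : Type*} [NormedAddCommGroup E] [NormedSpace ℝ E]
  {M : Type*} [TopologicalSpace M] [ChartedSpace E M] [IsManifold 𝓘(ℝ, E) ∞ M]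
  {β : (x : M) → TangentSpace 𝓘(ℝ, E) x →L[ℝ] ℝ}
    {R : (x : M) → TangentSpace 𝓘(ℝ, E) x} {Fl : M → ℝ → M}

/-- the derivative of a map -/
def dd (E : Type*) [NormedAddCommGroup E] [NormedSpace ℝ E] {M : Type*} [TopologicalSpace M]
    [ChartedSpace E M] (g : M → M) (x : M) : E →L[ℝ] E :=
  mfderiv 𝓘(ℝ, E) 𝓘(ℝ, E) g x

omit [IsManifold 𝓘(ℝ, E) ∞ M] in
lemma dd_comp {g h : M → M} (hg : ContMDiff 𝓘(ℝ, E) 𝓘(ℝ, E) 1 g)
    (hh : ContMDiff 𝓘(ℝ, E) 𝓘(ℝ, E) 1 h) (x : M) (v : E) :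
    dd E (h ∘ g) x v = dd E h (g x) (dd E g x v) := by
  have h1 := mfderiv_comp x (hh.mdifferentiableAt one_ne_zero (x := g x))
    (hg.mdifferentiableAt one_ne_zero (x := x))
  show (mfderiv 𝓘(ℝ, E) 𝓘(ℝ, E) (h ∘ g) x v : E) = _
  rw [h1]
  rfl

variable [FiniteDimensional ℝ E]

theorem periodic_of_transitive [T2Space M] [CompactSpace M] (c : CD β R) (hF : RF β R Fl)
    (G : Subgroup (Equiv.Perm M)) (hG : ∀ g ∈ G, ContMDiff 𝓘(ℝ, E) 𝓘(ℝ, E) 1 g)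
    (hGc : ∀ g ∈ G, ∀ x t, g (Fl x t) = Fl (g x) t)
    (hGR : ∀ g ∈ G, ∀ x : M, dd E g x (R x) = R (g x))
    (htr : ∀ x y, ∃ g ∈ G, g x = y) (x₀ : M) (hr : Recur Fl x₀) :
    ∃ T > 0, Fl x₀ T = x₀ := by
  by_contra hcon
  push Not at hcon
  obtain ⟨t, s, v, ht, hs, hv, hv1, hv0⟩ := exists_times c hF x₀ hr hcon
  have hnm : ∀ x, ¬ IsMeagre {y | ∃ g ∈ G, g x = y} := by
    intro x
    have h1 : {y | ∃ g ∈ G, g x = y} = univ := eq_univ_of_forall fun y => htr x y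
    rw [h1]
    exact not_isMeagre_of_isOpen isOpen_univ ⟨x, trivial⟩
  -- the displacements
  have hdisp : ∀ g ∈ G, Tendsto (fun k => (s k)⁻¹ • (extChartAt 𝓘(ℝ, E) (g x₀) (Fl (g x₀) (t k)) -
      extChartAt 𝓘(ℝ, E) (g x₀) (g x₀))) atTop (𝓝 (dd E g x₀ v)) := by
    intro g hg
    have h1 : HasFDerivWithinAt (tr x₀ (g x₀) g) (dd E g x₀) (range 𝓘(ℝ, E))
        (extChartAt 𝓘(ℝ, E) x₀ x₀) :=
      ((hG g hg).mdifferentiableAt one_ne_zero (x := x₀)).hasMFDerivAt.2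
    rw [ModelWithCorners.range_eq_univ] at h1
    have h2 : Tendsto (fun k => extChartAt 𝓘(ℝ, E) x₀ (Fl x₀ (t k)) - extChartAt 𝓘(ℝ, E) x₀ x₀)
        atTop (𝓝 0) := by
      have h3 := ((continuousAt_extChartAt (I := 𝓘(ℝ, E)) x₀).tendsto.comp ht).sub_const
        (extChartAt 𝓘(ℝ, E) x₀ x₀)
      rwa [sub_self] at h3
    have h4 := h1.lim h2 (Eventually.of_forall fun _ => mem_univ _) hv
    refine h4.congr' ?_
    have hsrc : ∀ᶠ k in atTop, Fl x₀ (t k) ∈ (extChartAt 𝓘(ℝ, E) x₀).source :=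
      ht.eventually ((isOpen_extChartAt_source (I := 𝓘(ℝ, E)) x₀).mem_nhds
        (mem_extChartAt_source x₀))
    filter_upwards [hsrc] with k hk
    rw [add_sub_cancel]
    unfold tr
    rw [(extChartAt 𝓘(ℝ, E) x₀).left_inv hk,
      (extChartAt 𝓘(ℝ, E) x₀).left_inv (mem_extChartAt_source x₀), hGc g hg]
  -- the action function
  let A : Equiv.Perm M → ℝ := fun g => β (g x₀) (dd E g x₀ v)
  have hcore : ∀ g ∈ G, ∀ ε > 0, ∃ r > 0, ∀ h ∈ G,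
      h x₀ ∈ (extChartAt 𝓘(ℝ, E) (g x₀)).source →
      extChartAt 𝓘(ℝ, E) (g x₀) (h x₀) ∈ ball (extChartAt 𝓘(ℝ, E) (g x₀) (g x₀)) r →
      |A h - A g + extDer 𝓘(ℝ, E) β (g x₀) (dd E g x₀ v)
        (extChartAt 𝓘(ℝ, E) (g x₀) (h x₀) - extChartAt 𝓘(ℝ, E) (g x₀) (g x₀) : E)| ≤
      ε * ‖extChartAt 𝓘(ℝ, E) (g x₀) (h x₀) - extChartAt 𝓘(ℝ, E) (g x₀) (g x₀)‖ := by
    intro g hg ε hε
    have h1 : Tendsto (fun k => Fl (g x₀) (t k)) atTop (𝓝 (g x₀)) := by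
      have h2 := ((hG g hg).continuous.tendsto x₀).comp ht
      refine h2.congr fun k => ?_
      exact hGc g hg x₀ (t k)
    obtain ⟨r, hr0, hr'⟩ := core c.contact.smooth hF G hG hGc (g x₀) (hnm _) t h1 s hs
      (dd E g x₀ v) (hdisp g hg) hε
    refine ⟨r, hr0, fun h hh h3 h4 => ?_⟩
    have h5 : (h * g⁻¹) (g x₀) = h x₀ := by simp
    have h6 := hr' (h * g⁻¹) (G.mul_mem hh (G.inv_mem hg)) (by rw [h5]; exact h3)
      (by rw [h5]; exact h4)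
    have h7 : β ((h * g⁻¹) (g x₀)) (mfderiv 𝓘(ℝ, E) 𝓘(ℝ, E) (h * g⁻¹) (g x₀) (dd E g x₀ v)) =
        A h := by
      have h8 : ∀ (z : M) (w : E), z = h x₀ → w = dd E h x₀ v → β z w = β (h x₀) (dd E h x₀ v) := by
        rintro z w rfl rfl; rfl
      apply h8 _ _ h5
      have h9 := dd_comp (hG g hg) (hG (h * g⁻¹) (G.mul_mem hh (G.inv_mem hg))) x₀ v
      refine Eq.trans h9.symm ?_
      have h10 : ((h * g⁻¹ : Equiv.Perm M) : M → M) ∘ g = h := by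
        funext z; simp
      rw [h10]
    rw [h7, h5] at h6
    exact h6
  -- the action function depends only on the image point
  have hwd : ∀ g ∈ G, ∀ h ∈ G, h x₀ = g x₀ → A h = A g := by
    intro g hg h hh hgh
    obtain ⟨r, hr0, hr'⟩ := hcore g hg 1 one_pos
    have h1 := hr' h hh (by rw [hgh]; exact mem_extChartAt_source _)
      (by rw [hgh]; exact mem_ball_self hr0)
    have h2 : (extChartAt 𝓘(ℝ, E) (g x₀) (h x₀) - extChartAt 𝓘(ℝ, E) (g x₀) (g x₀) : E) = 0 := by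
      rw [hgh, sub_self]
    have h3 : extDer 𝓘(ℝ, E) β (g x₀) (dd E g x₀ v) (0 : E) = 0 := by
      rw [← extDerL_apply]
      exact map_zero _
    rw [h2, h3, norm_zero, mul_zero, add_zero] at h1
    have := abs_nonpos_iff.1 h1
    linarith
  choose γ hγ hγx using htr x₀
  let f : M → ℝ := fun y => A (γ y)
  have hf : ∀ g ∈ G, A g = f (g x₀) := fun g hg => hwd (γ (g x₀)) (hγ _) g hg (hγx _).symm
  -- the estimate for `f`
  have hfc : ∀ y : M, ∀ ε > 0, ∃ r > 0, ∀ z ∈ (extChartAt 𝓘(ℝ, E) y).source,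
      extChartAt 𝓘(ℝ, E) y z ∈ ball (extChartAt 𝓘(ℝ, E) y y) r →
      |f z - f y + extDer 𝓘(ℝ, E) β y (dd E (γ y) x₀ v)
        (extChartAt 𝓘(ℝ, E) y z - extChartAt 𝓘(ℝ, E) y y : E)| ≤
      ε * ‖extChartAt 𝓘(ℝ, E) y z - extChartAt 𝓘(ℝ, E) y y‖ := by
    intro y ε hε
    obtain ⟨r, hr0, hr'⟩ := hcore (γ y) (hγ y) ε hε
    rw [hγx y] at hr'
    refine ⟨r, hr0, fun z hz1 hz2 => ?_⟩
    have h1 := hr' (γ z) (hγ z) (by rw [hγx z]; exact hz1) (by rw [hγx z]; exact hz2)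
    rw [hγx z] at h1
    exact h1
  have hcont : Continuous f := by
    rw [continuous_iff_continuousAt]
    intro y
    obtain ⟨r, hr0, hr'⟩ := hfc y 1 one_pos
    let L : E →L[ℝ] ℝ := extDerL 𝓘(ℝ, E) β y (dd E (γ y) x₀ v)
    have hκ := continuousAt_extChartAt (I := 𝓘(ℝ, E)) y
    have h1 : Tendsto (fun z => (extChartAt 𝓘(ℝ, E) y z - extChartAt 𝓘(ℝ, E) y y : E))
        (𝓝 y) (𝓝 0) := by
      have h2 := hκ.tendsto.sub_const (extChartAt 𝓘(ℝ, E) y y)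
      rwa [sub_self] at h2
    have h2 : Tendsto (fun z => 1 * ‖extChartAt 𝓘(ℝ, E) y z - extChartAt 𝓘(ℝ, E) y y‖ +
        |L (extChartAt 𝓘(ℝ, E) y z - extChartAt 𝓘(ℝ, E) y y)|) (𝓝 y) (𝓝 0) := by
      have h3 := (h1.norm.const_mul 1).add ((L.continuous.tendsto 0).comp h1).abs
      simpa using h3
    rw [ContinuousAt, tendsto_iff_norm_sub_tendsto_zero]
    refine squeeze_zero' (Eventually.of_forall fun z => norm_nonneg _) ?_ h2
    filter_upwards [(isOpen_extChartAt_source (I := 𝓘(ℝ, E)) y).mem_nhds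
      (mem_extChartAt_source y), hκ.eventually (ball_mem_nhds _ hr0)] with z hz1 hz2
    have h4 := hr' z hz1 hz2
    rw [Real.norm_eq_abs]
    have h5 : f z - f y = (f z - f y + L (extChartAt 𝓘(ℝ, E) y z - extChartAt 𝓘(ℝ, E) y y)) -
      L (extChartAt 𝓘(ℝ, E) y z - extChartAt 𝓘(ℝ, E) y y) := by ring
    rw [h5]
    exact (abs_sub _ _).trans (add_le_add_left h4 _)
  obtain ⟨x₁, -, hmax⟩ := isCompact_univ.exists_isMaxOn ⟨x₀, mem_univ x₀⟩ hcont.continuousOn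
  have hmax' : ∀ z, f z ≤ f x₁ := fun z => hmax (mem_univ z)
  let L : E →L[ℝ] ℝ := extDerL 𝓘(ℝ, E) β x₁ (dd E (γ x₁) x₀ v)
  have hL : ∀ w, L w = 0 := by
    apply lin_zero
    intro ε hε
    obtain ⟨r, hr0, hr'⟩ := hfc x₁ ε hε
    obtain ⟨r', hr'0, hsub⟩ := Metric.mem_nhds_iff.1
      (inter_mem ((isOpen_extChartAt_target (I := 𝓘(ℝ, E)) x₁).mem_nhds
        (mem_extChartAt_target x₁)) (ball_mem_nhds (extChartAt 𝓘(ℝ, E) x₁ x₁) hr0))
    refine ⟨r', hr'0, fun u hu => ?_⟩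
    have hub : extChartAt 𝓘(ℝ, E) x₁ x₁ + u ∈ ball (extChartAt 𝓘(ℝ, E) x₁ x₁) r' := by
      rw [mem_ball, dist_eq_norm, add_sub_cancel_left]; exact hu
    obtain ⟨h1, h2⟩ := hsub hub
    have h3 := hr' _ ((extChartAt 𝓘(ℝ, E) x₁).map_target h1)
      (by rw [(extChartAt 𝓘(ℝ, E) x₁).right_inv h1]; exact h2)
    rw [(extChartAt 𝓘(ℝ, E) x₁).right_inv h1, add_sub_cancel_left] at h3
    have h4 := (abs_le.1 h3).1
    have h5 := hmax' ((extChartAt 𝓘(ℝ, E) x₁).symm (extChartAt 𝓘(ℝ, E) x₁ x₁ + u))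
    have h6 : extDer 𝓘(ℝ, E) β x₁ (dd E (γ x₁) x₀ v) u = L u := rfl
    rw [h6] at h4
    linarith
  -- `D g₁ v` is proportional to the Reeb field
  set g₁ := γ x₁ with hg₁
  have hg₁x : g₁ x₀ = x₁ := hγx x₁
  set b : ℝ := β x₁ (dd E g₁ x₀ v) with hb
  let R1 : E := R x₁
  let R0 : E := R x₀
  let B1 : E →L[ℝ] ℝ := β x₁
  let B0 : E →L[ℝ] ℝ := β x₀
  let X1 : E →L[ℝ] E →L[ℝ] ℝ := extDerL 𝓘(ℝ, E) β x₁
  have h1 : dd E g₁ x₀ v - b • R1 = 0 := by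
    apply HB_nondeg c.contact c.reeb x₁
    intro w
    have e1 : β x₁ (dd E g₁ x₀ v - b • R1 : E) = 0 := by
      have e2 : B1 (dd E g₁ x₀ v - b • R1) = B1 (dd E g₁ x₀ v) - b * B1 R1 := by
        rw [map_sub, map_smul, smul_eq_mul]
      have e3 : B1 R1 = 1 := c.reeb.unit x₁
      rw [e3, mul_one] at e2
      exact e2.trans (sub_self _)
    rw [HB_apply, e1, zero_mul, zero_add]
    have e4 : extDer 𝓘(ℝ, E) β x₁ (dd E g₁ x₀ v - b • R1 : E) w =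
        X1 (dd E g₁ x₀ v) w - b * X1 R1 w := by
      have e5 : X1 (dd E g₁ x₀ v - b • R1) = X1 (dd E g₁ x₀ v) - b • X1 R1 := by
        rw [map_sub, map_smul]
      exact DFunLike.congr_fun e5 w
    rw [e4]
    have e7 : X1 R1 w = 0 := c.reeb.kernel x₁ w
    have e8 : X1 (dd E g₁ x₀ v) w = 0 := hL w
    rw [e7, e8]
    ring
  have h2 : dd E g₁ x₀ (v - b • R0) = 0 := by
    rw [map_sub, map_smul, hGR g₁ (hγ x₁) x₀]
    have e1 : ∀ z : M, z = x₁ → (R z : E) = R x₁ := by rintro z rfl; rfl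
    rw [e1 _ hg₁x]
    exact h1
  have h3 : v - b • R0 = 0 := by
    have h4 := dd_comp (hG g₁ (hγ x₁)) (hG g₁⁻¹ (G.inv_mem (hγ x₁))) x₀ (v - b • R0)
    rw [h2, map_zero] at h4
    have h5 : ((g₁⁻¹ : Equiv.Perm M) : M → M) ∘ g₁ = id := by
      funext z; simp
    rw [h5] at h4
    have h6 : dd E (id : M → M) x₀ (v - b • R0) = v - b • R0 := by
      unfold dd
      rw [mfderiv_id]
      rfl
    rw [← h6]
    exact h4
  have h4 : b = 0 := by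
    have h5 : v = b • R0 := sub_eq_zero.1 h3
    have h6 : β x₀ (b • R0 : E) = b := by
      have e3 := map_smul (β x₀) b (R x₀)
      rw [c.reeb.unit, smul_eq_mul, mul_one] at e3
      exact e3
    rw [← h5] at h6
    rw [← h6]
    exact hv0
  rw [h4, zero_smul, sub_zero] at h3
  rw [h3, norm_zero] at hv1
  exact zero_ne_one hv1

theorem finB [T2Space M] [CompactSpace M] [Nonempty M] (c : CD β R) (hF : RF β R Fl)
    (G : Subgroup (Equiv.Perm M)) (hG : ∀ g ∈ G, ContMDiff 𝓘(ℝ, E) 𝓘(ℝ, E) 1 g)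
    (hGc : ∀ g ∈ G, ∀ x t, g (Fl x t) = Fl (g x) t)
    (hGR : ∀ g ∈ G, ∀ x : M, dd E g x (R x) = R (g x))
    (htr : ∀ x y, ∃ g ∈ G, g x = y) : ∃ T > 0, ∀ x, MinPer Fl x T := by
  obtain ⟨x₀, -, hx₀⟩ := exists_recur c hF (S := univ)
    (not_isMeagre_of_isOpen isOpen_univ univ_nonempty)
  obtain ⟨T, hT, hxT⟩ := exists_minPer c hF x₀
    (periodic_of_transitive c hF G hG hGc hGR htr x₀ hx₀)
  refine ⟨T, hT, fun x => ?_⟩
  obtain ⟨g, hg, rfl⟩ := htr x₀ x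
  exact hxT.image g.injective (hGc g hg)

end Pool.Agent.J4H20.HT
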