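import Mathlib
import Pool.Agent.J4H20.HT.FinB
import Pool.Agent.H826R2.Wein.Bridge

/-! From the groups of the statements to the working groups. -/

open scoped Topology ContDiff Manifold
open Set Metric Bundle Filter Pool.Agent.Helper186 Pool.Agent.H826R2 Pool.Agent.H826R2.WStmt
  Pool.Agent.W671 Pool.Agent.R774.Root

noncomputable section

namespace Pool.Agent.J4H20.HT

set_option linter.unusedSectionVars false

variable {E : Type*} [NormedAddCommGroup E] [NormedSpace ℝ E]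
  {M : Type*} [TopologicalSpace M] [ChartedSpace E M] [IsManifold 𝓘(ℝ, E) ∞ M]

omit [IsManifold 𝓘(ℝ, E) ∞ M] in
lemma dd_id (x : M) (v : E) : dd E (id : M → M) x v = v := by
  unfold dd
  rw [mfderiv_id]
  rfl

omit [IsManifold 𝓘(ℝ, E) ∞ M] in
lemma dd_symm {g : M ≃ M} (hg : ContMDiff 𝓘(ℝ, E) 𝓘(ℝ, E) 1 g)
    (hg' : ContMDiff 𝓘(ℝ, E) 𝓘(ℝ, E) 1 g.symm) (x : M) (v : E) :
    dd E g.symm (g x) (dd E g x v) = v := by
  rw [← dd_comp hg hg']
  have h1 : (g.symm : M → M) ∘ g = id := by funext z; simp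
  rw [h1, dd_id]

/-- the `C¹` centralizer of a vector field -/
def cent (R : M → E) : Subgroup (Equiv.Perm M) where
  carrier := {g | ContMDiff 𝓘(ℝ, E) 𝓘(ℝ, E) 1 g ∧ ContMDiff 𝓘(ℝ, E) 𝓘(ℝ, E) 1 g.symm ∧
    ∀ z, dd E g z (R z) = R (g z)}
  mul_mem' := by
    rintro g h ⟨g1, g2, g3⟩ ⟨h1, h2, h3⟩
    refine ⟨g1.comp h1, h2.comp g2, fun z => ?_⟩
    have e := dd_comp h1 g1 z (R z)
    rw [h3, g3] at e
    exact e
  one_mem' := ⟨contMDiff_id, contMDiff_id, fun z => dd_id z _⟩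
  inv_mem' := by
    rintro g ⟨g1, g2, g3⟩
    refine ⟨g2, g1, fun z => ?_⟩
    have e := dd_symm g1 g2 (g.symm z) (R (g.symm z))
    rw [g3, g.apply_symm_apply] at e
    exact e

lemma mem_cent (R : M → E) (g : Equiv.Perm M) : g ∈ cent (E := E) R ↔
    ContMDiff 𝓘(ℝ, E) 𝓘(ℝ, E) 1 g ∧ ContMDiff 𝓘(ℝ, E) 𝓘(ℝ, E) 1 g.symm ∧
    ∀ z, dd E g z (R z) = R (g z) := Iff.rfl

/-- the `C¹` diffeomorphisms preserving a form and a vector field -/
def strictC (β : M → E →L[ℝ] ℝ) (R : M → E) : Subgroup (Equiv.Perm M) where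
  carrier := {g | g ∈ cent (E := E) R ∧ ∀ z u, β (g z) (dd E g z u) = β z u}
  mul_mem' := by
    rintro g h ⟨g1, g2⟩ ⟨h1, h2⟩
    refine ⟨(cent R).mul_mem g1 h1, fun z u => ?_⟩
    have e : dd E (g * h : Equiv.Perm M) z u = dd E g (h z) (dd E h z u) :=
      dd_comp h1.1 g1.1 z u
    rw [e]
    show β (g (h z)) _ = _
    rw [g2, h2]
  one_mem' := ⟨(cent R).one_mem, fun z u => by
    have e : dd E (1 : Equiv.Perm M) z u = u := dd_id z u
    rw [e]; rfl⟩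
  inv_mem' := by
    rintro g ⟨g1, g2⟩
    refine ⟨(cent R).inv_mem g1, fun z u => ?_⟩
    show β (g.symm z) (dd E g.symm z u) = β z u
    have e1 := dd_symm g1.2.1 g1.1 z u
    rw [g.symm_symm] at e1
    have e2 := g2 (g.symm z) (dd E g.symm z u)
    rw [e1, g.apply_symm_apply] at e2
    exact e2.symm

variable [FiniteDimensional ℝ E]

/-- diffeomorphisms preserving the field commute with the flow -/
lemma cent_comm [T2Space M] {β : (x : M) → TangentSpace 𝓘(ℝ, E) x →L[ℝ] ℝ}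
    {R : (x : M) → TangentSpace 𝓘(ℝ, E) x} {Fl : M → ℝ → M} (c : Wein.CD β R)
    (hF : WU.RF β R Fl) {g : M → M} (hg : ContMDiff 𝓘(ℝ, E) 𝓘(ℝ, E) 1 g)
    (hR : ∀ z, dd E g z (R z) = R (g z)) (x : M) (t : ℝ) : g (Fl x t) = Fl (g x) t := by
  have : IsManifold 𝓘(ℝ, E) 1 M := IsManifold.of_le (n := ∞) (by simp)
  have h1 : IsMIntegralCurve (I := 𝓘(ℝ, E)) (fun t => g (Fl x t)) R := by
    intro s
    have h2 := HasMFDerivAt.comp s (g := g) (f := Fl x)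
      (hg.mdifferentiableAt one_ne_zero).hasMFDerivAt (hF.int x s)
    refine h2.congr_mfderiv ?_
    refine ContinuousLinearMap.ext fun (r : ℝ) => ?_
    have h3 := hR (Fl x s)
    show (mfderiv 𝓘(ℝ, E) 𝓘(ℝ, E) g (Fl x s)) ((r • R (Fl x s) : E)) =
      r • R (g (Fl x s))
    have h4 : (mfderiv 𝓘(ℝ, E) 𝓘(ℝ, E) g (Fl x s)) ((r • R (Fl x s) : E)) =
      (r • (mfderiv 𝓘(ℝ, E) 𝓘(ℝ, E) g (Fl x s) (R (Fl x s)) : E) : E) :=
      map_smul (mfderiv 𝓘(ℝ, E) 𝓘(ℝ, E) g (Fl x s)) _ _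
    rw [h4]
    exact congrArg (fun w : E => r • w) h3
  have h2 : (fun t => g (Fl x t)) = Fl (g x) := by
    refine isMIntegralCurve_Ioo_eq_of_contMDiff_boundaryless (t₀ := 0)
      ((WU.smooth_reeb c).of_le (by simp)) h1 (hF.int _) ?_
    rw [hF.zero, hF.zero]
  exact congrFun h2 t

/-- from the minimal period to the periodic orbit -/
lemma MinPer.orbit {β : (x : M) → TangentSpace 𝓘(ℝ, E) x →L[ℝ] ℝ}
    {R : M → E} {Fl : M → ℝ → M}
    (hF : WU.RF β (fun x => (R x : TangentSpace 𝓘(ℝ, E) x)) Fl) {x : M} {T : ℝ} (hT : 0 < T)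
    (h : Fl x T = x) : IsPeriodicOrbit R (Fl x) T :=
  ⟨hT, hF.int x, fun t => by rw [add_comm, hF.add, h]⟩

theorem exists_flow [T2Space M] [CompactSpace M] {α : M → Cov E} (hα : IsContact α) {R : M → E}
    (hR : IsReeb α R) : Wein.CD (toForm α) (fun x => (R x : TangentSpace 𝓘(ℝ, E) x)) ∧
    ∃ Fl : M → ℝ → M, WU.RF (toForm α) (fun x => (R x : TangentSpace 𝓘(ℝ, E) x)) Fl := by
  have : IsManifold 𝓘(ℝ, E) 1 M := IsManifold.of_le (n := ∞) (by simp)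
  have c : Wein.CD (toForm α) (fun x => (R x : TangentSpace 𝓘(ℝ, E) x)) := ⟨hα.toWein, hR.toWein⟩
  have hRs := WU.smooth_reeb c
  choose Fl hF0 hF using fun x : M => Wein.complete_of_compact hRs isCompact_univ
    (fun y hy => absurd (mem_univ y) hy) x
  exact ⟨c, Fl, WU.RF.of c hF0 hF⟩

end Pool.Agent.J4H20.HT
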