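import Mathlib
import Pool.Agent.J4H20.HT.Loc

/-! Maps locally tending to the identity with derivatives bounded and bounded away from `-1`. -/

open Set Filter Metric
open scoped Topology ContDiff

namespace Pool.Agent.J4H20.HT

variable {E : Type*} [NormedAddCommGroup E] [NormedSpace ℝ E]
  {F : Type*} [NormedAddCommGroup F] [NormedSpace ℝ F]

/-- near `p` the maps `ψ k` tend to the identity, with derivatives bounded and bounded away
from `-1` -/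
def WE (ψ : ℕ → E → E) (p : E) : Prop :=
  ∃ r > 0, ∃ C > 0, (∀ ε > 0, ∀ᶠ k in atTop, ∀ y ∈ ball p r, ‖ψ k y - y‖ ≤ ε) ∧
    ∀ᶠ k in atTop, ∀ y ∈ ball p r, DifferentiableAt ℝ (ψ k) y ∧
      ∀ w, ‖fderiv ℝ (ψ k) y w‖ ≤ C * ‖w‖ ∧ ‖w‖ ≤ C * ‖fderiv ℝ (ψ k) y w + w‖

lemma WE.ball_sub {ψ : ℕ → E → E} {p : E} (h : WE ψ p) : ∃ r > 0, ∀ q ∈ ball p r, WE ψ q := by
  obtain ⟨r, hr, C, hC, h1, h2⟩ := h
  refine ⟨r, hr, fun q hq => ?_⟩
  rw [mem_ball] at hq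
  have hsub : ball q (r - dist q p) ⊆ ball p r := ball_subset_ball' (by linarith)
  refine ⟨r - dist q p, by linarith, C, hC, fun ε hε => ?_, ?_⟩
  · filter_upwards [h1 ε hε] with k hk y hy
    exact hk y (hsub hy)
  · filter_upwards [h2] with k hk y hy
    exact hk y (hsub hy)

lemma Near.we {ψ : ℕ → E → E} {p : E} (h : Near p ψ)
    (h0 : Tendsto (fun k => ψ k p) atTop (𝓝 p)) : WE ψ p := by
  obtain ⟨r₁, hr₁, h1⟩ := h 1 one_pos
  obtain ⟨r₂, hr₂, h2⟩ := h.deriv h0 (ε := 1 / 2) (by norm_num)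
  refine ⟨min r₁ r₂, by positivity, 2, by norm_num, fun ε hε => ?_, ?_⟩
  · have h3 : ∀ᶠ k in atTop, ‖ψ k p - p‖ < ε / 2 := by
      have h4 : Tendsto (fun k => ‖ψ k p - p‖) atTop (𝓝 0) :=
        tendsto_iff_norm_sub_tendsto_zero.1 h0
      exact h4.eventually (gt_mem_nhds (by positivity))
    filter_upwards [h1, h3] with k hk hk2 y hy
    have h5 := (hk y (ball_subset_ball (min_le_left _ _) hy)).2.1
    have h6 : ψ k y - y = (ψ k y - y - (ψ k p - p)) + (ψ k p - p) := by abel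
    rw [h6]
    refine (norm_add_le _ _).trans ?_
    linarith
  · filter_upwards [h1, h2] with k hk hk2 y hy
    refine ⟨(hk y (ball_subset_ball (min_le_left _ _) hy)).1, fun w => ?_⟩
    have h3 := hk2 y (ball_subset_ball (min_le_right _ _) hy)
    set T := fderiv ℝ (ψ k) y with hT
    have h4 : ‖T w - w‖ ≤ 1 / 2 * ‖w‖ := by
      have h5 : T w - w = (T - ContinuousLinearMap.id ℝ E) w := rfl
      rw [h5]
      exact ((T - ContinuousLinearMap.id ℝ E).le_opNorm w).trans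
        (mul_le_mul_of_nonneg_right h3 (norm_nonneg w))
    have hw := norm_nonneg w
    constructor
    · have h5 : T w = (T w - w) + w := by abel
      rw [h5]
      refine (norm_add_le _ _).trans ?_
      linarith
    · have h5 : (2:ℝ) • w = (T w + w) - (T w - w) := by
        rw [two_smul]; abel
      have h6 : ‖(2:ℝ) • w‖ = 2 * ‖w‖ := by
        rw [norm_smul]; norm_num
      have h7 : ‖(2:ℝ) • w‖ ≤ ‖T w + w‖ + ‖T w - w‖ := by
        rw [h5]; exact norm_sub_le _ _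
      rw [h6] at h7
      linarith

/-- the estimates after composition with an immersion -/
lemma WE.est {ψ : ℕ → E → E} {q : E} (h : WE ψ q) {ϑ : E → F} (hϑ : ContDiffAt ℝ 1 ϑ q) {A : ℝ}
    (hA : 0 < A) (hinj : ∀ b, ‖b‖ ≤ A * ‖fderiv ℝ ϑ q b‖) :
    ∃ r > 0, ∃ C > 0, (∀ ε > 0, ∀ᶠ k in atTop, ∀ b ∈ ball q r, ‖ϑ (ψ k b) - ϑ b‖ ≤ ε) ∧
      ∀ᶠ k in atTop, ∀ b ∈ ball q r, DifferentiableAt ℝ ϑ b ∧ DifferentiableAt ℝ ϑ (ψ k b) ∧
        DifferentiableAt ℝ (ψ k) b ∧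
        ∀ ζ, ‖fderiv ℝ ϑ (ψ k b) (fderiv ℝ (ψ k) b ζ)‖ ≤ C * ‖fderiv ℝ ϑ b ζ‖ ∧
          ‖fderiv ℝ ϑ b ζ‖ ≤ C * ‖fderiv ℝ ϑ (ψ k b) (fderiv ℝ (ψ k) b ζ) + fderiv ℝ ϑ b ζ‖ := by
  obtain ⟨r, hr, C, hC, h1, h2⟩ := h
  set L := fderiv ℝ ϑ q with hL
  set B : ℝ := ‖L‖ + 1 with hB
  have hB0 : 0 < B := by positivity
  set η : ℝ := min 1 (min (1 / (2 * A)) (1 / (16 * A ^ 2 * B * C ^ 2))) with hη
  have hη0 : 0 < η := by positivity
  have hη1 : η ≤ 1 := min_le_left _ _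
  have hη2 : η * (2 * A) ≤ 1 := by
    have h3 : η ≤ 1 / (2 * A) := (min_le_right _ _).trans (min_le_left _ _)
    rwa [le_div_iff₀ (by positivity)] at h3
  have hη3 : η * (16 * A ^ 2 * B * C ^ 2) ≤ 1 := by
    have h3 : η ≤ 1 / (16 * A ^ 2 * B * C ^ 2) := (min_le_right _ _).trans (min_le_right _ _)
    rwa [le_div_iff₀ (by positivity)] at h3
  -- the ball on which the derivative of `ϑ` is almost constant
  have hcont : ContinuousAt (fderiv ℝ ϑ) q := (hϑ.fderiv_right (m := 0) (by simp)).continuousAt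
  have hdiff : ∀ᶠ b in 𝓝 q, DifferentiableAt ℝ ϑ b :=
    (hϑ.eventually (by simp)).mono fun b hb => hb.differentiableAt one_ne_zero
  have hclose : ∀ᶠ b in 𝓝 q, ‖fderiv ℝ ϑ b - L‖ < η := by
    have h3 : Tendsto (fun b => ‖fderiv ℝ ϑ b - L‖) (𝓝 q) (𝓝 0) :=
      tendsto_iff_norm_sub_tendsto_zero.1 hcont
    exact h3.eventually (gt_mem_nhds hη0)
  obtain ⟨ρ, hρ, hball⟩ := Metric.mem_nhds_iff.1 (hdiff.and hclose)
  have hd : ∀ b ∈ ball q ρ, DifferentiableAt ℝ ϑ b := fun b hb => (hball hb).1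
  have hc : ∀ b ∈ ball q ρ, ‖fderiv ℝ ϑ b - L‖ ≤ η := fun b hb => (hball hb).2.le
  have hbd : ∀ b ∈ ball q ρ, ‖fderiv ℝ ϑ b‖ ≤ B := by
    intro b hb
    have h3 : fderiv ℝ ϑ b = (fderiv ℝ ϑ b - L) + L := by abel
    rw [h3]
    refine (norm_add_le _ _).trans ?_
    have := hc b hb
    linarith
  have hlow : ∀ b ∈ ball q ρ, ∀ ζ, ‖ζ‖ ≤ 2 * A * ‖fderiv ℝ ϑ b ζ‖ := by
    intro b hb ζ
    have h3 : ‖(fderiv ℝ ϑ b - L) ζ‖ ≤ η * ‖ζ‖ :=
      ((fderiv ℝ ϑ b - L).le_opNorm ζ).trans (mul_le_mul_of_nonneg_right (hc b hb) (norm_nonneg _))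
    have h4 : L ζ = fderiv ℝ ϑ b ζ - (fderiv ℝ ϑ b - L) ζ := by
      rw [_root_.sub_apply]; abel
    have h5 := hinj ζ
    have h6 : ‖L ζ‖ ≤ ‖fderiv ℝ ϑ b ζ‖ + η * ‖ζ‖ := by
      rw [h4]
      exact (norm_sub_le _ _).trans (by linarith)
    have h7 : ‖ζ‖ ≤ A * (‖fderiv ℝ ϑ b ζ‖ + η * ‖ζ‖) :=
      h5.trans (mul_le_mul_of_nonneg_left h6 hA.le)
    have h8 : A * (η * ‖ζ‖) ≤ 1 / 2 * ‖ζ‖ := by
      have := norm_nonneg ζ
      nlinarith
    nlinarith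
  have hstay : ∀ᶠ k in atTop, ∀ b ∈ ball q (min r (ρ / 2)), ψ k b ∈ ball q ρ := by
    filter_upwards [h1 (ρ / 2) (by positivity)] with k hk b hb
    have h3 := hk b (ball_subset_ball (min_le_left _ _) hb)
    have h4 : dist b q < ρ / 2 := mem_ball.1 (ball_subset_ball (min_le_right _ _) hb)
    rw [mem_ball]
    refine (dist_triangle _ b _).trans_lt ?_
    rw [dist_eq_norm]
    linarith
  refine ⟨min r (ρ / 2), by positivity, 4 * A * B * C, by positivity, fun ε hε => ?_, ?_⟩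
  · filter_upwards [h1 (ε / B) (by positivity), hstay] with k hk hk2 b hb
    have h3 := hk b (ball_subset_ball (min_le_left _ _) hb)
    have hb2 : b ∈ ball q ρ := ball_subset_ball (by linarith) (ball_subset_ball (min_le_right _ _) hb)
    have h4 := Convex.norm_image_sub_le_of_norm_fderiv_le (𝕜 := ℝ) (f := ϑ) (s := ball q ρ)
      hd hbd (convex_ball q ρ) hb2 (hk2 b hb)
    refine h4.trans ?_
    calc B * ‖ψ k b - b‖ ≤ B * (ε / B) := mul_le_mul_of_nonneg_left h3 hB0.le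
      _ = ε := by field_simp
  · filter_upwards [h2, hstay] with k hk hk2 b hb
    have hb1 : b ∈ ball q r := ball_subset_ball (min_le_left _ _) hb
    have hb2 : b ∈ ball q ρ := ball_subset_ball (by linarith) (ball_subset_ball (min_le_right _ _) hb)
    have hb3 := hk2 b hb
    obtain ⟨hdk, hest⟩ := hk b hb1
    refine ⟨hd b hb2, hd _ hb3, hdk, fun ζ => ?_⟩
    obtain ⟨e1, e2⟩ := hest ζ
    set T := fderiv ℝ (ψ k) b with hT
    set P := fderiv ℝ ϑ b with hP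
    set Q := fderiv ℝ ϑ (ψ k b) with hQ
    have k1 : ‖Q (T ζ)‖ ≤ B * ‖T ζ‖ :=
      (Q.le_opNorm _).trans (mul_le_mul_of_nonneg_right (hbd _ hb3) (norm_nonneg _))
    have k2 : ‖ζ‖ ≤ 2 * A * ‖P ζ‖ := hlow b hb2 ζ
    have k3 : ‖P ζ‖ ≤ B * ‖ζ‖ :=
      (P.le_opNorm _).trans (mul_le_mul_of_nonneg_right (hbd _ hb2) (norm_nonneg _))
    have k4 : ‖T ζ + ζ‖ ≤ 2 * A * ‖P (T ζ + ζ)‖ := hlow b hb2 _
    have k5 : ‖(P - Q) (T ζ)‖ ≤ 2 * η * ‖T ζ‖ := by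
      have h3 : P - Q = (P - L) - (Q - L) := by abel
      have h4 : ‖P - Q‖ ≤ 2 * η := by
        rw [h3]
        refine (norm_sub_le _ _).trans ?_
        have a1 := hc b hb2
        have a2 := hc _ hb3
        linarith
      exact ((P - Q).le_opNorm _).trans (mul_le_mul_of_nonneg_right h4 (norm_nonneg _))
    have k6 : ‖P (T ζ + ζ)‖ ≤ ‖Q (T ζ) + P ζ‖ + 2 * η * ‖T ζ‖ := by
      have h3 : P (T ζ + ζ) = (Q (T ζ) + P ζ) + (P - Q) (T ζ) := by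
        rw [map_add, _root_.sub_apply]; abel
      rw [h3]
      exact (norm_add_le _ _).trans (by linarith)
    have nζ := norm_nonneg ζ
    have nT := norm_nonneg (T ζ)
    have nP := norm_nonneg (P ζ)
    have nX := norm_nonneg (Q (T ζ) + P ζ)
    constructor
    · calc ‖Q (T ζ)‖ ≤ B * ‖T ζ‖ := k1
        _ ≤ B * (C * ‖ζ‖) := mul_le_mul_of_nonneg_left e1 hB0.le
        _ ≤ B * (C * (2 * A * ‖P ζ‖)) := by gcongr
        _ ≤ 4 * A * B * C * ‖P ζ‖ := by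
          have : 0 ≤ A * B * C * ‖P ζ‖ := by positivity
          nlinarith
    · have m1 : ‖P ζ‖ ≤ B * (C * (2 * A * (‖Q (T ζ) + P ζ‖ + 2 * η * (C * (2 * A * ‖P ζ‖))))) := by
        calc ‖P ζ‖ ≤ B * ‖ζ‖ := k3
          _ ≤ B * (C * ‖T ζ + ζ‖) := mul_le_mul_of_nonneg_left e2 hB0.le
          _ ≤ B * (C * (2 * A * ‖P (T ζ + ζ)‖)) := by gcongr
          _ ≤ B * (C * (2 * A * (‖Q (T ζ) + P ζ‖ + 2 * η * ‖T ζ‖))) := by gcongr
          _ ≤ B * (C * (2 * A * (‖Q (T ζ) + P ζ‖ + 2 * η * (C * ‖ζ‖)))) := by gcongr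
          _ ≤ B * (C * (2 * A * (‖Q (T ζ) + P ζ‖ + 2 * η * (C * (2 * A * ‖P ζ‖))))) := by gcongr
      have m2 : B * (C * (2 * A * (‖Q (T ζ) + P ζ‖ + 2 * η * (C * (2 * A * ‖P ζ‖))))) =
          2 * A * B * C * ‖Q (T ζ) + P ζ‖ + 1 / 2 * (η * (16 * A ^ 2 * B * C ^ 2)) * ‖P ζ‖ := by
        ring
      rw [m2] at m1
      have m3 : 1 / 2 * (η * (16 * A ^ 2 * B * C ^ 2)) * ‖P ζ‖ ≤ 1 / 2 * 1 * ‖P ζ‖ := by gcongr
      linarith

/-- change of coordinates -/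
lemma WE.conj {ψ ψ' : ℕ → E → E} {p q : E} (h : WE ψ q) {θ ϑ : E → E}
    (hθ : ContDiffAt ℝ 1 θ p) (hϑ : ContDiffAt ℝ 1 ϑ q) (hpq : θ p = q)
    (h1 : ∀ᶠ y in 𝓝 p, ϑ (θ y) = y) (h2 : ∀ᶠ b in 𝓝 q, θ (ϑ b) = b)
    (hψ : ∃ r > 0, ∀ᶠ k in atTop, ∀ y ∈ ball p r, ψ' k y = ϑ (ψ k (θ y))) : WE ψ' p := by
  have hqp : ϑ q = p := by
    have := h1.self_of_nhds
    rwa [hpq] at this
  -- the derivatives are inverse to each other
  have hdθ : ∀ᶠ y in 𝓝 p, DifferentiableAt ℝ θ y :=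
    (hθ.eventually (by simp)).mono fun b hb => hb.differentiableAt one_ne_zero
  have hdϑ : ∀ᶠ y in 𝓝 q, DifferentiableAt ℝ ϑ y :=
    (hϑ.eventually (by simp)).mono fun b hb => hb.differentiableAt one_ne_zero
  have hA : ∀ b, ‖b‖ ≤ (‖fderiv ℝ θ p‖ + 1) * ‖fderiv ℝ ϑ q b‖ := by
    intro b
    have e1 : HasFDerivAt (fun b => θ (ϑ b)) ((fderiv ℝ θ p).comp (fderiv ℝ ϑ q)) q := by
      have a1 : HasFDerivAt θ (fderiv ℝ θ p) (ϑ q) := by
        rw [hqp]; exact hdθ.self_of_nhds.hasFDerivAt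
      exact a1.comp q hdϑ.self_of_nhds.hasFDerivAt
    have e2 : HasFDerivAt (fun b => θ (ϑ b)) (ContinuousLinearMap.id ℝ E) q :=
      (hasFDerivAt_id q).congr_of_eventuallyEq h2
    have e3 := e1.unique e2
    have e4 : fderiv ℝ θ p (fderiv ℝ ϑ q b) = b := by
      have := DFunLike.congr_fun e3 b
      exact this
    have e5 := (fderiv ℝ θ p).le_opNorm (fderiv ℝ ϑ q b)
    rw [e4] at e5
    have := norm_nonneg (fderiv ℝ ϑ q b)
    nlinarith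
  obtain ⟨r, hr, C, hC, c1, c2⟩ := h.est hϑ (by positivity) hA
  obtain ⟨ρ, hρ, hρ'⟩ := hψ
  -- a good ball
  have hgood : ∀ᶠ y in 𝓝 p, θ y ∈ ball q r ∧ y ∈ ball p ρ ∧ DifferentiableAt ℝ θ y ∧
      ϑ (θ y) = y ∧ ∀ᶠ y' in 𝓝 y, ϑ (θ y') = y' := by
    have a1 : ∀ᶠ y in 𝓝 p, θ y ∈ ball q r := by
      apply hdθ.self_of_nhds.continuousAt.eventually
      rw [hpq]
      exact ball_mem_nhds q hr
    filter_upwards [a1, ball_mem_nhds p hρ, hdθ, h1, h1.eventually_nhds] with y b1 b2 b3 b4 b5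
    exact ⟨b1, b2, b3, b4, b5⟩
  obtain ⟨δ, hδ, hδ'⟩ := Metric.mem_nhds_iff.1 hgood
  refine ⟨δ, hδ, C, hC, fun ε hε => ?_, ?_⟩
  · filter_upwards [c1 ε hε, hρ'] with k hk hk2 y hy
    obtain ⟨b1, b2, b3, b4, b5⟩ := hδ' hy
    have e1 := hk (θ y) b1
    rw [← hk2 y b2, b4] at e1
    exact e1
  · filter_upwards [c2, hρ'] with k hk hk2 y hy
    obtain ⟨b1, b2, b3, b4, b5⟩ := hδ' hy
    obtain ⟨d1, d2, d3, hest⟩ := hk (θ y) b1
    have hev : ψ' k =ᶠ[𝓝 y] fun y => ϑ (ψ k (θ y)) := by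
      filter_upwards [isOpen_ball.mem_nhds b2] with y' hy'
      exact hk2 y' hy'
    have hf : HasFDerivAt (fun y => ϑ (ψ k (θ y)))
        ((fderiv ℝ ϑ (ψ k (θ y))).comp ((fderiv ℝ (ψ k) (θ y)).comp (fderiv ℝ θ y))) y :=
      HasFDerivAt.comp y (g := ϑ) d2.hasFDerivAt
        (HasFDerivAt.comp y (g := ψ k) d3.hasFDerivAt b3.hasFDerivAt)
    have hf' := hf.congr_of_eventuallyEq hev
    have hid : ∀ w, fderiv ℝ ϑ (θ y) (fderiv ℝ θ y w) = w := by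
      intro w
      have e1 : HasFDerivAt (fun y => ϑ (θ y)) ((fderiv ℝ ϑ (θ y)).comp (fderiv ℝ θ y)) y :=
        HasFDerivAt.comp y (g := ϑ) d1.hasFDerivAt b3.hasFDerivAt
      have e2 : HasFDerivAt (fun y => ϑ (θ y)) (ContinuousLinearMap.id ℝ E) y :=
        (hasFDerivAt_id y).congr_of_eventuallyEq b5
      exact DFunLike.congr_fun (e1.unique e2) w
    refine ⟨hf'.differentiableAt, fun w => ?_⟩
    have e3 := hest (fderiv ℝ θ y w)
    rw [hid w] at e3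
    rw [hf'.fderiv]
    exact e3

end Pool.Agent.J4H20.HT
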