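import Mathlib
import Pool.Agent.J4H20.HT.Core2
import Pool.Agent.J4H20.HT.WE

/-! The local uniform return property on a manifold and its invariance. -/

open scoped Topology ContDiff Manifold
open Set Metric Bundle Filter Pool.Agent.Helper186

noncomputable section

namespace Pool.Agent.J4H20.HT

set_option linter.unusedSectionVars false

variable {E : Type*} [NormedAddCommGroup E] [NormedSpace ℝ E]
  {M : Type*} [TopologicalSpace M] [ChartedSpace E M] [IsManifold 𝓘(ℝ, E) ∞ M]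

/-- the local uniform return property at `q`, in the chart at `z` -/
def WQ (E : Type*) [NormedAddCommGroup E] [NormedSpace ℝ E] {M : Type*} [TopologicalSpace M]
    [ChartedSpace E M] (φ : ℕ → M → M) (z q : M) : Prop :=
  q ∈ (extChartAt 𝓘(ℝ, E) z).source ∧
  (∃ N ∈ 𝓝 q, ∀ᶠ k in (atTop : Filter ℕ), ∀ m ∈ N, φ k m ∈ (extChartAt 𝓘(ℝ, E) z).source) ∧
  WE (fun k y => extChartAt 𝓘(ℝ, E) z (φ k ((extChartAt 𝓘(ℝ, E) z).symm y)))
    (extChartAt 𝓘(ℝ, E) z q)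

lemma contDiffAt_tr (z z' : M) {g : M → M} (hg : ContMDiff 𝓘(ℝ, E) 𝓘(ℝ, E) 1 g) {y : E}
    (hy : y ∈ (extChartAt 𝓘(ℝ, E) z).target)
    (hs : g ((extChartAt 𝓘(ℝ, E) z).symm y) ∈ (extChartAt 𝓘(ℝ, E) z').source) :
    ContDiffAt ℝ 1 (fun y => extChartAt 𝓘(ℝ, E) z' (g ((extChartAt 𝓘(ℝ, E) z).symm y))) y := by
  rw [← contMDiffAt_iff_contDiffAt]
  have h2 : ContMDiffAt 𝓘(ℝ, E) 𝓘(ℝ, E) 1 (extChartAt 𝓘(ℝ, E) z).symm y :=
    ((contMDiffOn_extChartAt_symm (n := ∞) z).contMDiffAt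
      ((isOpen_extChartAt_target z).mem_nhds hy)).of_le (by simp)
  have h3 : ContMDiffAt 𝓘(ℝ, E) 𝓘(ℝ, E) 1 (extChartAt 𝓘(ℝ, E) z')
      (g ((extChartAt 𝓘(ℝ, E) z).symm y)) := by
    rw [extChartAt_source] at hs
    exact contMDiffAt_extChartAt' hs
  exact ContMDiffAt.comp (g := extChartAt 𝓘(ℝ, E) z') y h3 ((hg _).comp y h2)

/-- the property is invariant under diffeomorphisms commuting with the maps -/
lemma WQ.transfer {φ : ℕ → M → M} {z q : M} (h : WQ E φ z q) {g g' : M → M}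
    (hg : ContMDiff 𝓘(ℝ, E) 𝓘(ℝ, E) 1 g) (hg' : ContMDiff 𝓘(ℝ, E) 𝓘(ℝ, E) 1 g')
    (hl : ∀ m, g' (g m) = m) (hr : ∀ m, g (g' m) = m) (hc : ∀ k m, g (φ k m) = φ k (g m))
    {z' : M} (hq' : g q ∈ (extChartAt 𝓘(ℝ, E) z').source) : WQ E φ z' (g q) := by
  obtain ⟨hq, ⟨N, hN, hNs⟩, hW⟩ := h
  set κ := extChartAt 𝓘(ℝ, E) z with hκ
  set κ' := extChartAt 𝓘(ℝ, E) z' with hκ'
  have hqt : κ q ∈ κ.target := κ.map_source hq
  have hqt' : κ' (g q) ∈ κ'.target := κ'.map_source hq'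
  have hs1 : κ.symm (κ q) = q := κ.left_inv hq
  have hs2 : κ'.symm (κ' (g q)) = g q := κ'.left_inv hq'
  set θ : E → E := fun y => κ (g' (κ'.symm y)) with hθ
  set ϑ : E → E := fun b => κ' (g (κ.symm b)) with hϑ
  have hθp : θ (κ' (g q)) = κ q := by
    show κ (g' (κ'.symm (κ' (g q)))) = κ q
    rw [hs2, hl]
  have hθc : ContDiffAt ℝ 1 θ (κ' (g q)) := by
    apply contDiffAt_tr z' z hg' hqt'
    rw [← hκ', hs2, hl]; exact hq
  have hϑc : ContDiffAt ℝ 1 ϑ (κ q) := by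
    apply contDiffAt_tr z z' hg hqt
    rw [← hκ, hs1]; exact hq'
  -- sources near the points
  have c' : ContinuousAt (fun y => g' (κ'.symm y)) (κ' (g q)) :=
    hg'.continuous.continuousAt.comp (continuousAt_extChartAt_symm' hq')
  have c : ContinuousAt (fun b => g (κ.symm b)) (κ q) :=
    hg.continuous.continuousAt.comp (continuousAt_extChartAt_symm' hq)
  have n1 : ∀ᶠ y in 𝓝 (κ' (g q)), g' (κ'.symm y) ∈ κ.source := by
    apply c'.eventually ((isOpen_extChartAt_source (I := 𝓘(ℝ, E)) z).mem_nhds _)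
    show g' (κ'.symm (κ' (g q))) ∈ κ.source
    rw [hs2, hl]; exact hq
  have n2 : ∀ᶠ b in 𝓝 (κ q), g (κ.symm b) ∈ κ'.source := by
    apply c.eventually ((isOpen_extChartAt_source (I := 𝓘(ℝ, E)) z').mem_nhds _)
    show g (κ.symm (κ q)) ∈ κ'.source
    rw [hs1]; exact hq'
  have t1 : ∀ᶠ y in 𝓝 (κ' (g q)), y ∈ κ'.target :=
    (isOpen_extChartAt_target z').mem_nhds hqt'
  have t2 : ∀ᶠ b in 𝓝 (κ q), b ∈ κ.target := (isOpen_extChartAt_target z).mem_nhds hqt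
  have n3 : ∀ᶠ y in 𝓝 (κ' (g q)), g' (κ'.symm y) ∈ N := by
    apply c'.eventually
    show N ∈ 𝓝 (g' (κ'.symm (κ' (g q))))
    rw [hs2, hl]; exact hN
  -- the relation between the two chart expressions
  have hrel : ∀ᶠ k in atTop, ∀ y, y ∈ κ'.target → g' (κ'.symm y) ∈ κ.source →
      g' (κ'.symm y) ∈ N →
      κ' (φ k (κ'.symm y)) = ϑ (κ (φ k (κ.symm (θ y)))) ∧
      φ k (κ'.symm y) = g (κ.symm (κ (φ k (κ.symm (θ y))))) := by
    filter_upwards [hNs] with k hk y hy1 hy2 hy3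
    have e1 : κ.symm (θ y) = g' (κ'.symm y) := κ.left_inv hy2
    have e2 : κ.symm (κ (φ k (g' (κ'.symm y)))) = φ k (g' (κ'.symm y)) := κ.left_inv (hk _ hy3)
    have e3 : g (κ.symm (κ (φ k (κ.symm (θ y))))) = φ k (κ'.symm y) := by
      rw [e1, e2, hc, hr]
    refine ⟨?_, e3.symm⟩
    show κ' (φ k (κ'.symm y)) = κ' (g (κ.symm (κ (φ k (κ.symm (θ y))))))
    rw [e3]
  refine ⟨hq', ?_, ?_⟩
  · -- the domain
    obtain ⟨r, hr0, C, hC, h1, -⟩ := hW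
    obtain ⟨δ, hδ, hδ'⟩ := Metric.mem_nhds_iff.1 n2
    set ρ := min r (δ / 2) with hρ
    have hρ0 : 0 < ρ := by positivity
    have hthb : ∀ᶠ y in 𝓝 (κ' (g q)), θ y ∈ ball (κ q) ρ := by
      apply hθc.continuousAt.eventually
      rw [hθp]; exact ball_mem_nhds _ hρ0
    have hall := hthb.and (t1.and (n1.and n3))
    have hN' : ∀ᶠ m in 𝓝 (g q), m ∈ κ'.source ∧ (θ (κ' m) ∈ ball (κ q) ρ ∧ κ' m ∈ κ'.target ∧
        g' (κ'.symm (κ' m)) ∈ κ.source ∧ g' (κ'.symm (κ' m)) ∈ N) := by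
      have a1 : ∀ᶠ m in 𝓝 (g q), m ∈ κ'.source :=
        (isOpen_extChartAt_source (I := 𝓘(ℝ, E)) z').mem_nhds hq'
      exact a1.and ((continuousAt_extChartAt' (I := 𝓘(ℝ, E)) hq').eventually hall)
    refine ⟨_, hN', ?_⟩
    filter_upwards [hrel, h1 (δ / 2) (by positivity)] with k hk1 hk2 m hm
    obtain ⟨m1, m2, m3, m4, m5⟩ := hm
    obtain ⟨-, e2⟩ := hk1 (κ' m) m3 m4 m5
    rw [κ'.left_inv m1] at e2
    rw [e2]
    apply hδ'
    have e3 := hk2 (θ (κ' m)) (ball_subset_ball (min_le_left _ _) m2)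
    have e4 : dist (θ (κ' m)) (κ q) < δ / 2 :=
      mem_ball.1 (ball_subset_ball (min_le_right _ _) m2)
    rw [mem_ball]
    refine (dist_triangle _ (θ (κ' m)) _).trans_lt ?_
    rw [dist_eq_norm]
    linarith
  · -- the estimates
    obtain ⟨δ, hδ, hδ'⟩ := Metric.mem_nhds_iff.1 (t1.and (n1.and n3))
    refine hW.conj (θ := θ) (ϑ := ϑ) hθc hϑc hθp ?_ ?_ ⟨δ, hδ, ?_⟩
    · filter_upwards [t1, n1] with y hy1 hy2
      show κ' (g (κ.symm (κ (g' (κ'.symm y))))) = y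
      rw [κ.left_inv hy2, hr, κ'.right_inv hy1]
    · filter_upwards [t2, n2] with b hb1 hb2
      show κ (g' (κ'.symm (κ' (g (κ.symm b))))) = b
      rw [κ'.left_inv hb2, hl, κ.right_inv hb1]
    · filter_upwards [hrel] with k hk y hy
      obtain ⟨y1, y2, y3⟩ := hδ' hy
      exact (hk y y1 y2 y3).1

/-- the property holds near a point where it holds -/
lemma WQ.nhds {φ : ℕ → M → M} {z q : M} (h : WQ E φ z q) : ∀ᶠ q' in 𝓝 q, WQ E φ z q' := by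
  obtain ⟨hq, ⟨N, hN, hNs⟩, hW⟩ := h
  obtain ⟨r, hr, hr'⟩ := hW.ball_sub
  have a1 : ∀ᶠ m in 𝓝 q, m ∈ (extChartAt 𝓘(ℝ, E) z).source :=
    (isOpen_extChartAt_source (I := 𝓘(ℝ, E)) z).mem_nhds hq
  have a2 : ∀ᶠ m in 𝓝 q, extChartAt 𝓘(ℝ, E) z m ∈ ball (extChartAt 𝓘(ℝ, E) z q) r :=
    (continuousAt_extChartAt' (I := 𝓘(ℝ, E)) hq).eventually (ball_mem_nhds _ hr)
  have a3 : ∀ᶠ m in 𝓝 q, N ∈ 𝓝 m := eventually_mem_nhds_iff.2 hN
  filter_upwards [a1, a2, a3] with m m1 m2 m3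
  exact ⟨m1, ⟨N, m3, hNs⟩, hr' _ m2⟩

/-- the property at a point with nonmeager orbit -/
lemma WQ.of_nonmeagre [FiniteDimensional ℝ E] [T2Space M] [CompactSpace M]
    (G : Subgroup (Equiv.Perm M)) (hG : ∀ g ∈ G, ContMDiff 𝓘(ℝ, E) 𝓘(ℝ, E) 1 g)
    (φ : ℕ → M → M) (hφs : ∀ k, ContMDiff 𝓘(ℝ, E) 𝓘(ℝ, E) 1 (φ k))
    (hGc : ∀ g ∈ G, ∀ k z, g (φ k z) = φ k (g z))
    (x : M) (hx : ¬ IsMeagre {y | ∃ g ∈ G, g x = y})
    (ht : Tendsto (fun k => φ k x) atTop (𝓝 x)) : WQ E φ x x := by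
  obtain ⟨h1, r, hr, hrt, h2⟩ := near_of_nonmeagre G hG φ hφs hGc x hx ht
  have hxs := mem_extChartAt_source (I := 𝓘(ℝ, E)) x
  refine ⟨hxs, ?_, ?_⟩
  · have a1 : ∀ᶠ m in 𝓝 x, m ∈ (extChartAt 𝓘(ℝ, E) x).source :=
      (isOpen_extChartAt_source (I := 𝓘(ℝ, E)) x).mem_nhds hxs
    have a2 : ∀ᶠ m in 𝓝 x, extChartAt 𝓘(ℝ, E) x m ∈ ball (extChartAt 𝓘(ℝ, E) x x) r :=
      (continuousAt_extChartAt (I := 𝓘(ℝ, E)) x).eventually (ball_mem_nhds _ hr)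
    refine ⟨_, a1.and a2, ?_⟩
    filter_upwards [h2] with k hk m hm
    have e1 := hk _ hm.2
    rwa [(extChartAt 𝓘(ℝ, E) x).left_inv hm.1] at e1
  · have h0 : Tendsto (fun k => chx x (φ k) (extChartAt 𝓘(ℝ, E) x x)) atTop
        (𝓝 (extChartAt 𝓘(ℝ, E) x x)) := by
      have h3 : Tendsto (fun k => extChartAt 𝓘(ℝ, E) x (φ k x)) atTop
          (𝓝 (extChartAt 𝓘(ℝ, E) x x)) :=
        (continuousAt_extChartAt (I := 𝓘(ℝ, E)) x).tendsto.comp ht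
      refine h3.congr fun k => ?_
      unfold chx
      rw [(extChartAt 𝓘(ℝ, E) x).left_inv hxs]
    exact h1.we h0

/-- the derivative of a map -/
def dX (E F : Type*) [NormedAddCommGroup E] [NormedSpace ℝ E] [NormedAddCommGroup F]
    [NormedSpace ℝ F] {M N : Type*} [TopologicalSpace M] [ChartedSpace E M] [TopologicalSpace N]
    [ChartedSpace F N] (f : M → N) (x : M) : E →L[ℝ] F :=
  mfderiv 𝓘(ℝ, E) 𝓘(ℝ, F) f x

/-- the estimates measured by an immersion in a vector space -/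
lemma WQ.immersion [FiniteDimensional ℝ E] {φ : ℕ → M → M}
    (hφs : ∀ k, ContMDiff 𝓘(ℝ, E) 𝓘(ℝ, E) 1 (φ k)) {z : M} (h : WQ E φ z z)
    {F : Type*} [NormedAddCommGroup F] [NormedSpace ℝ F] {e : M → F}
    (he : ContMDiff 𝓘(ℝ, E) 𝓘(ℝ, F) ∞ e)
    (hinj : ∀ x, Function.Injective (dX E F e x)) :
    ∃ N ∈ 𝓝 z, ∃ C > 0, (∀ ε > 0, ∀ᶠ k in atTop, ∀ m ∈ N, ‖e (φ k m) - e m‖ ≤ ε) ∧
      ∀ᶠ k in atTop, ∀ m ∈ N, ∀ v : E,
        ‖dX E F e (φ k m) (dX E E (φ k) m v)‖ ≤ C * ‖dX E F e m v‖ ∧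
        ‖dX E F e m v‖ ≤ C * ‖dX E F e (φ k m) (dX E E (φ k) m v) + dX E F e m v‖ := by
  obtain ⟨hq, ⟨N, hN, hNs⟩, hW⟩ := h
  set κ := extChartAt 𝓘(ℝ, E) z with hκ
  have hzt : κ z ∈ κ.target := κ.map_source hq
  have hsz : κ.symm (κ z) = z := κ.left_inv hq
  set ϑ : E → F := fun y => e (κ.symm y) with hϑ
  have hϑd : ∀ y ∈ κ.target, ContDiffAt ℝ 1 ϑ y := by
    intro y hy
    rw [← contMDiffAt_iff_contDiffAt]
    have h2 : ContMDiffAt 𝓘(ℝ, E) 𝓘(ℝ, E) 1 κ.symm y :=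
      ((contMDiffOn_extChartAt_symm (n := ∞) z).contMDiffAt
        ((isOpen_extChartAt_target z).mem_nhds hy)).of_le (by simp)
    exact ContMDiffAt.comp (g := e) y ((he _).of_le (by simp)) h2
  have hϑf : ∀ y ∈ κ.target, ∀ ζ : E, fderiv ℝ ϑ y ζ =
      dX E F e (κ.symm y) (dX E E κ.symm y ζ) := by
    intro y hy ζ
    have h3 : mfderiv 𝓘(ℝ, E) 𝓘(ℝ, F) (e ∘ κ.symm) y =
        (mfderiv 𝓘(ℝ, E) 𝓘(ℝ, F) e (κ.symm y)).comp (mfderiv 𝓘(ℝ, E) 𝓘(ℝ, E) κ.symm y) :=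
      mfderiv_comp y (he.mdifferentiableAt (by simp)) (mdiff_symm z hy)
    rw [mfderiv_eq_fderiv] at h3
    exact DFunLike.congr_fun h3 ζ
  -- the immersion is bounded from below at the centre
  obtain ⟨A, hA, hA'⟩ : ∃ A : ℝ, 0 < A ∧ ∀ b, ‖b‖ ≤ A * ‖fderiv ℝ ϑ (κ z) b‖ := by
    have hi : Function.Injective (fderiv ℝ ϑ (κ z)) := by
      rw [injective_iff_map_eq_zero]
      intro b hb
      rw [hϑf _ hzt] at hb
      have h4 : dX E E κ.symm (κ z) b = b := mfderiv_extChartAt_symm_self z b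
      have h7 := (injective_iff_map_eq_zero _).1 (hinj _) _ hb
      rw [← h4]; exact h7
    obtain ⟨K, hK, hK'⟩ := (fderiv ℝ ϑ (κ z) : E →ₗ[ℝ] F).exists_antilipschitzWith
      (LinearMap.ker_eq_bot.2 hi)
    refine ⟨K, by exact_mod_cast hK, fun b => ?_⟩
    have h8 := hK'.le_mul_dist b 0
    rw [dist_zero_right, map_zero, dist_zero_right] at h8
    exact h8
  obtain ⟨r, hr, C, hC, c1, c2⟩ := hW.est (hϑd _ hzt) hA hA'
  have a1 : ∀ᶠ m in 𝓝 z, m ∈ κ.source := (isOpen_extChartAt_source (I := 𝓘(ℝ, E)) z).mem_nhds hq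
  have a2 : ∀ᶠ m in 𝓝 z, κ m ∈ ball (κ z) r :=
    (continuousAt_extChartAt (I := 𝓘(ℝ, E)) z).eventually (ball_mem_nhds _ hr)
  have a3 : ∀ᶠ m in 𝓝 z, m ∈ N := hN
  refine ⟨_, a1.and (a2.and a3), C, hC, fun ε hε => ?_, ?_⟩
  · filter_upwards [c1 ε hε, hNs] with k hk hk2 m hm
    have e1 := hk _ hm.2.1
    have e2 : ϑ (κ (φ k (κ.symm (κ m)))) = e (φ k m) := by
      show e (κ.symm (κ (φ k (κ.symm (κ m))))) = e (φ k m)
      rw [κ.left_inv hm.1, κ.left_inv (hk2 m hm.2.2)]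
    have e3 : ϑ (κ m) = e m := by
      show e (κ.symm (κ m)) = e m
      rw [κ.left_inv hm.1]
    rw [e2, e3] at e1
    exact e1
  · filter_upwards [c2, hNs] with k hk hk2 m hm v
    obtain ⟨d1, d2, d3, hest⟩ := hk _ hm.2.1
    have hmt : κ m ∈ κ.target := κ.map_source hm.1
    have hsm : κ.symm (κ m) = m := κ.left_inv hm.1
    -- a vector in the chart
    have hinv := isInvertible_mfderivWithin_extChartAt_symm (I := 𝓘(ℝ, E)) (x := z) hmt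
    rw [ModelWithCorners.range_eq_univ, mfderivWithin_univ] at hinv
    obtain ⟨L, hL⟩ := hinv
    obtain ⟨ζ, hζ⟩ : ∃ ζ : E, dX E E κ.symm (κ m) ζ = v := by
      refine ⟨L.symm v, ?_⟩
      unfold dX
      rw [← hL]
      exact L.apply_symm_apply v
    have g1 : fderiv ℝ ϑ (κ m) ζ = dX E F e m v := by
      rw [hϑf _ hmt, hζ, hsm]
    have g2 : fderiv ℝ ϑ (κ (φ k (κ.symm (κ m)))) (fderiv ℝ (fun y => κ (φ k (κ.symm y))) (κ m) ζ) =
        dX E F e (φ k m) (dX E E (φ k) m v) := by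
      -- both sides are the derivative of `e ∘ φ k ∘ κ.symm`
      have k1 : fderiv ℝ (fun y => ϑ (κ (φ k (κ.symm y)))) (κ m) ζ =
          fderiv ℝ ϑ (κ (φ k (κ.symm (κ m)))) (fderiv ℝ (fun y => κ (φ k (κ.symm y))) (κ m) ζ) := by
        have h5 := fderiv_comp (g := ϑ) (f := fun y => κ (φ k (κ.symm y))) (κ m) d2 d3
        exact DFunLike.congr_fun h5 ζ
      have k2 : (fun y => ϑ (κ (φ k (κ.symm y)))) =ᶠ[𝓝 (κ m)] fun y => e (φ k (κ.symm y)) := by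
        have h6 : ContinuousAt (fun y => φ k (κ.symm y)) (κ m) :=
          (hφs k).continuous.continuousAt.comp (continuousAt_extChartAt_symm' hm.1)
        have h7 : ∀ᶠ y in 𝓝 (κ m), φ k (κ.symm y) ∈ κ.source := by
          apply h6.eventually ((isOpen_extChartAt_source (I := 𝓘(ℝ, E)) z).mem_nhds _)
          show φ k (κ.symm (κ m)) ∈ κ.source
          rw [hsm]; exact hk2 m hm.2.2
        filter_upwards [h7] with y hy
        show e (κ.symm (κ (φ k (κ.symm y)))) = _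
        rw [κ.left_inv hy]
      have k3 : mfderiv 𝓘(ℝ, E) 𝓘(ℝ, F) ((e ∘ φ k) ∘ κ.symm) (κ m) =
          (mfderiv 𝓘(ℝ, E) 𝓘(ℝ, F) (e ∘ φ k) (κ.symm (κ m))).comp
            (mfderiv 𝓘(ℝ, E) 𝓘(ℝ, E) κ.symm (κ m)) :=
        mfderiv_comp _ ((he.mdifferentiableAt (by simp)).comp _
          ((hφs k).mdifferentiableAt one_ne_zero)) (mdiff_symm z hmt)
      have k4 : ∀ m' : M, mfderiv 𝓘(ℝ, E) 𝓘(ℝ, F) (e ∘ φ k) m' =
          (mfderiv 𝓘(ℝ, E) 𝓘(ℝ, F) e (φ k m')).comp (mfderiv 𝓘(ℝ, E) 𝓘(ℝ, E) (φ k) m') :=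
        fun m' => mfderiv_comp _ (he.mdifferentiableAt (by simp))
          ((hφs k).mdifferentiableAt one_ne_zero)
      rw [← k1, k2.fderiv_eq]
      rw [mfderiv_eq_fderiv] at k3
      have k5 : fderiv ℝ (fun y => e (φ k (κ.symm y))) (κ m) ζ =
          dX E F (e ∘ φ k) (κ.symm (κ m)) (dX E E κ.symm (κ m) ζ) := DFunLike.congr_fun k3 ζ
      rw [k5, hζ, hsm]
      exact DFunLike.congr_fun (k4 m) v
    have e4 := hest ζ
    rw [g1] at e4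
    have e5 : fderiv ℝ ϑ ((fun y => κ (φ k (κ.symm y))) (κ m))
        (fderiv ℝ (fun y => κ (φ k (κ.symm y))) (κ m) ζ) =
        dX E F e (φ k m) (dX E E (φ k) m v) := g2
    rw [e5] at e4
    exact e4

end Pool.Agent.J4H20.HT
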