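import Mathlib
import Pool.Agent.J4H20.HT.Fin
import Pool.Agent.J4H20.HT.WM
import Pool.Agent.W671.WU11

/-! Fields of contact type whose centralizer acts minimally. -/

open scoped Topology ContDiff Manifold
open Set Metric Bundle Filter MeasureTheory Pool.Agent.Helper186 Pool.Agent.H826R2
  Pool.Agent.H826R2.WStmt Pool.Agent.W671 Pool.Agent.R774.Root

noncomputable section

namespace Pool.Agent.J4H20.HT

set_option linter.unusedSectionVars false

section general

variable {E : Type*} [NormedAddCommGroup E] [NormedSpace ℝ E]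
  {M : Type*} [TopologicalSpace M] [ChartedSpace E M] [IsManifold 𝓘(ℝ, E) ∞ M]

/-- diffeomorphisms preserving a field commute with its flow -/
lemma cent_comm' [T2Space M] [CompleteSpace E] {X : M → E}
    (hXs : ContMDiff 𝓘(ℝ, E) 𝓘(ℝ, E).tangent ∞
      (fun x => (⟨x, X x⟩ : TangentBundle 𝓘(ℝ, E) M)))
    {Φ : M → ℝ → M} (hΦ : RStmt.IsFlow X Φ)
    {g : M → M} (hg : ContMDiff 𝓘(ℝ, E) 𝓘(ℝ, E) 1 g)
    (hR : ∀ z, dd E g z (X z) = X (g z)) (x : M) (t : ℝ) : g (Φ x t) = Φ (g x) t := by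
  have : IsManifold 𝓘(ℝ, E) 1 M := IsManifold.of_le (n := ∞) (by simp)
  have h1 : IsMIntegralCurve (I := 𝓘(ℝ, E)) (fun t => g (Φ x t))
      (fun y => (X y : TangentSpace 𝓘(ℝ, E) y)) := by
    intro s
    have h2 := HasMFDerivAt.comp s (g := g) (f := Φ x)
      (hg.mdifferentiableAt one_ne_zero).hasMFDerivAt (hΦ.integral x s)
    refine h2.congr_mfderiv ?_
    refine ContinuousLinearMap.ext fun (r : ℝ) => ?_
    have h3 := hR (Φ x s)
    show (mfderiv 𝓘(ℝ, E) 𝓘(ℝ, E) g (Φ x s)) ((r • X (Φ x s) : E)) =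
      r • X (g (Φ x s))
    have h4 : (mfderiv 𝓘(ℝ, E) 𝓘(ℝ, E) g (Φ x s)) ((r • X (Φ x s) : E)) =
      (r • (mfderiv 𝓘(ℝ, E) 𝓘(ℝ, E) g (Φ x s) (X (Φ x s)) : E) : E) :=
      map_smul (mfderiv 𝓘(ℝ, E) 𝓘(ℝ, E) g (Φ x s)) _ _
    rw [h4]
    exact congrArg (fun w : E => r • w) h3
  have h2 : (fun t => g (Φ x t)) = Φ (g x) := by
    refine isMIntegralCurve_Ioo_eq_of_contMDiff_boundaryless (t₀ := 0)
      (hXs.of_le (by simp)) h1 (hΦ.integral _) ?_
    rw [hΦ.zero, hΦ.zero]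
  exact congrFun h2 t

end general

variable {E : Type*} [NormedAddCommGroup E] [NormedSpace ℝ E] [FiniteDimensional ℝ E]
  {M : Type*} [TopologicalSpace M] [ChartedSpace E M] [IsManifold 𝓘(ℝ, E) ∞ M]

/-- recurrence along a sequence of times -/
lemma Recur.seq [CompactSpace M] (E : Type*) [NormedAddCommGroup E] [NormedSpace ℝ E]
    [FiniteDimensional ℝ E] [ChartedSpace E M] {Φ : M → ℝ → M} {x : M} (h : Recur Φ x) :
    ∃ t : ℕ → ℝ, (∀ k, 1 ≤ t k) ∧ Tendsto (fun k => Φ x (t k)) atTop (𝓝 x) := by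
  have : SecondCountableTopology M := ChartedSpace.secondCountable_of_sigmaCompact E M
  obtain ⟨U, hU⟩ := (𝓝 x).exists_antitone_basis
  have h1 : ∀ k, ∃ t : ℝ, 1 ≤ t ∧ Φ x t ∈ U k := fun k => by
    obtain ⟨t, ht, ht'⟩ := h (U k) (hU.1.mem_of_mem trivial) 1
    exact ⟨t, ht, ht'⟩
  choose t ht ht' using h1
  exact ⟨t, ht, hU.tendsto ht'⟩

/-- the uniform return estimates over the manifold -/
lemma recurrent_of_WQ [T2Space M] [CompactSpace M] {X : M → E} {Φ : M → ℝ → M} {t : ℕ → ℝ}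
    (ht : ∀ k, 1 ≤ t k) (hs : ∀ s, ContMDiff 𝓘(ℝ, E) 𝓘(ℝ, E) 1 (fun z => Φ z s))
    (h : ∀ z, WQ E (fun k z => Φ z (t k)) z z)
    {F : Type*} [NormedAddCommGroup F] [NormedSpace ℝ F] {e : M → F}
    (he : RStmt.IsInjImmersion (E := E) e) :
    RStmt.Recurrent (E := E) e X Φ (fun k _ => t k) := by
  have h1 := fun z => (h z).immersion (fun k => hs (t k)) he.smooth he.immersion
  choose N hN C hC hu hd using h1
  obtain ⟨S, -, hS⟩ := isCompact_univ.elim_nhds_subcover N (fun z _ => hN z)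
  have hcov : ∀ x, ∃ z ∈ S, x ∈ N z := by
    intro x
    have := hS (mem_univ x)
    simpa using this
  refine ⟨fun k => continuous_const, ⟨1, one_pos, fun k _ => ht k⟩, fun ε hε => ?_, ?_⟩
  · have h2 : ∀ᶠ k in atTop, ∀ z ∈ S, ∀ m ∈ N z, ‖e (Φ m (t k)) - e m‖ ≤ ε / 2 :=
      (Filter.eventually_all_finset S).2 fun z _ => hu z (ε / 2) (by positivity)
    filter_upwards [h2] with k hk x
    obtain ⟨z, hz, hx⟩ := hcov x
    exact (hk z hz x hx).trans_lt (by linarith)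
  · refine ⟨∑ z ∈ S, C z, ?_⟩
    have hle : ∀ z ∈ S, C z ≤ ∑ z ∈ S, C z := fun z hz =>
      Finset.single_le_sum (fun z _ => (hC z).le) hz
    have h2 := (Filter.eventually_all_finset S).2 fun z _ => hd z
    filter_upwards [h2] with k hk x
    obtain ⟨z, hz, hx⟩ := hcov x
    refine ⟨0, fun v => ?_⟩
    obtain ⟨a1, a2⟩ := hk z hz x hx v
    have e1 : D (E := E) (E' := E) (fun y => Φ y (t k)) x v +
        (0 : E →L[ℝ] ℝ) v • X (Φ x (t k)) = dX E E (fun y => Φ y (t k)) x v := by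
      rw [zero_apply, zero_smul, add_zero]
      rfl
    rw [e1]
    exact ⟨a1.trans (mul_le_mul_of_nonneg_right (hle z hz) (norm_nonneg _)),
      a2.trans (mul_le_mul_of_nonneg_right (hle z hz) (norm_nonneg _))⟩

/-- the property spreads over the manifold -/
lemma WQ.spread (G : Subgroup (Equiv.Perm M)) (hG : ∀ g ∈ G, ContMDiff 𝓘(ℝ, E) 𝓘(ℝ, E) 1 g)
    {φ : ℕ → M → M} (hGc : ∀ g ∈ G, ∀ k z, g (φ k z) = φ k (g z))
    (hmin : ∀ x, Dense {y | ∃ g ∈ G, g x = y}) {x₀ : M} (h : WQ E φ x₀ x₀) (z : M) :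
    WQ E φ z z := by
  obtain ⟨_, ⟨g, hg, rfl⟩, hgz⟩ := (hmin z).exists_mem_open
    (isOpen_interior (s := {q | WQ E φ x₀ q}))
    ⟨x₀, mem_interior_iff_mem_nhds.2 h.nhds⟩
  have h1 : WQ E φ x₀ (g z) := (interior_subset hgz : g z ∈ {q | WQ E φ x₀ q})
  have h2 := h1.transfer (hG g⁻¹ (G.inv_mem hg)) (hG g hg) (fun m => by simp) (fun m => by simp)
    (hGc g⁻¹ (G.inv_mem hg)) (z' := z) (by
      have : (g⁻¹ : Equiv.Perm M) (g z) = z := by simp
      rw [this]; exact mem_extChartAt_source z)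
  have h3 : (g⁻¹ : Equiv.Perm M) (g z) = z := by simp
  rwa [h3] at h2

universe u

theorem finC {E : Type u} [NormedAddCommGroup E] [NormedSpace ℝ E] [FiniteDimensional ℝ E]
    {M : Type*} [TopologicalSpace M] [ChartedSpace E M] [IsManifold 𝓘(ℝ, E) ∞ M]
    [T2Space M] [CompactSpace M] [Nonempty M] (α : M → Cov E) (hα : IsContact α)
    (R : M → E) (hR : IsReeb α R) (h : M → ℝ) (hh : ContMDiff 𝓘(ℝ, E) 𝓘(ℝ, ℝ) ∞ h)
    (hpos : ∀ x, 0 < h x) (x₁ : M)
    (hx₁ : ¬ IsMeagre {y | ∃ g ∈ cent (E := E) (fun x => h x • R x), g x₁ = y})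
    (hmin : ∀ x, Dense {y | ∃ g ∈ cent (E := E) (fun x => h x • R x), g x = y}) :
    ∃ Φ : M → ℝ → M, RStmt.IsFlow (fun x => h x • R x) Φ ∧ ∃ T > 0, ∀ x, MinPer Φ x T := by
  have : IsManifold 𝓘(ℝ, E) 1 M := IsManifold.of_le (n := ∞) (by simp)
  set X : M → E := fun x => h x • R x with hX
  obtain ⟨c, Fl, hF⟩ := exists_flow hα hR
  have hRs := WU.smooth_reeb c
  have hXs := WU.smooth_smul hh hRs
  choose Φ hΦ0 hΦi using fun x : M => Wein.complete_of_compact hXs isCompact_univ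
    (fun y hy => absurd (mem_univ y) hy) x
  have hΦ : RStmt.IsFlow X Φ := ⟨hΦ0, hΦi⟩
  have hΦs := contMDiff_flow hXs hΦ0 hΦi
  have hΦc : Continuous (fun q : M × ℝ => Φ q.1 q.2) := hΦs.continuous
  have hΦt : ∀ s, ContMDiff 𝓘(ℝ, E) 𝓘(ℝ, E) ∞ (fun z => Φ z s) := fun s =>
    hΦs.comp (contMDiff_id.prodMk contMDiff_const)
  have hadd : ∀ x s t, Φ x (s + t) = Φ (Φ x s) t := flow_add hXs hΦ0 hΦi
  -- bounds of `h`
  obtain ⟨y₁, -, hy₁⟩ := (isCompact_univ (X := M)).exists_isMinOn univ_nonempty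
    hh.continuous.continuousOn
  have hhm : ∀ x, h y₁ ≤ h x := fun x => hy₁ (mem_univ x)
  obtain ⟨y₂, -, hy₂⟩ := (isCompact_univ (X := M)).exists_isMaxOn univ_nonempty
    hh.continuous.continuousOn
  have hhM : ∀ x, h x ≤ h y₂ := fun x => hy₂ (mem_univ x)
  have hH := hpos y₂
  have htc := fun x => WU.time_change hRs hh (hpos y₁) hhm hΦ0 hΦi hF.zero hF.int x
  have hint : ∀ x s, 0 ≤ s → (∫ r in (0:ℝ)..s, h (Φ x r)) ≤ h y₂ * s := by
    intro x s hs
    have h2 := intervalIntegral.integral_mono_on (μ := volume) hs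
      (f := fun r => h (Φ x r)) (g := fun _ => h y₂)
      ((hh.continuous.comp (hΦi x).continuous).intervalIntegrable _ _)
      intervalIntegrable_const (fun r _ => hhM _)
    rw [intervalIntegral.integral_const, smul_eq_mul, sub_zero, mul_comm] at h2
    exact h2
  have hint' : ∀ x s, 0 < s → 0 < ∫ r in (0:ℝ)..s, h (Φ x r) := by
    intro x s hs
    apply intervalIntegral.intervalIntegral_pos_of_pos_on
    · exact (hh.continuous.comp (hΦi x).continuous).intervalIntegrable _ _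
    · intro r _; exact hpos _
    · exact hs
  have hGc : ∀ g ∈ cent (E := E) X, ∀ x t, g (Φ x t) = Φ (g x) t := fun g hg x t =>
    cent_comm' hXs hΦ hg.1 hg.2.2 x t
  have hG1 : ∀ g ∈ cent (E := E) X, ContMDiff 𝓘(ℝ, E) 𝓘(ℝ, E) 1 g := fun g hg => hg.1
  -- a periodic point
  have hper : ∃ y, ∃ T > 0, Φ y T = y := by
    obtain ⟨x₀, hx₀, hrec⟩ := exists_recur c hF hx₁
    rcases Nat.lt_or_ge 1 (Module.finrank ℝ E) with hdim | hdim
    · have hrec' : Recur Φ x₀ := by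
        intro V hV T
        obtain ⟨u, hu, huV⟩ := hrec V hV (max T 1 * h y₂)
        have hu0 : 0 < u := lt_of_lt_of_le (by positivity) hu
        obtain ⟨s, hs, hsu⟩ := (htc x₀).2 u hu0
        refine ⟨s, ?_, ?_⟩
        · have h1 := hint x₀ s hs.le
          rw [hsu] at h1
          have h2 : max T 1 * h y₂ ≤ s * h y₂ := by linarith
          exact (le_max_left _ _).trans (le_of_mul_le_mul_right h2 hH)
        · rw [(htc x₀).1, hsu]; exact huV
      obtain ⟨t, ht1, ht⟩ := hrec'.seq E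
      have hnm : ¬ IsMeagre {y | ∃ g ∈ cent (E := E) X, g x₀ = y} := by
        rw [orbit_eq (cent (E := E) X) hx₀]; exact hx₁
      have hW : WQ E (fun k z => Φ z (t k)) x₀ x₀ :=
        WQ.of_nonmeagre (cent (E := E) X) hG1 _ (fun k => (hΦt (t k)).of_le (by simp))
          (fun g hg k z => hGc g hg z (t k)) x₀ hnm ht
      have hW' := WQ.spread (cent (E := E) X) hG1 (φ := fun k z => Φ z (t k))
        (fun g hg k z => hGc g hg z (t k)) hmin hW
      obtain ⟨n, e, he1, he2, he3⟩ := exists_embedding_euclidean_of_compact (I := 𝓘(ℝ, E)) (M := M)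
      have he : RStmt.IsInjImmersion (E := E) e := ⟨he1, he2.injective, he3⟩
      have hrecu := recurrent_of_WQ (X := X) ht1 (fun s => (hΦt s).of_le (by simp)) hW' he
      obtain ⟨c₁, -, T₁, -, ⟨hT₁, hc₁, hp₁⟩, -, -⟩ := RStmt.exists_periodic_of_recurrent hdim α hα
        R hR h hh hpos Φ hΦ e he _ hrecu
      have h1 : c₁ = Φ (c₁ 0) := by
        refine isMIntegralCurve_Ioo_eq_of_contMDiff_boundaryless (t₀ := 0)
          (hXs.of_le (by simp)) hc₁ (hΦi _) ?_
        rw [hΦ0]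
      refine ⟨c₁ 0, T₁, hT₁, ?_⟩
      rw [← h1]
      have := hp₁ 0
      rwa [zero_add] at this
    · -- dimension one
      have hp : ∃ T > 0, Fl x₀ T = x₀ := by
        by_contra hcon
        push Not at hcon
        obtain ⟨-, -, v, -, -, -, hv1, hv0⟩ := exists_times c hF x₀ hrec hcon
        let B : E →L[ℝ] ℝ := toForm α x₀
        have hB : B (R x₀) = 1 := hR.unit x₀
        have hR0 : R x₀ ≠ 0 := by
          intro h0
          rw [h0, map_zero] at hB
          exact zero_ne_one hB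
        have hd1 : Module.finrank ℝ E = 1 :=
          le_antisymm hdim (Module.finrank_pos_iff_exists_ne_zero.2 ⟨_, hR0⟩)
        obtain ⟨a, ha⟩ := exists_smul_eq_of_finrank_eq_one hd1 hR0 v
        have hv0' : B v = 0 := hv0
        rw [← ha, map_smul, hB, smul_eq_mul, mul_one] at hv0'
        rw [← ha, hv0', zero_smul, norm_zero] at hv1
        exact zero_ne_one hv1
      obtain ⟨T, hT, hTx⟩ := hp
      obtain ⟨s, hs, hs'⟩ := (htc x₀).2 T hT
      exact ⟨x₀, s, hs, by rw [(htc x₀).1, hs', hTx]⟩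
  -- short times are not periods
  have hshort : ∀ x, ∃ δ > 0, ∀ t, 0 < t → t ≤ δ → Φ x t ≠ x := by
    intro x
    obtain ⟨V, hV, δ, hδ, hsh⟩ := exists_short c hF x
    refine ⟨δ / h y₂, by positivity, fun t ht0 ht hcon => ?_⟩
    rw [(htc x).1] at hcon
    refine hsh x (mem_of_mem_nhds hV) _ (hint' x t ht0) ?_ hcon
    refine (hint x t ht0.le).trans ?_
    rw [mul_comm]
    rwa [le_div_iff₀ hH] at ht
  obtain ⟨y, T, hT, hmp⟩ : ∃ y, ∃ T > 0, MinPer Φ y T := by
    obtain ⟨y, T₀, hT₀, hy⟩ := hper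
    obtain ⟨δ, hδ, hsh⟩ := hshort y
    set S : Set ℝ := {t | δ ≤ t ∧ Φ y t = y} with hS
    have hc : Continuous (fun t => Φ y t) := (hΦi y).continuous
    have hSc : IsClosed S := (isClosed_le continuous_const continuous_id).inter
      (isClosed_eq hc continuous_const)
    have hmem : ∀ t, 0 < t → Φ y t = y → t ∈ S := by
      intro t ht htx
      refine ⟨?_, htx⟩
      by_contra hlt
      push Not at hlt
      exact hsh t ht hlt.le htx
    have hb : BddBelow S := ⟨δ, fun t ht => ht.1⟩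
    have hm := hSc.csInf_mem ⟨T₀, hmem T₀ hT₀ hy⟩ hb
    exact ⟨y, sInf S, lt_of_lt_of_le hδ hm.1, hm.2, fun T' h1 h2 => csInf_le hb (hmem T' h1 h2)⟩
  -- from one point to all points
  have hall : ∀ z s, Φ z s = z → ∀ w, Φ w s = w := by
    intro z s hz w
    have hcl : IsClosed {w : M | Φ w s = w} := isClosed_eq (hΦt s).continuous continuous_id
    have h1 : closure {y | ∃ g ∈ cent (E := E) X, g z = y} ⊆ {w : M | Φ w s = w} := by
      apply closure_minimal _ hcl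
      rintro _ ⟨g, hg, rfl⟩
      show Φ (g z) s = g z
      rw [← hGc g hg, hz]
    exact h1 (hmin z w)
  refine ⟨Φ, hΦ, T, hT, fun x => ⟨hall y T hmp.1 x, fun T' hT' hx => ?_⟩⟩
  exact hmp.2 T' hT' (hall x T' hx y)

end Pool.Agent.J4H20.HT
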